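import Mathlib

set_option autoImplicit false

/-! Task B1: joint tail of linear functionals and big steps from an exponential moment bound,
abstract version. Model: the file `LibLoc73/E3.lean` (its proof can be copied). -/

open Finset

namespace Pool.Agent.LibLev64

section B1

variable {Ω ι σ : Type*} [Fintype Ω] [Fintype ι] [Fintype σ]

/-- the exponent -/
noncomputable def B1_ex (τ : ℕ) (R : σ → Ω → ℝ) (sl : ℕ → Ω → Finset ι) (W : ℕ → ι → Ω → ℝ)
    (θ : σ → ℝ) (S : ℕ → ι → ℝ) (ω : Ω) : ℝ :=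
  ∑ j, θ j * R j ω + ∑ s ∈ range τ, ∑ i ∈ sl s ω, S s i * W s i ω

open Classical in
/-- the event -/
noncomputable def B1_ev (η : ℝ) (τ : ℕ) (R : σ → Ω → ℝ) (b : σ → ℝ) (sl : ℕ → Ω → Finset ι)
    (W : ℕ → ι → Ω → ℝ) (J : Finset σ) (Z : Finset ι) : Finset Ω :=
  (univ : Finset Ω).filter (fun ω =>
    (∀ j ∈ J, b j ≤ |R j ω|) ∧ ∀ z ∈ Z, ∃ s < τ, z ∈ sl s ω ∧ η ≤ |W s z ω|)

omit [Fintype Ω] [Fintype ι] [Fintype σ] in
theorem B1_abs {t lam y : ℝ} (ht : 0 ≤ t) (h : lam ≤ |y|) :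
    1 ≤ Real.exp (t * y - t * lam) + Real.exp (-(t * y) - t * lam) := by
  have h1 := Real.exp_pos (t * y - t * lam)
  have h2 := Real.exp_pos (-(t * y) - t * lam)
  rcases abs_cases y with ⟨h3, _⟩ | ⟨h3, _⟩
  · have h4 : 1 ≤ Real.exp (t * y - t * lam) := by
      apply Real.one_le_exp
      rw [h3] at h
      nlinarith
    linarith
  · have h4 : 1 ≤ Real.exp (-(t * y) - t * lam) := by
      apply Real.one_le_exp
      rw [h3] at h
      nlinarith
    linarith

omit [Fintype Ω] [Fintype ι] in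
/-- adding a row -/
theorem B1_row (τ : ℕ) (R : σ → Ω → ℝ) (sl : ℕ → Ω → Finset ι) (W : ℕ → ι → Ω → ℝ)
    (θ : σ → ℝ) (S : ℕ → ι → ℝ) (ω : Ω) (j : σ) (t : ℝ) [DecidableEq σ] :
    B1_ex τ R sl W (Function.update θ j t) S ω =
      B1_ex τ R sl W (Function.update θ j 0) S ω + t * R j ω := by
  unfold B1_ex
  have h1 : ∀ r : ℝ, (∑ i, Function.update θ j r i * R i ω) =
      r * R j ω + ∑ i ∈ univ.erase j, θ i * R i ω := by
    intro r
    rw [← Finset.add_sum_erase univ _ (Finset.mem_univ j), Function.update_self]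
    congr 1
    apply Finset.sum_congr rfl
    intro i hi
    rw [Function.update_of_ne (Finset.ne_of_mem_erase hi)]
  rw [h1 t, h1 0]
  ring

theorem B1_row_sq (θ : σ → ℝ) (j : σ) (t : ℝ) [DecidableEq σ] :
    ∑ i, (Function.update θ j t i) ^ 2 = t ^ 2 + ∑ i ∈ univ.erase j, (θ i) ^ 2 := by
  rw [← Finset.add_sum_erase univ _ (Finset.mem_univ j), Function.update_self]
  congr 1
  apply Finset.sum_congr rfl
  intro i hi
  rw [Function.update_of_ne (Finset.ne_of_mem_erase hi)]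

open Classical in
/-- adding one slave increment -/
noncomputable def B1_S (S : ℕ → ι → ℝ) (s0 : ℕ) (z : ι) (l : ℝ) (s : ℕ) (i : ι) : ℝ :=
  S s i + if s = s0 ∧ i = z then l else 0

omit [Fintype Ω] [Fintype ι] in
open Classical in
theorem B1_big (τ : ℕ) (R : σ → Ω → ℝ) (sl : ℕ → Ω → Finset ι) (W : ℕ → ι → Ω → ℝ)
    (θ : σ → ℝ) (S : ℕ → ι → ℝ) (ω : Ω) (z : ι)
    (s0 : ℕ) (hs0 : s0 < τ) (l : ℝ) (hz : z ∈ sl s0 ω) :
    B1_ex τ R sl W θ (B1_S S s0 z l) ω = B1_ex τ R sl W θ S ω + l * W s0 z ω := by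
  unfold B1_ex B1_S
  rw [add_assoc]
  congr 1
  have h1 : ∀ s ∈ range τ, (∑ i ∈ sl s ω,
      (S s i + if s = s0 ∧ i = z then l else 0) * W s i ω) =
      (∑ i ∈ sl s ω, S s i * W s i ω) +
      if s = s0 then l * W s0 z ω else 0 := by
    intro s _
    rw [← sub_eq_iff_eq_add', ← Finset.sum_sub_distrib]
    by_cases hs : s = s0
    · subst hs
      rw [if_pos rfl, Finset.sum_eq_single z]
      · simp only [true_and, if_true]
        ring
      · intro i _ hi
        simp [hi]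
      · intro h
        exact absurd hz h
    · rw [if_neg hs]
      apply Finset.sum_eq_zero
      intro i _
      simp [hs]
  rw [Finset.sum_congr rfl h1, Finset.sum_add_distrib, Finset.sum_ite_eq' (range τ) s0,
    if_pos (Finset.mem_range.2 hs0)]

theorem B1_big_sq (τ : ℕ) (S : ℕ → ι → ℝ) (z : ι) (hS : ∀ s, S s z = 0)
    (s0 : ℕ) (hs0 : s0 < τ) (l : ℝ) :
    ∑ s ∈ range τ, ∑ i, (B1_S S s0 z l s i) ^ 2 = (∑ s ∈ range τ, ∑ i, (S s i) ^ 2) + l ^ 2 := by
  have h1 : ∀ s ∈ range τ, ∑ i, (B1_S S s0 z l s i) ^ 2 =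
      (∑ i, (S s i) ^ 2) + if s = s0 then l ^ 2 else 0 := by
    intro s _
    rw [← sub_eq_iff_eq_add', ← Finset.sum_sub_distrib]
    unfold B1_S
    by_cases hs : s = s0
    · subst hs
      rw [if_pos rfl, Finset.sum_eq_single z]
      · simp only [true_and, if_true]
        rw [hS s]
        ring
      · intro i _ hi
        simp [hi]
      · intro h
        exact absurd (Finset.mem_univ z) h
    · rw [if_neg hs]
      apply Finset.sum_eq_zero
      intro i _
      simp [hs]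
  rw [Finset.sum_congr rfl h1, Finset.sum_add_distrib, Finset.sum_ite_eq' (range τ) s0,
    if_pos (Finset.mem_range.2 hs0)]

/-- the weighted bound for rows and big steps -/
theorem B1_main (N A δ η : ℝ) (hA : 0 < A) (hδ : 0 < δ) (hη : 0 < η) (τ : ℕ)
    (R : σ → Ω → ℝ) (b : σ → ℝ) (hb : ∀ j, 0 < b j)
    (sl : ℕ → Ω → Finset ι) (W : ℕ → ι → Ω → ℝ)
    (hD : ∀ (θ : σ → ℝ) (S : ℕ → ι → ℝ),
      ∑ ω : Ω, Real.exp (B1_ex τ R sl W θ S ω)
        ≤ N * Real.exp (A * ∑ j, θ j ^ 2 + 20 * δ ^ 2 * ∑ s ∈ range τ, ∑ i, S s i ^ 2))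
    (Z : Finset ι) : ∀ (J : Finset σ) (θ : σ → ℝ) (S : ℕ → ι → ℝ), (∀ j ∈ J, θ j = 0) →
      (∀ z ∈ Z, ∀ s, S s z = 0) →
      ∑ ω ∈ B1_ev η τ R b sl W J Z, Real.exp (B1_ex τ R sl W θ S ω) ≤
        N * Real.exp (A * ∑ j, θ j ^ 2 + 20 * δ ^ 2 * ∑ s ∈ range τ, ∑ i, S s i ^ 2) *
          ((∏ j ∈ J, 2 * Real.exp (-(b j ^ 2 / (4 * A))))
          * (2 * τ * Real.exp (-(η ^ 2 / (80 * δ ^ 2)))) ^ Z.card) := by
  classical
  induction Z using Finset.induction_on with
  | empty =>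
    intro J
    induction J using Finset.induction_on with
    | empty =>
      intro θ S _ _
      rw [Finset.card_empty, Finset.prod_empty, pow_zero, mul_one, mul_one]
      refine le_trans ?_ (hD θ S)
      exact Finset.sum_le_sum_of_subset_of_nonneg (Finset.subset_univ _)
        fun ω _ _ => (Real.exp_pos _).le
    | insert j J hj ih =>
      intro θ S hθ hS
      set t : ℝ := b j / (2 * A) with ht
      have hbj := hb j
      have ht0 : 0 ≤ t := by positivity
      have hθj : θ j = 0 := hθ j (Finset.mem_insert_self _ _)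
      have hup : Function.update θ j 0 = θ := by
        rw [← hθj]
        exact Function.update_eq_self j θ
      have hz : ∀ r : ℝ, ∀ i ∈ J, Function.update θ j r i = 0 := by
        intro r i hi
        rw [Function.update_of_ne (by rintro rfl; exact hj hi)]
        exact hθ i (Finset.mem_insert_of_mem hi)
      have h1 : ∀ ω ∈ B1_ev η τ R b sl W (insert j J) ∅, Real.exp (B1_ex τ R sl W θ S ω) ≤
          Real.exp (-(t * b j)) * Real.exp (B1_ex τ R sl W (Function.update θ j t) S ω) +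
          Real.exp (-(t * b j)) * Real.exp (B1_ex τ R sl W (Function.update θ j (-t)) S ω) := by
        intro ω hω
        have h2 := (Finset.mem_filter.1 hω).2.1 j (Finset.mem_insert_self _ _)
        have h3 := B1_abs ht0 h2
        rw [B1_row τ R sl W θ S ω j t, B1_row τ R sl W θ S ω j (-t), hup]
        have h4 := Real.exp_pos (B1_ex τ R sl W θ S ω)
        calc Real.exp (B1_ex τ R sl W θ S ω) = Real.exp (B1_ex τ R sl W θ S ω) * 1 :=
              (mul_one _).symm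
          _ ≤ Real.exp (B1_ex τ R sl W θ S ω) * (Real.exp (t * R j ω - t * b j) +
              Real.exp (-(t * R j ω) - t * b j)) :=
              mul_le_mul_of_nonneg_left h3 h4.le
          _ = _ := by
              rw [mul_add, ← Real.exp_add, ← Real.exp_add, ← Real.exp_add, ← Real.exp_add]
              congr 2 <;> ring
      have hsub : B1_ev η τ R b sl W (insert j J) ∅ ⊆ B1_ev η τ R b sl W J ∅ := by
        intro ω hω
        have h2 := (Finset.mem_filter.1 hω).2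
        exact Finset.mem_filter.2 ⟨Finset.mem_univ _,
          fun i hi => h2.1 i (Finset.mem_insert_of_mem hi), h2.2⟩
      have h5 : ∀ r : ℝ, r ^ 2 = t ^ 2 → ∑ ω ∈ B1_ev η τ R b sl W (insert j J) ∅,
          Real.exp (-(t * b j)) * Real.exp (B1_ex τ R sl W (Function.update θ j r) S ω) ≤
          N * Real.exp (A * ∑ j, θ j ^ 2 + 20 * δ ^ 2 * ∑ s ∈ range τ, ∑ i, S s i ^ 2) *
          ((∏ j ∈ J, 2 * Real.exp (-(b j ^ 2 / (4 * A))))
          * (2 * τ * Real.exp (-(η ^ 2 / (80 * δ ^ 2)))) ^ (∅ : Finset ι).card) *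
            Real.exp (-(b j ^ 2 / (4 * A))) := by
        intro r hr
        rw [← Finset.mul_sum]
        have h6 : ∑ ω ∈ B1_ev η τ R b sl W (insert j J) ∅,
            Real.exp (B1_ex τ R sl W (Function.update θ j r) S ω) ≤ ∑ ω ∈ B1_ev η τ R b sl W J ∅,
            Real.exp (B1_ex τ R sl W (Function.update θ j r) S ω) :=
          Finset.sum_le_sum_of_subset_of_nonneg hsub fun ω _ _ => (Real.exp_pos _).le
        have h7 := h6.trans (ih (Function.update θ j r) S (hz r) hS)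
        have h8 : ∑ i, (θ i) ^ 2 = ∑ i ∈ univ.erase j, (θ i) ^ 2 := by
          rw [← Finset.add_sum_erase univ _ (Finset.mem_univ j), hθj]
          ring
        rw [B1_row_sq, hr, ← h8] at h7
        refine (mul_le_mul_of_nonneg_left h7 (Real.exp_pos _).le).trans (le_of_eq ?_)
        have e : Real.exp (-(t * b j)) * Real.exp (A * (t ^ 2 + ∑ i, θ i ^ 2)
            + 20 * δ ^ 2 * ∑ s ∈ range τ, ∑ i, S s i ^ 2) =
            Real.exp (A * ∑ j, θ j ^ 2
            + 20 * δ ^ 2 * ∑ s ∈ range τ, ∑ i, S s i ^ 2) * Real.exp (-(b j ^ 2 / (4 * A))) := by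
          rw [← Real.exp_add, ← Real.exp_add]
          congr 1
          have e2 : -(t * b j) + A * t ^ 2 = -(b j ^ 2 / (4 * A)) := by
            rw [ht]
            field_simp
            ring
          linear_combination e2
        linear_combination (N *
          ((∏ j ∈ J, 2 * Real.exp (-(b j ^ 2 / (4 * A))))
          * (2 * τ * Real.exp (-(η ^ 2 / (80 * δ ^ 2)))) ^ (∅ : Finset ι).card)) * e
      have h9 := Finset.sum_le_sum h1
      rw [Finset.sum_add_distrib] at h9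
      refine h9.trans ?_
      have h10 := add_le_add (h5 t rfl) (h5 (-t) (by ring))
      refine h10.trans (le_of_eq ?_)
      rw [Finset.prod_insert hj]
      ring
  | insert z Z hz ih =>
    intro J θ S hθ hS
    set l : ℝ := η / (40 * δ ^ 2) with hl
    have hl0 : 0 ≤ l := by positivity
    have hSz : ∀ s, S s z = 0 := hS z (Finset.mem_insert_self _ _)
    have hS' : ∀ (s0 : ℕ) (r : ℝ), ∀ y ∈ Z, ∀ s, B1_S S s0 z r s y = 0 := by
      intro s0 r y hy s
      unfold B1_S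
      have hyz : y ≠ z := by
        rintro rfl
        exact hz hy
      rw [hS y (Finset.mem_insert_of_mem hy) s]
      simp [hyz]
    have h1 : ∀ ω ∈ B1_ev η τ R b sl W J (insert z Z), Real.exp (B1_ex τ R sl W θ S ω) ≤
        ∑ s0 ∈ range τ, (Real.exp (-(l * η)) * Real.exp (B1_ex τ R sl W θ (B1_S S s0 z l) ω) +
          Real.exp (-(l * η)) * Real.exp (B1_ex τ R sl W θ (B1_S S s0 z (-l)) ω)) := by
      intro ω hω
      obtain ⟨s0, hs0, hbig'⟩ := (Finset.mem_filter.1 hω).2.2 z (Finset.mem_insert_self _ _)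
      have h3 := B1_abs hl0 hbig'.2
      have hterm : Real.exp (B1_ex τ R sl W θ S ω) ≤
          Real.exp (-(l * η)) * Real.exp (B1_ex τ R sl W θ (B1_S S s0 z l) ω) +
          Real.exp (-(l * η)) * Real.exp (B1_ex τ R sl W θ (B1_S S s0 z (-l)) ω) := by
        rw [B1_big τ R sl W θ S ω z s0 hs0 l hbig'.1, B1_big τ R sl W θ S ω z s0 hs0 (-l) hbig'.1]
        have h4 := Real.exp_pos (B1_ex τ R sl W θ S ω)
        calc Real.exp (B1_ex τ R sl W θ S ω) = Real.exp (B1_ex τ R sl W θ S ω) * 1 :=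
              (mul_one _).symm
          _ ≤ Real.exp (B1_ex τ R sl W θ S ω) * (Real.exp (l * W s0 z ω - l * η) +
              Real.exp (-(l * W s0 z ω) - l * η)) :=
              mul_le_mul_of_nonneg_left h3 h4.le
          _ = _ := by
              rw [mul_add, ← Real.exp_add, ← Real.exp_add, ← Real.exp_add, ← Real.exp_add]
              congr 2 <;> ring
      refine hterm.trans ?_
      exact Finset.single_le_sum (f := fun s0 =>
        Real.exp (-(l * η)) * Real.exp (B1_ex τ R sl W θ (B1_S S s0 z l) ω) +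
          Real.exp (-(l * η)) * Real.exp (B1_ex τ R sl W θ (B1_S S s0 z (-l)) ω))
        (fun s _ => by positivity) (Finset.mem_range.2 hs0)
    have hsub : B1_ev η τ R b sl W J (insert z Z) ⊆ B1_ev η τ R b sl W J Z := by
      intro ω hω
      have h2 := (Finset.mem_filter.1 hω).2
      exact Finset.mem_filter.2 ⟨Finset.mem_univ _, h2.1,
        fun i hi => h2.2 i (Finset.mem_insert_of_mem hi)⟩
    have h5 : ∀ s0 ∈ range τ, ∀ r : ℝ, r ^ 2 = l ^ 2 → ∑ ω ∈ B1_ev η τ R b sl W J (insert z Z),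
        Real.exp (-(l * η)) * Real.exp (B1_ex τ R sl W θ (B1_S S s0 z r) ω) ≤
        N * Real.exp (A * ∑ j, θ j ^ 2 + 20 * δ ^ 2 * ∑ s ∈ range τ, ∑ i, S s i ^ 2) *
        ((∏ j ∈ J, 2 * Real.exp (-(b j ^ 2 / (4 * A))))
        * (2 * τ * Real.exp (-(η ^ 2 / (80 * δ ^ 2)))) ^ Z.card) *
          Real.exp (-(η ^ 2 / (80 * δ ^ 2))) := by
      intro s0 hs0 r hr
      rw [← Finset.mul_sum]
      have h6 : ∑ ω ∈ B1_ev η τ R b sl W J (insert z Z),
          Real.exp (B1_ex τ R sl W θ (B1_S S s0 z r) ω) ≤ ∑ ω ∈ B1_ev η τ R b sl W J Z,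
          Real.exp (B1_ex τ R sl W θ (B1_S S s0 z r) ω) :=
        Finset.sum_le_sum_of_subset_of_nonneg hsub fun ω _ _ => (Real.exp_pos _).le
      have h7 := h6.trans (ih J θ (B1_S S s0 z r) hθ (hS' s0 r))
      rw [B1_big_sq τ S z hSz s0 (Finset.mem_range.1 hs0) r, hr] at h7
      refine (mul_le_mul_of_nonneg_left h7 (Real.exp_pos _).le).trans (le_of_eq ?_)
      have e : Real.exp (-(l * η)) * Real.exp (A * ∑ i, θ i ^ 2
          + 20 * δ ^ 2 * ((∑ s ∈ range τ, ∑ i, S s i ^ 2) + l ^ 2)) =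
          Real.exp (A * ∑ j, θ j ^ 2
          + 20 * δ ^ 2 * ∑ s ∈ range τ, ∑ i, S s i ^ 2) *
            Real.exp (-(η ^ 2 / (80 * δ ^ 2))) := by
        rw [← Real.exp_add, ← Real.exp_add]
        congr 1
        have e2 : -(l * η) + 20 * δ ^ 2 * l ^ 2 = -(η ^ 2 / (80 * δ ^ 2)) := by
          rw [hl]
          field_simp
          ring
        linear_combination e2
      linear_combination (N *
        ((∏ j ∈ J, 2 * Real.exp (-(b j ^ 2 / (4 * A))))
        * (2 * τ * Real.exp (-(η ^ 2 / (80 * δ ^ 2)))) ^ Z.card)) * e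
    have h9 := Finset.sum_le_sum h1
    rw [Finset.sum_comm] at h9
    refine h9.trans ?_
    have h10 : ∀ s0 ∈ range τ, (∑ ω ∈ B1_ev η τ R b sl W J (insert z Z),
        (Real.exp (-(l * η)) * Real.exp (B1_ex τ R sl W θ (B1_S S s0 z l) ω) +
          Real.exp (-(l * η)) * Real.exp (B1_ex τ R sl W θ (B1_S S s0 z (-l)) ω))) ≤
        2 * (N * Real.exp (A * ∑ j, θ j ^ 2 + 20 * δ ^ 2 * ∑ s ∈ range τ, ∑ i, S s i ^ 2) *
        ((∏ j ∈ J, 2 * Real.exp (-(b j ^ 2 / (4 * A))))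
        * (2 * τ * Real.exp (-(η ^ 2 / (80 * δ ^ 2)))) ^ Z.card) *
          Real.exp (-(η ^ 2 / (80 * δ ^ 2)))) := by
      intro s0 hs0
      rw [Finset.sum_add_distrib, two_mul]
      exact add_le_add (h5 s0 hs0 l rfl) (h5 s0 hs0 (-l) (by ring))
    refine (Finset.sum_le_sum h10).trans (le_of_eq ?_)
    rw [Finset.sum_const, Finset.card_range, nsmul_eq_mul, Finset.card_insert_of_notMem hz, pow_succ]
    ring

end B1

open Classical in
/-- `1[b j ≤ |R j|] ≤ ∑_σ exp (μ σ R_j - μ b_j)`, `μ = b_j/(2A)`, and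
`1[big z] ≤ ∑_{s<τ} ∑_σ exp (Λ σ W_s(z) - Λ η) 1[z ∈ sl s]`, `Λ = η/(40 δ²)`. Expand the products. -/
theorem joint_abs {Ω ι σ : Type*} [Fintype Ω] [Fintype ι] [Fintype σ]
    (N A δ η : ℝ) (hN : 0 ≤ N) (hA : 0 < A) (hδ : 0 < δ) (hη : 0 < η) (τ : ℕ)
    (R : σ → Ω → ℝ) (b : σ → ℝ) (hb : ∀ j, 0 < b j)
    (sl : ℕ → Ω → Finset ι) (W : ℕ → ι → Ω → ℝ)
    (hD : ∀ (θ : σ → ℝ) (S : ℕ → ι → ℝ),
      ∑ ω : Ω, Real.exp (∑ j, θ j * R j ω + ∑ s ∈ range τ, ∑ i ∈ sl s ω, S s i * W s i ω)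
        ≤ N * Real.exp (A * ∑ j, θ j ^ 2 + 20 * δ ^ 2 * ∑ s ∈ range τ, ∑ i, S s i ^ 2))
    (J : Finset σ) (Z : Finset ι) :
    (((univ : Finset Ω).filter (fun ω =>
        (∀ j ∈ J, b j ≤ |R j ω|) ∧ ∀ z ∈ Z, ∃ s < τ, z ∈ sl s ω ∧ η ≤ |W s z ω|)).card : ℝ)
      ≤ N * ((∏ j ∈ J, 2 * Real.exp (-(b j ^ 2 / (4 * A))))
          * (2 * τ * Real.exp (-(η ^ 2 / (80 * δ ^ 2)))) ^ Z.card) := by
  have h1 := B1_main N A δ η hA hδ hη τ R b hb sl W hD Z J (fun _ => 0) (fun _ _ => 0)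
    (fun _ _ => rfl) (fun _ _ _ => rfl)
  have h2 : ∀ ω : Ω, B1_ex τ R sl W (fun _ => 0) (fun _ _ => 0) ω = 0 := by
    intro ω
    unfold B1_ex
    simp
  simp only [h2, Real.exp_zero, Finset.sum_const, nsmul_eq_mul, mul_one] at h1
  simp only [ne_eq, OfNat.ofNat_ne_zero, not_false_eq_true, zero_pow, Finset.sum_const_zero,
    mul_zero, add_zero, Real.exp_zero, mul_one] at h1
  exact h1

end Pool.Agent.LibLev64
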