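import Pool.Agent.LibLev64.Defs

set_option autoImplicit false

/-! Task A1: the weights. -/

open Finset Pool.Agent.LibLoc73

namespace Pool.Agent.LibLev64

theorem M_pos (l : ℕ) : 0 < M l := by
  unfold M
  positivity

theorem M_succ (l : ℕ) : M (l + 1) = 2 * M l := by
  unfold M
  rw [pow_succ]
  ring

theorem X_zero : X 0 = 1 / 4 := by
  unfold X
  rw [zero_add, Finset.sum_range_one]
  unfold M
  norm_num

theorem X_succ (m : ℕ) : X (m + 1) = X m + M (m + 1) ^ 2 := by
  unfold X
  rw [Finset.sum_range_succ]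

theorem X_mono {m n : ℕ} (h : m ≤ n) : X m ≤ X n := by
  unfold X
  apply Finset.sum_le_sum_of_subset_of_nonneg
  · intro l hl
    rw [Finset.mem_range] at hl ⊢
    omega
  · intro l _ _
    positivity

theorem X_pos (m : ℕ) : 0 < X m := by
  have h := X_mono (Nat.zero_le m)
  rw [X_zero] at h
  linarith

theorem X_eq (m : ℕ) : X m = 1 / 4 + ∑ l ∈ range m, M (l + 1) ^ 2 := by
  induction m with
  | zero => rw [X_zero, Finset.sum_range_zero, add_zero]
  | succ m ih => rw [X_succ, ih, Finset.sum_range_succ, add_assoc]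

end Pool.Agent.LibLev64
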