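import Pool.Agent.LibLev64.Main

set_option autoImplicit false

/-! Reduction to matrices with entries in `{0} ∪ [1/k, ep]`, and the Beck-Fiala form. -/

open Finset

namespace Pool.Agent.LibLev64

theorem vec_bound (k : ℕ) (hk : 2 ≤ k) (t ep : ℝ) (hep : 0 < ep) (hep1 : ep ≤ 1) (n d : ℕ)
    (v : Fin n → Fin d → ℝ) (hv : ∀ i, ∑ j, (v i j) ^ 2 ≤ 1)
    (hrow : ∀ j, ∃ S : Finset (Fin n), S.card ≤ k ∧ (∀ i ∈ S, |v i j| ≤ ep) ∧
      ∑ i ∈ Sᶜ, |v i j| ≤ t) :
    ∃ e : Fin n → ℝ, (∀ i, e i = 1 ∨ e i = -1) ∧ ∀ j,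
      |∑ i, e i * v i j| ≤ t + 1402 + 9800 * (ep * Real.log (2 / ep) * √(Real.log k)) := by
  classical
  have hkr : (2 : ℝ) ≤ k := by exact_mod_cast hk
  have hk0 : (0 : ℝ) < k := by linarith
  have hlog0 : 0 ≤ Real.log (2 / ep) := by
    apply Real.log_nonneg
    rw [le_div_iff₀ hep]
    linarith
  choose S hScard hSep hSsum using hrow
  -- truncated vectors
  set w : Fin n → Fin d → ℝ := fun i j => if i ∈ S j ∧ 1 / (k : ℝ) ≤ |v i j| then v i j else 0
    with hw
  have hw1 : ∀ i, ∑ j, (w i j) ^ 2 ≤ 1 := by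
    intro i
    refine le_trans (sum_le_sum fun j _ => ?_) (hv i)
    rw [hw]; simp only
    split_ifs
    · exact le_rfl
    · simpa using sq_nonneg (v i j)
  have hwk : ∀ j, (univ.filter (fun i => w i j ≠ 0)).card ≤ k := by
    intro j
    refine le_trans (card_le_card ?_) (hScard j)
    intro i hi
    have := (mem_filter.1 hi).2
    rw [hw] at this; simp only at this
    by_contra hcon
    apply this
    rw [if_neg (fun h => hcon h.1)]
  have hwc : ∀ i, (univ.filter (fun j => w i j ≠ 0)).card ≤ k ^ 2 := by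
    intro i
    have h1 : ((univ.filter (fun j => w i j ≠ 0)).card : ℝ) * (1 / (k : ℝ)) ^ 2 ≤ 1 := by
      calc ((univ.filter (fun j => w i j ≠ 0)).card : ℝ) * (1 / (k : ℝ)) ^ 2
          = ∑ j ∈ univ.filter (fun j => w i j ≠ 0), (1 / (k : ℝ)) ^ 2 := by simp
        _ ≤ ∑ j ∈ univ.filter (fun j => w i j ≠ 0), (w i j) ^ 2 := by
            apply sum_le_sum
            intro j hj
            have h2 := (mem_filter.1 hj).2
            have h3 : i ∈ S j ∧ 1 / (k : ℝ) ≤ |v i j| := by
              by_contra hcon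
              apply h2
              rw [hw]; simp only
              rw [if_neg hcon]
            have h4 : w i j = v i j := by
              rw [hw]; simp only
              rw [if_pos h3]
            rw [h4, ← sq_abs (v i j)]
            exact pow_le_pow_left₀ (by positivity) h3.2 2
        _ ≤ ∑ j, (w i j) ^ 2 :=
            sum_le_sum_of_subset_of_nonneg (filter_subset _ _) (fun _ _ _ => sq_nonneg _)
        _ ≤ 1 := hw1 i
    have h2 : ((univ.filter (fun j => w i j ≠ 0)).card : ℝ) ≤ (k : ℝ) ^ 2 := by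
      have hk0 : (0 : ℝ) < (k : ℝ) ^ 2 := by positivity
      have h3 : ((univ.filter (fun j => w i j ≠ 0)).card : ℝ)
          = ((univ.filter (fun j => w i j ≠ 0)).card : ℝ) * (1 / (k : ℝ)) ^ 2 * (k : ℝ) ^ 2 := by
        field_simp
      rw [h3]
      nlinarith
    exact_mod_cast h2
  have hwep : ∀ i j, |w i j| ≤ ep := by
    intro i j
    rw [hw]; simp only
    split_ifs with h
    · exact hSep j i h.1
    · simpa using hep.le
  -- the signs
  obtain ⟨x, hx1, hx2⟩ : ∃ x : Fin n → ℝ, (∀ i, |x i| = 1) ∧ ∀ j, |∑ i, w i j * x i|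
      ≤ 1401 + 9800 * (ep * Real.log (2 / ep) * √(Real.log k)) := by
    by_cases hkep : 1 / (k : ℝ) ≤ ep
    · exact main_matrix k hk ep hep1 hkep w hw1 hwk hwc hwep
    · refine ⟨fun _ => 1, fun _ => by simp, fun j => ?_⟩
      have h0 : ∀ i, w i j = 0 := by
        intro i
        rw [hw]; simp only
        rw [if_neg]
        rintro ⟨h1, h2⟩
        exact hkep (h2.trans (hSep j i h1))
      have h1 : ∑ i, w i j * 1 = 0 := sum_eq_zero fun i _ => by rw [h0 i, zero_mul]
      rw [h1, abs_zero]
      positivity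
  refine ⟨x, ?_, ?_⟩
  · intro a
    exact eq_or_eq_neg_of_abs_eq (hx1 a)
  · intro j
    have h1 : |∑ a, x a * w a j|
        ≤ 1401 + 9800 * (ep * Real.log (2 / ep) * √(Real.log k)) := by
      have := hx2 j
      have e : ∑ a, w a j * x a = ∑ a, x a * w a j :=
        sum_congr rfl (fun a _ => by ring)
      rwa [e] at this
    have h2 : |∑ a, x a * (v a j - w a j)| ≤ t + 1 := by
      calc |∑ a, x a * (v a j - w a j)| ≤ ∑ a, |x a * (v a j - w a j)| :=
            abs_sum_le_sum_abs _ _
        _ = ∑ a, |v a j - w a j| := by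
            apply sum_congr rfl
            intro a _
            rw [abs_mul, hx1 a, one_mul]
        _ = ∑ a ∈ S j, |v a j - w a j| + ∑ a ∈ (S j)ᶜ, |v a j - w a j| :=
            (sum_add_sum_compl _ _).symm
        _ ≤ ∑ a ∈ S j, 1 / (k : ℝ) + ∑ a ∈ (S j)ᶜ, |v a j| := by
            apply add_le_add
            · apply sum_le_sum
              intro a ha
              by_cases hb : 1 / (k : ℝ) ≤ |v a j|
              · have : w a j = v a j := by
                  rw [hw]; simp only
                  rw [if_pos ⟨ha, hb⟩]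
                rw [this, sub_self, abs_zero]
                positivity
              · have : w a j = 0 := by
                  rw [hw]; simp only
                  rw [if_neg (fun h => hb h.2)]
                rw [this, sub_zero]
                exact (not_le.1 hb).le
            · apply sum_le_sum
              intro a ha
              have : w a j = 0 := by
                rw [hw]; simp only
                rw [if_neg (fun h => (mem_compl.1 ha) h.1)]
              rw [this, sub_zero]
        _ ≤ 1 + t := by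
            apply add_le_add _ (hSsum j)
            rw [sum_const, nsmul_eq_mul]
            have h3 : ((S j).card : ℝ) ≤ k := by exact_mod_cast hScard j
            have hk0 : (0 : ℝ) < k := by linarith
            rw [mul_one_div, div_le_one hk0]
            exact h3
        _ = t + 1 := by ring
    have h3 : ∑ a, x a * v a j = ∑ a, x a * w a j + ∑ a, x a * (v a j - w a j) := by
      rw [← sum_add_distrib]
      apply sum_congr rfl
      intro a _
      ring
    rw [h3]
    have h5 := abs_add_le (∑ a, x a * w a j) (∑ a, x a * (v a j - w a j))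
    linarith

/-- Beck-Fiala form: sets of size at most `k`, every element in at most `s` sets -/
theorem set_bound (k s : ℕ) (hk : 2 ≤ k) (hs : 1 ≤ s) (m n : ℕ) (A : Fin m → Finset (Fin n))
    (hA : ∀ j, (A j).card ≤ k) (hdeg : ∀ i, (univ.filter (fun j => i ∈ A j)).card ≤ s) :
    ∃ e : Fin n → ℝ, (∀ i, e i = 1 ∨ e i = -1) ∧ ∀ j,
      |∑ i ∈ A j, e i| ≤ 1402 * √s + 9800 * (Real.log (2 * √s) * √(Real.log k)) := by
  classical
  have hs1 : (1 : ℝ) ≤ s := by exact_mod_cast hs
  have hq0 : 0 < √(s : ℝ) := Real.sqrt_pos.2 (by linarith)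
  have hq1 : 1 ≤ √(s : ℝ) := Real.one_le_sqrt.2 hs1
  have hq2 : √(s : ℝ) ^ 2 = s := Real.sq_sqrt (by linarith)
  obtain ⟨e, he1, he2⟩ := vec_bound k hk 0 (1 / √(s : ℝ)) (by positivity)
    (by rw [div_le_one hq0]; exact hq1) n m
    (fun i j => if i ∈ A j then 1 / √(s : ℝ) else 0) (by
      intro i
      have h1 : ∑ j, (if i ∈ A j then 1 / √(s : ℝ) else 0) ^ 2
          = ((univ.filter (fun j => i ∈ A j)).card : ℝ) * (1 / √(s : ℝ)) ^ 2 := by
        rw [← nsmul_eq_mul, ← sum_const, sum_filter]
        apply sum_congr rfl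
        intro j _
        split_ifs <;> simp
      rw [h1, div_pow, hq2, one_pow, mul_one_div, div_le_one (by linarith)]
      exact_mod_cast hdeg i) (by
      intro j
      refine ⟨A j, hA j, ?_, ?_⟩
      · intro i hi
        rw [if_pos hi, abs_of_pos (by positivity)]
      · apply le_of_eq
        apply sum_eq_zero
        intro i hi
        rw [if_neg (mem_compl.1 hi), abs_zero])
  refine ⟨e, he1, ?_⟩
  intro j
  have h1 := he2 j
  have h2 : ∑ i, e i * (if i ∈ A j then 1 / √(s : ℝ) else 0)
      = (∑ i ∈ A j, e i) / √(s : ℝ) := by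
    rw [sum_div, ← sum_filter_add_sum_filter_not univ (fun i => i ∈ A j)]
    rw [sum_eq_zero (s := univ.filter (fun i => i ∉ A j)), add_zero]
    · have : univ.filter (fun i => i ∈ A j) = A j := by ext i; simp
      rw [this]
      apply sum_congr rfl
      intro i hi
      rw [if_pos hi, mul_one_div]
    · intro i hi
      rw [if_neg (mem_filter.1 hi).2, mul_zero]
  rw [h2, abs_div, abs_of_pos hq0, div_le_iff₀ hq0] at h1
  refine h1.trans (le_of_eq ?_)
  have h3 : 2 / (1 / √(s : ℝ)) = 2 * √(s : ℝ) := by rw [div_div_eq_mul_div, div_one]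
  rw [h3]
  field_simp
  ring

/-- the range in which the bound is `O(√s)` -/
theorem regime_num (k s : ℕ) (hk : 2 ≤ k)
    (hs : Real.log k * (1 + Real.log (1 + Real.log k)) ^ 2 ≤ s) :
    1402 * √s + 9800 * (Real.log (2 * √s) * √(Real.log k)) ≤ 16102 * √s := by
  have hkr : (2 : ℝ) ≤ k := by exact_mod_cast hk
  set lam : ℝ := Real.log k with hlam
  have hlam0 : 0 < lam := Real.log_pos (by linarith)
  set g : ℝ := Real.log (1 + lam) with hg
  have hg0 : 0 ≤ g := Real.log_nonneg (by linarith)
  set u : ℝ := √(s : ℝ) with hu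
  set u0 : ℝ := √lam * (1 + g) with hu0
  have hsl : 0 < √lam := Real.sqrt_pos.2 hlam0
  have hsl2 : √lam ^ 2 = lam := Real.sq_sqrt hlam0.le
  have hu00 : 0 < u0 := by positivity
  have huu : u0 ≤ u := by
    rw [hu]
    apply Real.le_sqrt_of_sq_le
    rw [hu0, mul_pow, hsl2]
    exact hs
  have hupos : 0 < u := lt_of_lt_of_le hu00 huu
  have hlog1 : Real.log (2 * u) ≤ Real.log (2 * u0) + (u / u0 - 1) := by
    have h1 : Real.log (2 * u) = Real.log (2 * u0) + Real.log (u / u0) := by
      rw [← Real.log_mul (by positivity) (by positivity)]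
      congr 1
      field_simp
    rw [h1]
    have := Real.log_le_sub_one_of_pos (show 0 < u / u0 by positivity)
    linarith
  have hlog2 : Real.log (2 * u0) ≤ 3 / 2 * (1 + g) := by
    rw [hu0, Real.log_mul (by norm_num) (by positivity), Real.log_mul hsl.ne' (by positivity)]
    have h1 : Real.log (√lam) ≤ g / 2 := by
      rw [Real.log_sqrt hlam0.le, hg]
      have : Real.log lam ≤ Real.log (1 + lam) := Real.log_le_log hlam0 (by linarith)
      linarith
    have h2 : Real.log (1 + g) ≤ g := by
      have := Real.log_le_sub_one_of_pos (show 0 < 1 + g by positivity)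
      linarith
    have h3 := Real.log_two_lt_d9
    linarith
  have h4 : √lam * Real.log (2 * u) ≤ 3 / 2 * u := by
    have h5 : √lam * (u / u0 - 1) ≤ u - u0 := by
      have h6 : u / u0 - 1 = (u - u0) / u0 := by field_simp
      rw [h6, mul_div_assoc', div_le_iff₀ hu00]
      have h7 : √lam ≤ u0 := by
        rw [hu0]
        nlinarith
      nlinarith
    calc √lam * Real.log (2 * u) ≤ √lam * (Real.log (2 * u0) + (u / u0 - 1)) :=
          mul_le_mul_of_nonneg_left hlog1 hsl.le
      _ = √lam * Real.log (2 * u0) + √lam * (u / u0 - 1) := by ring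
      _ ≤ √lam * (3 / 2 * (1 + g)) + (u - u0) :=
          add_le_add (mul_le_mul_of_nonneg_left hlog2 hsl.le) h5
      _ = 3 / 2 * u0 + (u - u0) := by rw [hu0]; ring
      _ ≤ 3 / 2 * u := by linarith
  have h8 : Real.log (2 * u) * √lam = √lam * Real.log (2 * u) := mul_comm _ _
  rw [h8]
  linarith

/-- both sizes and degrees at most `s`: discrepancy `O(√s)` -/
theorem sparse_bound (s : ℕ) (m n : ℕ) (A : Fin m → Finset (Fin n))
    (hA : ∀ j, (A j).card ≤ s) (hdeg : ∀ i, (univ.filter (fun j => i ∈ A j)).card ≤ s) :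
    ∃ e : Fin n → ℝ, (∀ i, e i = 1 ∨ e i = -1) ∧ ∀ j, |∑ i ∈ A j, e i| ≤ 21002 * √s := by
  classical
  rcases Nat.lt_or_ge s 2 with hs | hs
  · refine ⟨fun _ => 1, fun _ => Or.inl rfl, fun j => ?_⟩
    have h1 : |∑ i ∈ A j, (1 : ℝ)| = (A j).card := by simp
    rw [h1]
    interval_cases s
    · have := hA j
      have h2 : (A j).card = 0 := by omega
      simp [h2]
    · have h2 : ((A j).card : ℝ) ≤ 1 := by exact_mod_cast hA j
      have h3 : √((1 : ℕ) : ℝ) = 1 := by simp
      rw [h3]
      linarith
  · obtain ⟨e, he1, he2⟩ := set_bound s s hs (by omega) m n A hA hdeg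
    refine ⟨e, he1, fun j => (he2 j).trans ?_⟩
    have hsr : (2 : ℝ) ≤ s := by exact_mod_cast hs
    have hs0 : (0 : ℝ) < s := by linarith
    set L : ℝ := Real.log s with hL
    have hL0 : 0 ≤ L := Real.log_nonneg (by linarith)
    have hq : √(s : ℝ) = Real.exp (L / 2) := by
      rw [Real.sqrt_eq_rpow, Real.rpow_def_of_pos hs0, hL]
      congr 1
      ring
    have hlog : Real.log (2 * √(s : ℝ)) = Real.log 2 + L / 2 := by
      rw [Real.log_mul (by norm_num) (Real.sqrt_pos.2 hs0).ne', hq, Real.log_exp]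
    have hlog2 : Real.log 2 ≤ 0.7 := by
      have := Real.log_two_lt_d9
      linarith
    have hlog2' : 0 ≤ Real.log 2 := Real.log_nonneg (by norm_num)
    have hsq : √L ≤ (1 + L) / 2 := by
      have h1 : √L ^ 2 = L := Real.sq_sqrt hL0
      nlinarith [sq_nonneg (√L - 1)]
    have hexp : 1 + L / 2 + (L / 2) ^ 2 / 2 ≤ Real.exp (L / 2) :=
      Real.quadratic_le_exp_of_nonneg (by positivity)
    have h5 : (Real.log 2 + L / 2) * √L ≤ (0.7 + L / 2) * ((1 + L) / 2) := by
      apply mul_le_mul _ hsq (Real.sqrt_nonneg _) (by positivity)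
      linarith
    rw [hlog, hq]
    nlinarith [sq_nonneg L]

end Pool.Agent.LibLev64
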