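import Pool.Agent.LibLev64.K2

set_option autoImplicit false

/-! Task K3: numerical inequalities, part 3. Cite A1, K2. -/

open Finset Pool.Agent.LibLoc73

namespace Pool.Agent.LibLev64

private theorem K3_bern (l : ℕ) : 1 + 5 / 4 * (l : ℝ) ≤ (9 / 4 : ℝ) ^ l := by
  have h := one_add_mul_le_pow (a := (5 / 4 : ℝ)) (by norm_num) l
  have e : (1 + 5 / 4 : ℝ) = 9 / 4 := by norm_num
  rw [e] at h
  linarith

private theorem K3_exp (n : ℕ) : (2.7 : ℝ) ^ n ≤ Real.exp n := by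
  have h1 : (2.7 : ℝ) ≤ Real.exp 1 := by
    have := Real.exp_one_gt_d9
    linarith
  calc (2.7 : ℝ) ^ n ≤ (Real.exp 1) ^ n := pow_le_pow_left₀ (by norm_num) h1 n
    _ = Real.exp n := by rw [← Real.exp_nat_mul, mul_one]

private theorem K3_term (k : ℕ) (ep : ℝ) (hep : 0 ≤ ep) (l : ℕ) :
    8 * M l ^ 2 * Real.exp (-(M l ^ 2 * thr k ep l ^ 2 / 1620)) ≤ 1 / 8 * (1 / 2) ^ l := by
  have h1 : 162 * (3 / 4 : ℝ) ^ l ≤ thr k ep l := by
    unfold thr
    have : 0 ≤ 1620 * ep * √(Real.log k) := by positivity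
    linarith
  have h2 := pow_le_pow_left₀ (by positivity) h1 2
  have h3 : 81 / 20 * (9 / 4 : ℝ) ^ l ≤ M l ^ 2 * thr k ep l ^ 2 / 1620 := by
    rw [le_div_iff₀ (by norm_num)]
    have h4 : M l ^ 2 * (162 * (3 / 4 : ℝ) ^ l) ^ 2 ≤ M l ^ 2 * thr k ep l ^ 2 :=
      mul_le_mul_of_nonneg_left h2 (by positivity)
    have h5 : M l ^ 2 * (162 * (3 / 4 : ℝ) ^ l) ^ 2 = 6561 * (9 / 4 : ℝ) ^ l := by
      unfold M
      have e : (9 / 4 : ℝ) ^ l = (2 ^ l) ^ 2 * ((3 / 4) ^ l) ^ 2 := by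
        rw [← pow_mul, ← pow_mul, mul_comm l 2, pow_mul, pow_mul, ← mul_pow]
        norm_num
      rw [e]
      ring
    linarith
  have h6 : 8 * M l ^ 2 = 2 * 4 ^ l := by
    unfold M
    have e : (4 : ℝ) ^ l = (2 ^ l) ^ 2 := by
      rw [← pow_mul, mul_comm l 2, pow_mul]
      norm_num
    rw [e]
    ring
  have h7 : Real.exp (-(M l ^ 2 * thr k ep l ^ 2 / 1620)) ≤
      Real.exp (-4) * Real.exp (-5) ^ l := by
    rw [← Real.exp_nat_mul, ← Real.exp_add]
    apply Real.exp_le_exp.2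
    have := K3_bern l
    have hl : (0 : ℝ) ≤ l := Nat.cast_nonneg l
    linarith
  have e4 : Real.exp (-4) ≤ 1 / 16 := by
    rw [Real.exp_neg, inv_eq_one_div]
    apply one_div_le_one_div_of_le (by norm_num)
    have h8 := K3_exp 4
    have h9 : Real.exp ((4 : ℕ) : ℝ) = Real.exp 4 := by norm_num
    rw [h9] at h8
    refine le_trans ?_ h8
    norm_num
  have e5 : Real.exp (-5) ≤ 1 / 8 := by
    rw [Real.exp_neg, inv_eq_one_div]
    apply one_div_le_one_div_of_le (by norm_num)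
    have h8 := K3_exp 5
    have h9 : Real.exp ((5 : ℕ) : ℝ) = Real.exp 5 := by norm_num
    rw [h9] at h8
    refine le_trans ?_ h8
    norm_num
  rw [h6]
  calc 2 * 4 ^ l * Real.exp (-(M l ^ 2 * thr k ep l ^ 2 / 1620))
      ≤ 2 * 4 ^ l * (1 / 16 * (1 / 8) ^ l) := by
        apply mul_le_mul_of_nonneg_left _ (by positivity)
        refine h7.trans ?_
        gcongr
    _ = 1 / 8 * (4 * (1 / 8)) ^ l := by rw [mul_pow]; ring
    _ = 1 / 8 * (1 / 2) ^ l := by norm_num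

/-- `M_l² thr_l² / 1620 ≥ (81/20) (9/4)^l`, `8 M_l² = 2 · 4^l`; with `(9/4)^l ≥ 1 + 5l/4` the sum is at most
`2 e^{-81/20} ∑ (4 e^{-81/16})^l ≤ 1/4` -/
theorem num_sum2 (k : ℕ) (ep : ℝ) (hep : 0 ≤ ep) (H : ℕ) :
    ∑ l ∈ range H, 8 * M l ^ 2 * Real.exp (-(M l ^ 2 * thr k ep l ^ 2 / 1620)) ≤ 1 / 4 := by
  calc ∑ l ∈ range H, 8 * M l ^ 2 * Real.exp (-(M l ^ 2 * thr k ep l ^ 2 / 1620))
      ≤ ∑ l ∈ range H, 1 / 8 * (1 / 2 : ℝ) ^ l := Finset.sum_le_sum fun l _ => K3_term k ep hep l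
    _ = 1 / 8 * ∑ l ∈ range H, (1 / 2 : ℝ) ^ l := by rw [Finset.mul_sum]
    _ ≤ 1 / 8 * 2 := by
        apply mul_le_mul_of_nonneg_left _ (by norm_num)
        rw [geom_sum_eq (by norm_num)]
        have : (0 : ℝ) ≤ (1 / 2) ^ H := by positivity
        rw [div_le_iff_of_neg (by norm_num)]
        linarith
    _ = 1 / 4 := by norm_num

/-- `H = ⌈log₂ (1/ep)⌉` -/
theorem exists_H (k : ℕ) (hk : 2 ≤ k) (ep : ℝ) (hep1 : ep ≤ 1) (hkep : 1 / (k : ℝ) ≤ ep) :
    ∃ H : ℕ, 1 / ep ≤ 2 ^ H ∧ (H : ℝ) + 1 ≤ 3 * Real.log (2 / ep) ∧ H + 1 ≤ k ^ 2 := by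
  have hk' : (2 : ℝ) ≤ k := by exact_mod_cast hk
  have hk0 : (0 : ℝ) < k := by linarith
  have hep : 0 < ep := lt_of_lt_of_le (by positivity) hkep
  have hex : ∃ H : ℕ, 1 / ep ≤ 2 ^ H := by
    obtain ⟨n, hn⟩ := pow_unbounded_of_one_lt (1 / ep) (by norm_num : (1 : ℝ) < 2)
    exact ⟨n, hn.le⟩
  classical
  have hl2 := Real.log_two_gt_d9
  have hl2' := Real.log_two_lt_d9
  have hinv : 1 ≤ 1 / ep := by
    rw [le_div_iff₀ hep]
    linarith
  have hx : 0 ≤ Real.log (1 / ep) := Real.log_nonneg hinv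
  have hlog : Real.log (2 / ep) = Real.log 2 + Real.log (1 / ep) := by
    rw [← Real.log_mul (by norm_num) (by positivity)]
    congr 1
    ring
  refine ⟨Nat.find hex, Nat.find_spec hex, ?_, ?_⟩
  · rcases Nat.eq_zero_or_pos (Nat.find hex) with h0 | h0
    · rw [h0, hlog, Nat.cast_zero]
      linarith
    · have h1 := Nat.find_min hex (Nat.sub_one_lt h0.ne')
      push Not at h1
      have h2 : ((Nat.find hex - 1 : ℕ) : ℝ) * Real.log 2 < Real.log (1 / ep) := by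
        rw [← Real.log_pow]
        exact Real.log_lt_log (by positivity) h1
      have h3 : ((Nat.find hex - 1 : ℕ) : ℝ) = (Nat.find hex : ℝ) - 1 := by
        rw [Nat.cast_sub h0]
        norm_num
      rw [h3] at h2
      rw [hlog]
      nlinarith
  · rcases Nat.eq_zero_or_pos (Nat.find hex) with h0 | h0
    · rw [h0]
      have : 0 < k ^ 2 := by positivity
      omega
    · have h1 := Nat.find_min hex (Nat.sub_one_lt h0.ne')
      push Not at h1
      have h2 : (1 : ℝ) / ep ≤ k := by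
        rw [div_le_iff₀ hep]
        rw [div_le_iff₀ hk0] at hkep
        linarith
      have h3 : (2 : ℝ) ^ (Nat.find hex - 1) < k := lt_of_lt_of_le h1 h2
      have h4 : 2 ^ (Nat.find hex - 1) < k := by exact_mod_cast h3
      have h5 : Nat.find hex - 1 < 2 ^ (Nat.find hex - 1) := Nat.lt_two_pow_self
      have h6 : Nat.find hex ≤ k := by omega
      have h7 : k + 1 ≤ k ^ 2 := by nlinarith
      omega

/-- `∑ 162 (3/4)^l ≤ 648`, `ep log (2/ep) ≤ 1`, `log (2k) / k ≤ 7/10` -/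
theorem num_fin2 (k : ℕ) (hk : 2 ≤ k) (ep : ℝ) (hep1 : ep ≤ 1) (hkep : 1 / (k : ℝ) ≤ ep)
    (H : ℕ) (hH : (H : ℝ) + 1 ≤ 3 * Real.log (2 / ep)) :
    ∑ l ∈ range (H + 1), (thr k ep l + 4 * ep + 2 * k * (1 / (k : ℝ) ^ 2))
        + 2 * k * (1 / (k : ℝ) ^ 2)
      ≤ 700 + 4900 * (ep * Real.log (2 / ep) * √(Real.log k)) := by
  have hk' : (2 : ℝ) ≤ k := by exact_mod_cast hk
  have hk0 : (0 : ℝ) < k := by linarith
  have hep : 0 < ep := lt_of_lt_of_le (by positivity) hkep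
  have hl2' := Real.log_two_lt_d9
  have hinv : 1 ≤ 1 / ep := by
    rw [le_div_iff₀ hep]
    linarith
  have hlog : Real.log (2 / ep) = Real.log 2 + Real.log (1 / ep) := by
    rw [← Real.log_mul (by norm_num) (by positivity)]
    congr 1
    ring
  have hL0 : 0 ≤ Real.log (2 / ep) := by
    have : (0 : ℝ) ≤ H := Nat.cast_nonneg H
    linarith
  set S : ℝ := √(Real.log k) with hS
  have hS0 : 0 ≤ S := Real.sqrt_nonneg _
  set L : ℝ := Real.log (2 / ep) with hL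
  have e0 : 2 * (k : ℝ) * (1 / (k : ℝ) ^ 2) = 2 / k := by
    field_simp
  -- the sum
  have e1 : ∑ l ∈ range (H + 1), (thr k ep l + 4 * ep + 2 * k * (1 / (k : ℝ) ^ 2))
      = 162 * ∑ l ∈ range (H + 1), (3 / 4 : ℝ) ^ l
        + ((H : ℝ) + 1) * (1620 * ep * S + 4 * ep + 2 / k) := by
    rw [e0]
    unfold thr
    rw [Finset.mul_sum]
    have : ∀ l, (162 * (3 / 4 : ℝ) ^ l + 1620 * ep * √(Real.log k) + 4 * ep + 2 / (k : ℝ))
        = 162 * (3 / 4 : ℝ) ^ l + (1620 * ep * S + 4 * ep + 2 / k) := by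
      intro l
      rw [← hS]
      ring
    simp only [this]
    rw [Finset.sum_add_distrib, Finset.sum_const, card_range, nsmul_eq_mul]
    push_cast
    ring
  have e2 : ∑ l ∈ range (H + 1), (3 / 4 : ℝ) ^ l ≤ 4 := by
    rw [geom_sum_eq (by norm_num)]
    have : (0 : ℝ) ≤ (3 / 4) ^ (H + 1) := by positivity
    rw [div_le_iff_of_neg (by norm_num)]
    linarith
  have e3 : ep * L ≤ 1 := by
    have h1 : Real.log (1 / ep) ≤ 1 / ep - 1 := Real.log_le_sub_one_of_pos (by positivity)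
    have h2 : L ≤ 1 / ep - 3 / 10 := by
      rw [hlog]
      linarith
    calc ep * L ≤ ep * (1 / ep - 3 / 10) := mul_le_mul_of_nonneg_left h2 hep.le
      _ = 1 - 3 / 10 * ep := by field_simp
      _ ≤ 1 := by linarith
  have e4 : L / k ≤ 7 / 10 := by
    rw [div_le_iff₀ hk0]
    have h1 : L ≤ Real.log (2 * k) := by
      apply Real.log_le_log (by positivity)
      rw [div_le_iff₀ hep]
      rw [div_le_iff₀ hk0] at hkep
      nlinarith
    have h2 : Real.log (2 * k) = 2 * Real.log 2 + Real.log (k / 2) := by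
      have : (2 : ℝ) * k = 2 * 2 * (k / 2) := by ring
      rw [this, Real.log_mul (by norm_num) (by positivity), Real.log_mul (by norm_num) (by norm_num)]
      ring
    have h3 : Real.log ((k : ℝ) / 2) ≤ k / 2 - 1 := Real.log_le_sub_one_of_pos (by positivity)
    linarith
  have e5 : ((H : ℝ) + 1) * (1620 * ep * S + 4 * ep + 2 / k)
      ≤ 3 * L * (1620 * ep * S + 4 * ep + 2 / k) :=
    mul_le_mul_of_nonneg_right hH (by positivity)
  have e6 : 3 * L * (1620 * ep * S + 4 * ep + 2 / k)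
      = 4860 * (ep * L * S) + 12 * (ep * L) + 6 * (L / k) := by
    field_simp
    ring
  have e7 : (2 : ℝ) / k ≤ 1 := by
    rw [div_le_one hk0]
    exact hk'
  have e8 : 0 ≤ ep * L * S := by positivity
  rw [e1, e0]
  linarith

end Pool.Agent.LibLev64
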