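import Mathlib

set_option autoImplicit false

/-! Task B3: Chernoff bound for weighted numbers of events with product bounds, abstract version. -/

open Finset

namespace Pool.Agent.LibLev64

open Classical in
/-- pointwise bound of the indicator -/
theorem B3_point {β γ : Type*} (F : Prop) (A : β → Prop)
    (G : Finset γ) (Ig : γ → Finset β)
    (w : γ → β → ℝ) (hw : ∀ g b, 0 ≤ w g b) (lam β0 : ℝ) (hlam : 0 ≤ lam) :
    (if (F ∧ ∀ g ∈ G, β0 ≤ ∑ b ∈ Ig g, if A b then w g b else 0) then (1 : ℝ) else 0) ≤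
      (if F then (1 : ℝ) else 0) * ∏ g ∈ G, (Real.exp (-(lam * β0))
          * ∏ b ∈ Ig g, (1 + (Real.exp (lam * w g b) - 1) * (if A b then (1 : ℝ) else 0))) := by
  have e1 : ∀ g, Real.exp (-(lam * β0))
          * ∏ b ∈ Ig g, (1 + (Real.exp (lam * w g b) - 1) * (if A b then (1 : ℝ) else 0)) =
      Real.exp (lam * ((∑ b ∈ Ig g, if A b then w g b else 0) - β0)) := by
    intro g
    have e2 : ∏ b ∈ Ig g, (1 + (Real.exp (lam * w g b) - 1) * (if A b then (1 : ℝ) else 0)) =
        Real.exp (lam * ∑ b ∈ Ig g, if A b then w g b else 0) := by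
      rw [Finset.mul_sum, Real.exp_sum]
      refine Finset.prod_congr rfl (fun b _ => ?_)
      by_cases h : A b
      · rw [if_pos h, if_pos h]; ring
      · rw [if_neg h, if_neg h]; simp
    rw [e2, ← Real.exp_add]
    congr 1; ring
  simp only [e1]
  by_cases h : F ∧ ∀ g ∈ G, β0 ≤ ∑ b ∈ Ig g, if A b then w g b else 0
  · rw [if_pos h, if_pos h.1, one_mul]
    have : (∏ g ∈ G, (1 : ℝ)) ≤
        ∏ g ∈ G, Real.exp (lam * ((∑ b ∈ Ig g, if A b then w g b else 0) - β0)) := by
      refine Finset.prod_le_prod (fun _ _ => zero_le_one) (fun g hg => ?_)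
      rw [← Real.exp_zero]
      exact Real.exp_le_exp.2 (mul_nonneg hlam (sub_nonneg.2 (h.2 g hg)))
    rwa [Finset.prod_const_one] at this
  · rw [if_neg h]
    refine mul_nonneg (by split_ifs <;> norm_num) (Finset.prod_nonneg (fun g _ => ?_))
    exact (Real.exp_pos _).le

open Classical in
/-- `1[F and all the sums ≥ β0] ≤ 1_F ∏_{g ∈ G} e^{-lam β0} ∏_{b ∈ Ig g} (1 + (e^{lam w} - 1) 1_{A b})`; the
product over the disjoint union of the `Ig g` is expanded over subsets
(`Finset.prod_one_add` or `Finset.prod_add`), then `h`. -/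
theorem chernoff_abs {Ω β γ : Type*} [Fintype Ω] (F : Ω → Prop) (A : β → Ω → Prop)
    (q : β → ℝ) (hq : ∀ b, 0 ≤ q b) (c0 : ℝ) (Idx : Finset β)
    (h : ∀ S ⊆ Idx, (((univ : Finset Ω).filter (fun ω => F ω ∧ ∀ b ∈ S, A b ω)).card : ℝ)
      ≤ c0 * ∏ b ∈ S, q b)
    (G : Finset γ) (Ig : γ → Finset β) (hsub : ∀ g ∈ G, Ig g ⊆ Idx)
    (hdisj : ∀ g ∈ G, ∀ g' ∈ G, g ≠ g' → Disjoint (Ig g) (Ig g'))
    (w : γ → β → ℝ) (hw : ∀ g b, 0 ≤ w g b) (lam β0 : ℝ) (hlam : 0 ≤ lam) :
    (((univ : Finset Ω).filter (fun ω => F ω ∧ ∀ g ∈ G,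
        β0 ≤ ∑ b ∈ Ig g, if A b ω then w g b else 0)).card : ℝ)
      ≤ c0 * ∏ g ∈ G, (Real.exp (-(lam * β0))
          * ∏ b ∈ Ig g, (1 + (Real.exp (lam * w g b) - 1) * q b)) := by
  set v : (Σ _ : γ, β) → ℝ := fun p => Real.exp (lam * w p.1 p.2) - 1 with hv
  have hv0 : ∀ p, 0 ≤ v p := fun p => by
    rw [hv]
    have : Real.exp 0 ≤ Real.exp (lam * w p.1 p.2) :=
      Real.exp_le_exp.2 (mul_nonneg hlam (hw _ _))
    rw [Real.exp_zero] at this
    simpa using this
  set E : ℝ := ∏ g ∈ G, Real.exp (-(lam * β0)) with hE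
  have hE0 : 0 ≤ E := Finset.prod_nonneg (fun _ _ => (Real.exp_pos _).le)
  set U := G.sigma Ig with hU
  -- injectivity of the second coordinate
  have hinj : ∀ T ⊆ U, Set.InjOn (fun p : (Σ _ : γ, β) => p.2) (T : Set (Σ _ : γ, β)) := by
    rintro T hT ⟨g, b⟩ hp ⟨g', b'⟩ hp' heq
    have h1 := Finset.mem_sigma.1 (hT hp)
    have h2 := Finset.mem_sigma.1 (hT hp')
    simp only at heq h1 h2
    subst heq
    by_cases hgg : g = g'
    · rw [hgg]
    · exact (Finset.disjoint_left.1 (hdisj g h1.1 g' h2.1 hgg) h1.2 h2.2).elim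
  have hexp : ∀ x : β → ℝ, ∏ g ∈ G, (Real.exp (-(lam * β0))
      * ∏ b ∈ Ig g, (1 + (Real.exp (lam * w g b) - 1) * x b)) =
      E * ∑ T ∈ U.powerset, ∏ p ∈ T, (v p * x p.2) := by
    intro x
    rw [Finset.prod_mul_distrib, ← Finset.prod_one_add, hU, Finset.prod_sigma]
  have hcount : (((univ : Finset Ω).filter (fun ω => F ω ∧ ∀ g ∈ G,
        β0 ≤ ∑ b ∈ Ig g, if A b ω then w g b else 0)).card : ℝ) =
      ∑ ω : Ω, (if (F ω ∧ ∀ g ∈ G, β0 ≤ ∑ b ∈ Ig g, if A b ω then w g b else 0)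
        then (1 : ℝ) else 0) := by
    rw [Finset.card_filter]
    push_cast
    rfl
  rw [hcount, hexp]
  calc ∑ ω : Ω, (if (F ω ∧ ∀ g ∈ G, β0 ≤ ∑ b ∈ Ig g, if A b ω then w g b else 0)
        then (1 : ℝ) else 0)
      ≤ ∑ ω : Ω, (if F ω then (1 : ℝ) else 0) * ∏ g ∈ G, (Real.exp (-(lam * β0))
          * ∏ b ∈ Ig g, (1 + (Real.exp (lam * w g b) - 1) *
            (if A b ω then (1 : ℝ) else 0))) :=
        Finset.sum_le_sum (fun ω _ =>
          B3_point (F ω) (fun b => A b ω) G Ig w hw lam β0 hlam)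
    _ = ∑ ω : Ω, (if F ω then (1 : ℝ) else 0) *
          (E * ∑ T ∈ U.powerset, ∏ p ∈ T, (v p * (if A p.2 ω then (1 : ℝ) else 0))) := by
        refine Finset.sum_congr rfl (fun ω _ => ?_)
        rw [hexp (fun b => if A b ω then (1 : ℝ) else 0)]
    _ = E * ∑ T ∈ U.powerset, (∏ p ∈ T, v p) *
          ∑ ω : Ω, (if F ω then (1 : ℝ) else 0) * ∏ p ∈ T, (if A p.2 ω then (1 : ℝ) else 0) := by
        simp only [Finset.mul_sum]
        rw [Finset.sum_comm]
        refine Finset.sum_congr rfl (fun T _ => Finset.sum_congr rfl (fun ω _ => ?_))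
        rw [Finset.prod_mul_distrib]
        ring
    _ ≤ E * ∑ T ∈ U.powerset, (∏ p ∈ T, v p) * (c0 * ∏ p ∈ T, q p.2) := by
        refine mul_le_mul_of_nonneg_left (Finset.sum_le_sum (fun T hT => ?_)) hE0
        rw [Finset.mem_powerset] at hT
        refine mul_le_mul_of_nonneg_left ?_ (Finset.prod_nonneg (fun p _ => hv0 p))
        have hS : T.image (fun p : (Σ _ : γ, β) => p.2) ⊆ Idx := by
          intro b hb
          obtain ⟨p, hp, rfl⟩ := Finset.mem_image.1 hb
          have h1 := Finset.mem_sigma.1 (hT hp)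
          exact hsub p.1 h1.1 h1.2
        have h1 := h _ hS
        rw [Finset.prod_image (hinj T hT)] at h1
        refine le_trans (le_of_eq ?_) h1
        rw [Finset.card_filter]
        push_cast
        refine Finset.sum_congr rfl (fun ω _ => ?_)
        by_cases hF : F ω
        · rw [if_pos hF, one_mul]
          by_cases hA : ∀ p ∈ T, A p.2 ω
          · rw [if_pos]
            · exact Finset.prod_eq_one (fun p hp => if_pos (hA p hp))
            · refine ⟨hF, fun b hb => ?_⟩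
              obtain ⟨p, hp, rfl⟩ := Finset.mem_image.1 hb
              exact hA p hp
          · rw [if_neg]
            · push Not at hA
              obtain ⟨p, hp, hpA⟩ := hA
              exact Finset.prod_eq_zero hp (if_neg hpA)
            · rintro ⟨-, hcon⟩
              exact hA (fun p hp => hcon p.2 (Finset.mem_image_of_mem _ hp))
        · rw [if_neg hF, zero_mul, if_neg]
          rintro ⟨hcon, -⟩
          exact hF hcon
    _ = c0 * (E * ∑ T ∈ U.powerset, ∏ p ∈ T, (v p * q p.2)) := by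
        simp only [Finset.mul_sum]
        refine Finset.sum_congr rfl (fun T _ => ?_)
        rw [Finset.prod_mul_distrib]
        ring

end Pool.Agent.LibLev64
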