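import Pool.Agent.LibLev64.B2
import Pool.Agent.LibLev64.B3
import Pool.Agent.LibLoc73.F1

set_option autoImplicit false

/-! Task B4: joint probability of top rows, big steps and exceeded budgets. Cite B2, B3,
`LibLoc73.mem_nb_of_row`. -/

open Finset Pool.Agent.LibLoc73

namespace Pool.Agent.LibLev64

variable {ι κ : Type*} [Fintype ι] [Fintype κ] [DecidableEq ι]

open Classical in
/-- the pairs seen by `i` -/
noncomputable def B4_Ig (P : LPar ι κ) (i : ι) : Finset (κ × Fin (P.H + 1)) :=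
  univ.filter (fun jl => P.a i jl.1 ≠ 0 ∧ (jl.2 : ℕ) < P.H)

theorem B4_prod (P : LPar ι κ) (i : ι) (f : κ → ℕ → ℝ) (hf : ∀ j l, P.a i j = 0 → f j l = 1) :
    ∏ jl ∈ B4_Ig P i, f jl.1 jl.2 = ∏ j, ∏ l ∈ range P.H, f j l := by
  classical
  unfold B4_Ig
  rw [Finset.prod_filter, Fintype.prod_prod_type]
  refine Finset.prod_congr rfl (fun j _ => ?_)
  have h1 := Fin.prod_univ_eq_prod_range
    (fun l => if (P.a i j ≠ 0 ∧ l < P.H) then f j l else 1) (P.H + 1)
  refine Eq.trans ?_ (h1.trans ?_)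
  · refine Finset.prod_congr rfl (fun l _ => ?_)
    congr
  · rw [Finset.prod_range_succ, if_neg (fun h => lt_irrefl _ h.2), mul_one]
    refine Finset.prod_congr rfl (fun l hl => ?_)
    rw [Finset.mem_range] at hl
    by_cases h : P.a i j = 0
    · rw [if_neg (fun h2 => h2.1 h), hf j l h]
    · rw [if_pos ⟨h, hl⟩]

theorem B4_sum (P : LPar ι κ) (i : ι) (f : κ → ℕ → ℝ) (hf : ∀ j l, P.a i j = 0 → f j l = 0) :
    ∑ jl ∈ B4_Ig P i, f jl.1 jl.2 = ∑ j, ∑ l ∈ range P.H, f j l := by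
  classical
  unfold B4_Ig
  rw [Finset.sum_filter, Fintype.sum_prod_type]
  refine Finset.sum_congr rfl (fun j _ => ?_)
  have h1 := Fin.sum_univ_eq_sum_range
    (fun l => if (P.a i j ≠ 0 ∧ l < P.H) then f j l else 0) (P.H + 1)
  refine Eq.trans ?_ (h1.trans ?_)
  · refine Finset.sum_congr rfl (fun l _ => ?_)
    congr
  · rw [Finset.sum_range_succ, if_neg (fun h => lt_irrefl _ h.2), add_zero]
    refine Finset.sum_congr rfl (fun l hl => ?_)
    rw [Finset.mem_range] at hl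
    by_cases h : P.a i j = 0
    · rw [if_neg (fun h2 => h2.1 h), hf j l h]
    · rw [if_pos ⟨h, hl⟩]

/-- membership in a filter, for any decidability instance -/
theorem B4_mem {α : Type*} [Fintype α] {p : α → Prop} {inst : DecidablePred p} {a : α} :
    a ∈ @Finset.filter α p inst univ ↔ p a := by
  rw [Finset.mem_filter]
  exact ⟨fun h => h.2, fun h => ⟨Finset.mem_univ _, h⟩⟩

/-- the event of the top rows and big steps -/
def B4_F (P : LPar ι κ) (τ : ℕ) (J : Finset κ) (Z : Finset ι) (ω : Fin τ → ι → Bool) : Prop :=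
  (∀ j ∈ J, P.Up (ext τ ω) τ j P.H) ∧ ∀ z ∈ Z, P.IsBig (ext τ ω) τ z

open Classical in
/-- `chernoff_abs` with `F ω` = (top rows `J` and big steps `Z`), events `Up j l` indexed by
`(j, l) : κ × Fin (H+1)` with `l < H`, `Ig i = {(j,l) : a_ij ≠ 0, l < H}` (disjoint for non-neighbours),
weights `a_ij² M_{l+1}²`, `β0 = 3/4`, and `joint_tail` for `S ∪ {(j,H) : j ∈ J}` (a disjoint union). -/
theorem bud_joint (P : LPar ι κ) (k : ℕ) (hP : P.Ok k) (τ : ℕ)
    (hr : 20 * P.δ ^ 2 * τ * (1 - 1 / P.Lc) ^ P.r ≤ 1)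
    (J : Finset κ) (Z I : Finset ι)
    (hI : ∀ z ∈ I, ∀ z' ∈ I, z ≠ z' → z' ∉ P.toPar.nb z) (lam : ℝ) (hlam : 0 ≤ lam) :
    (((univ : Finset (Fin τ → ι → Bool)).filter (fun ω =>
        (∀ j ∈ J, P.Up (ext τ ω) τ j P.H) ∧ (∀ z ∈ Z, P.IsBig (ext τ ω) τ z)
          ∧ ∀ z ∈ I, P.Bud (ext τ ω) τ z)).card : ℝ)
      ≤ (2 ^ Fintype.card ι) ^ τ * (P.qq P.H ^ J.card
          * (2 * τ * Real.exp (-(P.η ^ 2 / (80 * P.δ ^ 2)))) ^ Z.card
          * ∏ i ∈ I, (Real.exp (-(lam * (3 / 4))) * ∏ j, ∏ l ∈ range P.H,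
              (1 + (Real.exp (lam * (P.a i j ^ 2 * M (l + 1) ^ 2)) - 1) * P.qq l))) := by
  set Idx : Finset (κ × Fin (P.H + 1)) := univ.filter (fun jl => (jl.2 : ℕ) < P.H) with hIdx
  set c0 : ℝ := (2 ^ Fintype.card ι) ^ τ * (P.qq P.H ^ J.card
          * (2 * τ * Real.exp (-(P.η ^ 2 / (80 * P.δ ^ 2)))) ^ Z.card) with hc0
  have hq0 : ∀ l, 0 ≤ P.qq l := fun l => by unfold LPar.qq; positivity
  have hmain := chernoff_abs (Ω := Fin τ → ι → Bool)
    (fun ω => B4_F P τ J Z ω)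
    (fun (b : κ × Fin (P.H + 1)) ω => P.Up (ext τ ω) τ b.1 b.2)
    (fun b => P.qq b.2) (fun b => hq0 _) c0 Idx (by
      intro S hSI
      have hinj : Set.InjOn (fun j : κ => ((j, Fin.last P.H) : κ × Fin (P.H + 1))) (J : Set κ) := by
        intro a _ b _ h
        exact (Prod.mk.inj h).1
      set J' : Finset (κ × Fin (P.H + 1)) := J.image (fun j => (j, Fin.last P.H)) with hJ'
      have hdis : Disjoint S J' := by
        rw [Finset.disjoint_left]
        intro b hb hb'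
        obtain ⟨j, -, rfl⟩ := Finset.mem_image.1 hb'
        have := (Finset.mem_filter.1 (hSI hb)).2
        simp at this
      have h1 := joint_tail P k hP τ hr (S ∪ J') Z
      rw [Finset.prod_union hdis, hJ', Finset.prod_image hinj] at h1
      simp only [Fin.val_last, Finset.prod_const] at h1
      refine le_trans (le_trans (Nat.cast_le.2 (Finset.card_le_card ?_)) h1) (le_of_eq ?_)
      · intro ω hω
        obtain ⟨⟨h1, h2⟩, h3⟩ := B4_mem.1 hω
        refine B4_mem.2 ⟨?_, h2⟩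
        intro b hb
        rcases Finset.mem_union.1 hb with hb | hb
        · exact h3 b hb
        · obtain ⟨j, hj, rfl⟩ := Finset.mem_image.1 hb
          exact h1 j hj
      · rw [hc0]; ring)
    I (B4_Ig P)
    (fun i _ jl hjl => Finset.mem_filter.2 ⟨Finset.mem_univ _, (Finset.mem_filter.1 hjl).2.2⟩)
    (by
      intro i hi i' hi' hne
      rw [Finset.disjoint_left]
      intro b hb hb'
      exact hI i hi i' hi' hne (mem_nb_of_row P.toPar i i' b.1
        (Finset.mem_filter.1 hb).2.1 (Finset.mem_filter.1 hb').2.1))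
    (fun i b => P.a i b.1 ^ 2 * M (b.2 + 1) ^ 2) (fun i b => by positivity) lam (3 / 4) hlam
  refine le_trans (Nat.cast_le.2 (Finset.card_le_card ?_)) (hmain.trans (le_of_eq ?_))
  · intro ω hω
    obtain ⟨h1, h2, h3⟩ := B4_mem.1 hω
    refine B4_mem.2 ⟨⟨h1, h2⟩, ?_⟩
    intro i hi
    have h4 := h3 i hi
    unfold LPar.Bud LPar.bsum at h4
    refine le_of_lt (lt_of_lt_of_eq h4 ?_)
    rw [← B4_sum P i (fun j l => if P.Up (ext τ ω) τ j l then P.a i j ^ 2 * M (l + 1) ^ 2 else 0)]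
    intro j l h
    simp [h]
  · have h5 : ∀ i, ∏ b ∈ B4_Ig P i,
        (1 + (Real.exp (lam * (P.a i b.1 ^ 2 * M (b.2 + 1) ^ 2)) - 1) * P.qq b.2) =
        ∏ j, ∏ l ∈ range P.H,
          (1 + (Real.exp (lam * (P.a i j ^ 2 * M (l + 1) ^ 2)) - 1) * P.qq l) := by
      intro i
      rw [← B4_prod P i (fun j l =>
        1 + (Real.exp (lam * (P.a i j ^ 2 * M (l + 1) ^ 2)) - 1) * P.qq l)]
      intro j l h
      simp [h]
    simp only [h5]
    rw [hc0]; ring

end Pool.Agent.LibLev64
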