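import Pool.Agent.LibLev64.A1

set_option autoImplicit false

/-! Task B5: the budget factor. Cite A1. -/

open Finset Pool.Agent.LibLoc73

namespace Pool.Agent.LibLev64

variable {ι κ : Type*} [Fintype ι] [Fintype κ] [DecidableEq ι]

theorem B5_exp (y : ℝ) : Real.exp y - 1 ≤ y * Real.exp y := by
  have h1 : -y + 1 ≤ Real.exp (-y) := Real.add_one_le_exp (-y)
  have h2 := Real.exp_pos y
  have h3 : Real.exp (-y) * Real.exp y = 1 := by rw [← Real.exp_add]; simp
  nlinarith [mul_le_mul_of_nonneg_right h1 h2.le]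

theorem B5_one (P : LPar ι κ) (i : ι) (j : κ) (l : ℕ) (lam : ℝ) (hlam : 0 ≤ lam)
    (ha : |P.a i j| ≤ P.ep) (hE : 6480 * lam * P.ep ^ 2 ≤ P.E l ^ 2) :
    1 + (Real.exp (lam * (P.a i j ^ 2 * M (l + 1) ^ 2)) - 1) * P.qq l ≤
      Real.exp (lam * P.a i j ^ 2 * (8 * M l ^ 2 * Real.exp (-(M l ^ 2 * P.E l ^ 2 / 1620)))) := by
  have hsq : P.a i j ^ 2 ≤ P.ep ^ 2 := by
    rw [← sq_abs (P.a i j)]
    exact pow_le_pow_left₀ (abs_nonneg _) ha 2
  have hM := M_pos l
  have hMs : M (l + 1) ^ 2 = 4 * M l ^ 2 := by rw [M_succ]; ring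
  have h1 : (Real.exp (lam * (P.a i j ^ 2 * M (l + 1) ^ 2)) - 1) * P.qq l ≤
      lam * P.a i j ^ 2 * (8 * M l ^ 2 * Real.exp (-(M l ^ 2 * P.E l ^ 2 / 1620))) := by
    have h2 := B5_exp (lam * (P.a i j ^ 2 * M (l + 1) ^ 2))
    have hq : 0 ≤ P.qq l := by unfold LPar.qq; positivity
    calc _ ≤ (lam * (P.a i j ^ 2 * M (l + 1) ^ 2) *
            Real.exp (lam * (P.a i j ^ 2 * M (l + 1) ^ 2))) * P.qq l :=
          mul_le_mul_of_nonneg_right h2 hq
      _ = lam * P.a i j ^ 2 * (8 * M l ^ 2 * (Real.exp (4 * lam * P.a i j ^ 2 * M l ^ 2) *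
            Real.exp (-(M l ^ 2 * P.E l ^ 2 / 810)))) := by
          unfold LPar.qq
          rw [hMs]
          ring_nf
      _ ≤ _ := by
          apply mul_le_mul_of_nonneg_left _ (by positivity)
          apply mul_le_mul_of_nonneg_left _ (by positivity)
          rw [← Real.exp_add]
          apply Real.exp_le_exp.2
          have h3 : lam * P.a i j ^ 2 ≤ lam * P.ep ^ 2 := mul_le_mul_of_nonneg_left hsq hlam
          have h4 : 4 * lam * P.a i j ^ 2 ≤ P.E l ^ 2 / 1620 := by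
            rw [le_div_iff₀ (by norm_num)]
            linarith
          have h5 := mul_le_mul_of_nonneg_right h4 (sq_nonneg (M l))
          linarith
  have h6 := Real.add_one_le_exp
    (lam * P.a i j ^ 2 * (8 * M l ^ 2 * Real.exp (-(M l ^ 2 * P.E l ^ 2 / 1620))))
  linarith

/-- `1 + x ≤ e^x`, `e^y - 1 ≤ y e^y`, `M (l+1)² = 4 M l²`, `a_ij² ≤ ep²`, `∑_j a_ij² ≤ 1`:
the exponent is `≤ -(3/4) lam + lam ∑_l 4 M_l² e^{4 lam ep² M_l²} 2 e^{-M_l² E_l²/810}` and
`4 lam ep² M_l² ≤ M_l² E_l² / 1620`. -/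
theorem bud_factor (P : LPar ι κ) (k : ℕ) (hP : P.Ok k) (i : ι) (lam : ℝ) (hlam : 0 ≤ lam)
    (hE : ∀ l, 6480 * lam * P.ep ^ 2 ≤ P.E l ^ 2)
    (hsum : ∑ l ∈ range P.H, 8 * M l ^ 2 * Real.exp (-(M l ^ 2 * P.E l ^ 2 / 1620)) ≤ 1 / 4) :
    Real.exp (-(lam * (3 / 4))) * ∏ j, ∏ l ∈ range P.H,
        (1 + (Real.exp (lam * (P.a i j ^ 2 * M (l + 1) ^ 2)) - 1) * P.qq l)
      ≤ Real.exp (-(lam / 2)) := by
  have hnn : ∀ (j : κ) (l : ℕ),
      0 ≤ 1 + (Real.exp (lam * (P.a i j ^ 2 * M (l + 1) ^ 2)) - 1) * P.qq l := by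
    intro j l
    have h1 : 1 ≤ Real.exp (lam * (P.a i j ^ 2 * M (l + 1) ^ 2)) :=
      Real.one_le_exp (by positivity)
    have hq : 0 ≤ P.qq l := by unfold LPar.qq; positivity
    have := mul_nonneg (sub_nonneg.2 h1) hq
    linarith
  have hprod : ∏ j, ∏ l ∈ range P.H,
      (1 + (Real.exp (lam * (P.a i j ^ 2 * M (l + 1) ^ 2)) - 1) * P.qq l) ≤
      Real.exp (lam * (1 / 4)) := by
    calc _ ≤ ∏ j, ∏ l ∈ range P.H, Real.exp
          (lam * P.a i j ^ 2 * (8 * M l ^ 2 * Real.exp (-(M l ^ 2 * P.E l ^ 2 / 1620)))) := by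
          apply Finset.prod_le_prod
          · intro j _
            exact Finset.prod_nonneg fun l _ => hnn j l
          · intro j _
            apply Finset.prod_le_prod
            · intro l _
              exact hnn j l
            · intro l _
              exact B5_one P i j l lam hlam (hP.hep i j) (hE l)
      _ = Real.exp (∑ j, lam * P.a i j ^ 2 * ∑ l ∈ range P.H,
            (8 * M l ^ 2 * Real.exp (-(M l ^ 2 * P.E l ^ 2 / 1620)))) := by
          rw [Real.exp_sum]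
          apply Finset.prod_congr rfl
          intro j _
          rw [Finset.mul_sum, Real.exp_sum]
      _ ≤ Real.exp (lam * (1 / 4)) := by
          apply Real.exp_le_exp.2
          rw [← Finset.sum_mul, ← Finset.mul_sum]
          have h1 : ∑ j, P.a i j ^ 2 ≤ 1 := hP.hB.hcol i
          have h2 : 0 ≤ ∑ j, P.a i j ^ 2 := Finset.sum_nonneg fun j _ => sq_nonneg _
          have h3 : 0 ≤ ∑ l ∈ range P.H,
              (8 * M l ^ 2 * Real.exp (-(M l ^ 2 * P.E l ^ 2 / 1620))) :=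
            Finset.sum_nonneg fun l _ => by positivity
          rw [mul_assoc]
          apply mul_le_mul_of_nonneg_left _ hlam
          calc _ ≤ 1 * ∑ l ∈ range P.H,
                (8 * M l ^ 2 * Real.exp (-(M l ^ 2 * P.E l ^ 2 / 1620))) :=
                mul_le_mul_of_nonneg_right h1 h3
            _ ≤ 1 / 4 := by rw [one_mul]; exact hsum
  calc _ ≤ Real.exp (-(lam * (3 / 4))) * Real.exp (lam * (1 / 4)) :=
        mul_le_mul_of_nonneg_left hprod (Real.exp_pos _).le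
    _ = Real.exp (-(lam / 2)) := by
        rw [← Real.exp_add]
        congr 1
        ring

end Pool.Agent.LibLev64
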