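import Pool.Agent.LibLev64.A1

set_option autoImplicit false

/-! Task K1: numerical inequalities, part 1. -/

open Finset Pool.Agent.LibLoc73

namespace Pool.Agent.LibLev64

private theorem K1_pow (k : ℕ) (n : ℕ) :
    (k : ℝ) ^ n ≤ Real.exp (n * ((k : ℝ) - 1)) := by
  have h1 : (k : ℝ) ≤ Real.exp ((k : ℝ) - 1) := by
    have := Real.add_one_le_exp ((k : ℝ) - 1)
    linarith
  calc (k : ℝ) ^ n ≤ (Real.exp ((k : ℝ) - 1)) ^ n := pow_le_pow_left₀ (by positivity) h1 n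
    _ = Real.exp (n * ((k : ℝ) - 1)) := by rw [← Real.exp_nat_mul]

private theorem K1_exp (n : ℕ) : (2.7 : ℝ) ^ n ≤ Real.exp n := by
  have h1 : (2.7 : ℝ) ≤ Real.exp 1 := by
    have := Real.exp_one_gt_d9
    linarith
  calc (2.7 : ℝ) ^ n ≤ (Real.exp 1) ^ n := pow_le_pow_left₀ (by norm_num) h1 n
    _ = Real.exp n := by rw [← Real.exp_nat_mul, mul_one]

/-- `A √B ≤ 1` from `A² B ≤ 1` -/
private theorem K1_sqrt (A B : ℝ) (hA : 0 ≤ A) (h : A ^ 2 * B ≤ 1) : A * √B ≤ 1 := by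
  rcases eq_or_lt_of_le hA with h0 | h0
  · rw [← h0]; norm_num
  · have h1 : √B ≤ 1 / A := by
      apply Real.sqrt_le_iff.mpr
      refine ⟨by positivity, ?_⟩
      rw [div_pow, one_pow, le_div_iff₀ (by positivity)]
      nlinarith
    calc A * √B ≤ A * (1 / A) := mul_le_mul_of_nonneg_left h1 hA
      _ = 1 := by field_simp

/-- the product is `90000 k⁴ (1 - 1/(2k²))^{40 k³} ≤ 90000 k⁴ e^{-20 k}` -/
theorem num_r2 (k : ℕ) (hk : 2 ≤ k) :
    20 * (1 / (200 * (k : ℝ) ^ 3)) ^ 2 * (180000000 * (k : ℝ) ^ 10)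
      * (1 - 1 / (2 * (k : ℝ) ^ 2)) ^ (40 * k ^ 3) ≤ 1 := by
  have hk' : (2 : ℝ) ≤ k := by exact_mod_cast hk
  have hk0 : (0 : ℝ) < k := by linarith
  have h1 : 20 * (1 / (200 * (k : ℝ) ^ 3)) ^ 2 * (180000000 * (k : ℝ) ^ 10) =
      90000 * (k : ℝ) ^ 4 := by
    field_simp
    norm_num
  rw [h1]
  have h0 : 0 ≤ 1 - 1 / (2 * (k : ℝ) ^ 2) := by
    rw [sub_nonneg, div_le_one (by positivity)]
    nlinarith
  have h2 : (1 - 1 / (2 * (k : ℝ) ^ 2)) ^ (40 * k ^ 3) ≤ Real.exp (-(20 * (k : ℝ))) := by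
    have h3 : 1 - 1 / (2 * (k : ℝ) ^ 2) ≤ Real.exp (-(1 / (2 * (k : ℝ) ^ 2))) := by
      have := Real.add_one_le_exp (-(1 / (2 * (k : ℝ) ^ 2)))
      linarith
    calc (1 - 1 / (2 * (k : ℝ) ^ 2)) ^ (40 * k ^ 3)
        ≤ (Real.exp (-(1 / (2 * (k : ℝ) ^ 2)))) ^ (40 * k ^ 3) := pow_le_pow_left₀ h0 h3 _
      _ = Real.exp (-(20 * (k : ℝ))) := by
          rw [← Real.exp_nat_mul]
          congr 1
          push_cast
          field_simp
          norm_num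
  have h4 := K1_pow k 4
  have h5 := K1_exp 12
  calc 90000 * (k : ℝ) ^ 4 * (1 - 1 / (2 * (k : ℝ) ^ 2)) ^ (40 * k ^ 3)
      ≤ 90000 * Real.exp ((4 : ℕ) * ((k : ℝ) - 1)) * Real.exp (-(20 * (k : ℝ))) := by gcongr
    _ = 90000 * Real.exp ((4 : ℕ) * ((k : ℝ) - 1) + -(20 * (k : ℝ))) := by
        rw [Real.exp_add]; ring
    _ ≤ 90000 * Real.exp (-12) := by
        gcongr
        push_cast
        linarith
    _ ≤ 1 := by
        rw [Real.exp_neg, ← div_eq_mul_inv, div_le_one (Real.exp_pos _)]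
        have h6 : Real.exp ((12 : ℕ) : ℝ) = Real.exp 12 := by norm_num
        rw [← h6]
        refine le_trans ?_ h5
        norm_num

/-- the exponent is `500 k`, `k^101 = e^{101 log k} ≤ e^{101 (k-1)}` -/
theorem num_a2 (k : ℕ) (hk : 2 ≤ k) :
    (k : ℝ) ^ 101 * √(2 * Real.exp (-((1 / (200 * (k : ℝ) ^ 3)) ^ 2
      * (180000000 * (k : ℝ) ^ 7) / 9))) ≤ 1 := by
  have hk' : (2 : ℝ) ≤ k := by exact_mod_cast hk
  have hk0 : (0 : ℝ) < k := by linarith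
  apply K1_sqrt _ _ (by positivity)
  have h1 : (1 / (200 * (k : ℝ) ^ 3)) ^ 2 * (180000000 * (k : ℝ) ^ 7) / 9 = 500 * k := by
    field_simp
    norm_num
  rw [h1, ← pow_mul]
  have h2 := K1_pow k 202
  have h3 := K1_exp 5
  calc (k : ℝ) ^ (101 * 2) * (2 * Real.exp (-(500 * (k : ℝ))))
      ≤ Real.exp ((202 : ℕ) * ((k : ℝ) - 1)) * (2 * Real.exp (-(500 * (k : ℝ)))) := by
        gcongr
    _ = 2 * Real.exp ((202 : ℕ) * ((k : ℝ) - 1) + -(500 * (k : ℝ))) := by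
        rw [Real.exp_add]; ring
    _ ≤ 2 * Real.exp (-5) := by
        gcongr
        push_cast
        linarith
    _ ≤ 1 := by
        rw [Real.exp_neg, ← div_eq_mul_inv, div_le_one (Real.exp_pos _)]
        have h4 : Real.exp ((5 : ℕ) : ℝ) = Real.exp 5 := by norm_num
        rw [← h4]
        refine le_trans ?_ h3
        norm_num

/-- the exponent is `500 k²` -/
theorem num_b2 (k : ℕ) (hk : 2 ≤ k) :
    (k : ℝ) ^ 101 * √(2 * (180000000 * (k : ℝ) ^ 10)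
      * Real.exp (-((1 / (k : ℝ) ^ 2) ^ 2 / (80 * (1 / (200 * (k : ℝ) ^ 3)) ^ 2)))) ≤ 1 := by
  have hk' : (2 : ℝ) ≤ k := by exact_mod_cast hk
  have hk0 : (0 : ℝ) < k := by linarith
  apply K1_sqrt _ _ (by positivity)
  have h1 : (1 / (k : ℝ) ^ 2) ^ 2 / (80 * (1 / (200 * (k : ℝ) ^ 3)) ^ 2) = 500 * (k : ℝ) ^ 2 := by
    field_simp
    norm_num
  rw [h1, ← pow_mul]
  have h2 := K1_pow k 212
  have h3 := K1_exp 25
  calc (k : ℝ) ^ (101 * 2) * (2 * (180000000 * (k : ℝ) ^ 10) * Real.exp (-(500 * (k : ℝ) ^ 2)))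
      = 360000000 * (k : ℝ) ^ 212 * Real.exp (-(500 * (k : ℝ) ^ 2)) := by ring
    _ ≤ 360000000 * Real.exp ((212 : ℕ) * ((k : ℝ) - 1)) * Real.exp (-(500 * (k : ℝ) ^ 2)) := by
        gcongr
    _ = 360000000 * Real.exp ((212 : ℕ) * ((k : ℝ) - 1) + -(500 * (k : ℝ) ^ 2)) := by
        rw [Real.exp_add]; ring
    _ ≤ 360000000 * Real.exp (-25) := by
        gcongr
        push_cast
        nlinarith
    _ ≤ 1 := by
        rw [Real.exp_neg, ← div_eq_mul_inv, div_le_one (Real.exp_pos _)]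
        have h4 : Real.exp ((25 : ℕ) : ℝ) = Real.exp 25 := by norm_num
        rw [← h4]
        refine le_trans ?_ h3
        norm_num

/-- `√(e^{-202 log k}) = k^{-101}` -/
theorem num_e2 (k : ℕ) (hk : 2 ≤ k) :
    (k : ℝ) ^ 101 * √(Real.exp (-(404 * Real.log k / 2))) ≤ 1 := by
  have hk' : (2 : ℝ) ≤ k := by exact_mod_cast hk
  have hk0 : (0 : ℝ) < k := by linarith
  apply K1_sqrt _ _ (by positivity)
  have h1 : 404 * Real.log k / 2 = ((202 : ℕ) : ℝ) * Real.log k := by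
    push_cast
    ring
  rw [h1, Real.exp_neg, Real.exp_nat_mul, Real.exp_log hk0, ← pow_mul]
  norm_num
  rw [mul_inv_cancel₀ (by positivity)]

/-- `m k⁶ (1 + k²) < k^99` for `m = 180000000 k^10 (40 k³ + 1)` -/
theorem num_N2 (k : ℕ) (hk : 2 ≤ k) (q : ℝ) (hq : 0 ≤ q) (hqk : (k : ℝ) ^ 99 * q ≤ 1) :
    ((180000000 * k ^ 10 * (40 * k ^ 3 + 1) * k ^ 6 : ℕ) : ℝ) * (1 + (k : ℝ) ^ 2) * q < 1 := by
  have hk' : (2 : ℝ) ≤ k := by exact_mod_cast hk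
  have hk0 : (0 : ℝ) < k := by linarith
  rcases eq_or_lt_of_le hq with h0 | h0
  · rw [← h0]; norm_num
  · refine lt_of_lt_of_le ?_ hqk
    apply mul_lt_mul_of_pos_right _ h0
    push_cast
    have h1 : 1 + (k : ℝ) ^ 2 ≤ 2 * (k : ℝ) ^ 2 := by nlinarith
    have h2 : 40 * (k : ℝ) ^ 3 + 1 ≤ 41 * (k : ℝ) ^ 3 := by
      have : (1 : ℝ) ≤ (k : ℝ) ^ 3 := one_le_pow₀ (by linarith)
      linarith
    calc 180000000 * (k : ℝ) ^ 10 * (40 * (k : ℝ) ^ 3 + 1) * (k : ℝ) ^ 6 * (1 + (k : ℝ) ^ 2)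
        ≤ 180000000 * (k : ℝ) ^ 10 * (41 * (k : ℝ) ^ 3) * (k : ℝ) ^ 6 * (2 * (k : ℝ) ^ 2) := by
          gcongr
      _ = 14760000000 * (k : ℝ) ^ 21 := by ring
      _ < 2 ^ 78 * (k : ℝ) ^ 21 := by
          apply mul_lt_mul_of_pos_right _ (by positivity)
          norm_num
      _ ≤ (k : ℝ) ^ 78 * (k : ℝ) ^ 21 := by gcongr
      _ = (k : ℝ) ^ 99 := by rw [← pow_add]

end Pool.Agent.LibLev64
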