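import Pool.Agent.LibLev64.A1
import Pool.Agent.LibLoc73.B1

set_option autoImplicit false

/-! Task A2: activation of coordinates. Cite `LibLoc73.B1` (`F_le_Psi`, `Psi_le`). -/

open Finset Pool.Agent.LibLoc73

namespace Pool.Agent.LibLev64

/-- the potential depends on the vectors of the pivots, the span and the positions of the pivots -/
theorem Psi_congr_vec {ι E : Type*} [NormedAddCommGroup E] [InnerProductSpace ℝ E]
    (w w' : ι → E) (P : Finset ι) (hw : ∀ p ∈ P, w' p = w p) (W : Submodule ℝ E) (v : E)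
    (x x' : ι → ℝ) (hx : ∀ p ∈ P, x' p = x p) : Psi w' P W v x' = Psi w P W v x := by
  unfold Psi
  have h : ∀ z : W, F w' P x' (v + z) = F w P x (v + z) := by
    intro z
    unfold F
    rw [Finset.sum_congr rfl (fun p hp => by rw [hw p hp, hx p hp] :
      ∀ p ∈ P, G (x' p) (inner ℝ (w' p) (v + (z : E))) = G (x p) (inner ℝ (w p) (v + (z : E))))]
  exact iSup_congr h

private theorem A2_inner {σ : Type*} [Fintype σ] (a b : EuclideanSpace ℝ σ) :
    (inner ℝ a b : ℝ) = ∑ c, a c * b c := by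
  rw [PiLp.inner_apply]
  refine Finset.sum_congr rfl fun c _ => ?_
  rw [real_inner_comm]
  rfl

/-- ACTIVATION LEMMA. `Cs` is a set of coordinates in which all the vectors of `P` and `N` vanish;
the new vectors are equal to the old ones for the pivots, and outside `Cs` for the slaves.
Proof: `Psi_le`; a point `z'` of the new span is `∑ c_i w'_i = z + g` with `z = ∑ c_i w_i` in the old span
and `g` supported on `Cs` (`Submodule.span_induction`, or `mem_span_image_iff_exists_fun`).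
`⟨w'_p, v + z'⟩ = ⟨w_p, v + z⟩` because `w_p` vanishes on `Cs`, and
`‖v + z'‖² ≥ ∑_{c ∉ Cs} (v + z)_c² = ‖v + z‖² - ∑_{c ∈ Cs} v_c²` because `z` vanishes on `Cs`. Then
`F w' P x (v + z') ≤ F w P x (v + z) + 40 ∑_{Cs} v_c²` and `F_le_Psi`. -/
theorem Psi_activate {ι σ : Type*} [Fintype σ] [DecidableEq σ]
    (w w' : ι → EuclideanSpace ℝ σ) (P N : Finset ι) (Cs : Finset σ)
    (hP : ∀ p ∈ P, w' p = w p) (hP0 : ∀ p ∈ P, ∀ c ∈ Cs, w p c = 0)
    (hN0 : ∀ i ∈ N, ∀ c ∈ Cs, w i c = 0) (hN : ∀ i ∈ N, ∀ c, c ∉ Cs → w' i c = w i c)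
    (x : ι → ℝ) (hx : ∀ p ∈ P, |x p| ≤ 1) (hB : Bes w P) (v : EuclideanSpace ℝ σ) :
    Psi w' P (Submodule.span ℝ (w' '' (N : Set ι))) v x
      ≤ Psi w P (Submodule.span ℝ (w '' (N : Set ι))) v x + 40 * ∑ c ∈ Cs, v c ^ 2 := by
  refine Psi_le w' P x _ v _ fun z' hz' => ?_
  -- a companion of `z'` in the old span
  obtain ⟨z, hz, hz0, hz1⟩ : ∃ z ∈ Submodule.span ℝ (w '' (N : Set ι)),
      (∀ c ∈ Cs, z c = 0) ∧ (∀ c, c ∉ Cs → z' c = z c) := by
    induction hz' using Submodule.span_induction with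
    | mem y hy =>
      obtain ⟨i, hi, rfl⟩ := hy
      exact ⟨w i, Submodule.subset_span ⟨i, hi, rfl⟩, hN0 i hi, hN i hi⟩
    | zero => exact ⟨0, Submodule.zero_mem _, fun _ _ => rfl, fun _ _ => rfl⟩
    | add a b _ _ ha hb =>
      obtain ⟨a', ha1, ha2, ha3⟩ := ha
      obtain ⟨b', hb1, hb2, hb3⟩ := hb
      refine ⟨a' + b', Submodule.add_mem _ ha1 hb1, fun c hc => ?_, fun c hc => ?_⟩
      · rw [PiLp.add_apply, ha2 c hc, hb2 c hc, add_zero]
      · rw [PiLp.add_apply, PiLp.add_apply, ha3 c hc, hb3 c hc]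
    | smul r a _ ha =>
      obtain ⟨a', ha1, ha2, ha3⟩ := ha
      refine ⟨r • a', Submodule.smul_mem _ r ha1, fun c hc => ?_, fun c hc => ?_⟩
      · rw [PiLp.smul_apply, ha2 c hc, smul_zero]
      · rw [PiLp.smul_apply, PiLp.smul_apply, ha3 c hc]
  have h1 : ∀ p ∈ P, (inner ℝ (w' p) (v + z') : ℝ) = inner ℝ (w p) (v + z) := by
    intro p hp
    rw [hP p hp, A2_inner, A2_inner]
    refine Finset.sum_congr rfl fun c _ => ?_
    by_cases hc : c ∈ Cs
    · rw [hP0 p hp c hc, zero_mul, zero_mul]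
    · rw [PiLp.add_apply, PiLp.add_apply, hz1 c hc]
  have h2 : ‖v + z‖ ^ 2 - ∑ c ∈ Cs, v c ^ 2 ≤ ‖v + z'‖ ^ 2 := by
    rw [EuclideanSpace.real_norm_sq_eq, EuclideanSpace.real_norm_sq_eq]
    rw [← Finset.sum_add_sum_compl Cs (fun c => (v + z) c ^ 2),
      ← Finset.sum_add_sum_compl Cs (fun c => (v + z') c ^ 2)]
    have e1 : ∑ c ∈ Cs, (v + z) c ^ 2 = ∑ c ∈ Cs, v c ^ 2 :=
      Finset.sum_congr rfl fun c hc => by rw [PiLp.add_apply, hz0 c hc, add_zero]
    have e2 : ∑ c ∈ Csᶜ, (v + z') c ^ 2 = ∑ c ∈ Csᶜ, (v + z) c ^ 2 :=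
      Finset.sum_congr rfl fun c hc => by
        rw [PiLp.add_apply, PiLp.add_apply, hz1 c (Finset.mem_compl.1 hc)]
    have e3 : 0 ≤ ∑ c ∈ Cs, (v + z') c ^ 2 := Finset.sum_nonneg fun c _ => sq_nonneg _
    rw [e1, e2]
    linarith
  have h3 : F w' P x (v + z') ≤ F w P x (v + z) + 40 * ∑ c ∈ Cs, v c ^ 2 := by
    unfold F
    have e4 : ∑ p ∈ P, G (x p) (inner ℝ (w' p) (v + z')) =
        ∑ p ∈ P, G (x p) (inner ℝ (w p) (v + z)) :=
      Finset.sum_congr rfl fun p hp => by rw [h1 p hp]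
    rw [e4]
    linarith
  have h4 := F_le_Psi w P x hx hB _ v z hz
  linarith

end Pool.Agent.LibLev64
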