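import Pool.Agent.LibLev64.A2
import Pool.Agent.LibLev64.A3
import Pool.Agent.LibLev64.A4
import Pool.Agent.LibLoc73.C2

set_option autoImplicit false

/-! Task A5: change of the potential under one step, deterministic part.
Cite A2, A3, A4, `LibLoc73.Psi_mono`, `LibLoc73.Psi_restart`, `LibLoc73.bes_of_color`. -/

open Finset Pool.Agent.LibLoc73

namespace Pool.Agent.LibLev64

variable {ι κ : Type*} [Fintype ι] [Fintype κ] [DecidableEq ι]

theorem a5_iter_not_mem {κ' : Type*} [Fintype κ'] (P : Par ι κ') (N : Finset ι) (p : ι)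
    (hp : p ∉ N) (n : ℕ) (u : ι → ℝ) : ((P.it N)^[n] u) p = u p := by
  induction n generalizing u with
  | zero => rfl
  | succ n ih =>
    rw [Function.iterate_succ_apply, ih]
    unfold Par.it
    rw [if_neg hp]

theorem a5_newx (P : LPar ι κ) (s : ℕ) (st : LSt ι κ) (ξ : ι → Bool) (p : ι)
    (hp : p ∈ P.toPar.piv s st.L) : P.newx s st ξ p = st.x p + P.δ * sgn (ξ p) := by
  have hn : p ∉ P.toPar.sla s st.L := by
    unfold Par.piv at hp
    unfold Par.sla
    rw [mem_filter] at hp ⊢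
    rintro ⟨_, h⟩
    rw [hp.2] at h
    exact lt_irrefl _ h
  unfold LPar.newx
  rw [if_neg]
  · congr 1
    have hn' : p ∉ (P.inst s st).sla s st.L := hn
    have hp' : p ∈ (P.inst s st).piv s st.L := hp
    unfold LPar.upd Par.upd
    rw [a5_iter_not_mem (P.inst s st) _ p hn']
    unfold Par.ini
    rw [if_pos hp']
    rfl
  · unfold LPar.big
    rw [mem_filter]
    exact fun h => hn h.1

theorem a5_bes_mono {ι' E : Type*} [NormedAddCommGroup E] [InnerProductSpace ℝ E]
    (w w' : ι' → E) (P P' : Finset ι') (hP : P' ⊆ P) (hw : ∀ p ∈ P', w' p = w p)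
    (hB : Bes w P) : Bes w' P' := by
  intro z
  refine le_trans ?_ (hB z)
  calc ∑ p ∈ P', (inner ℝ (w' p) z) ^ 2 = ∑ p ∈ P', (inner ℝ (w p) z) ^ 2 :=
        sum_congr rfl fun p hp => by rw [hw p hp]
    _ ≤ ∑ p ∈ P, (inner ℝ (w p) z) ^ 2 :=
        sum_le_sum_of_subset_of_nonneg hP fun p _ _ => sq_nonneg _

/-- the intermediate vectors -/
noncomputable def a5_w (P : LPar ι κ) (s : ℕ) (st : LSt ι κ) (ξ : ι → Bool) (i : ι) :
    EuclideanSpace ℝ (ι ⊕ κ × Fin (P.H + 1)) :=
  vec (Pi.single i 1) (fun jl => if i ∈ P.newL s st ξ ∧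
    (jl.2 : ℕ) ≤ (if P.c i = s / P.T then st.lev0 jl.1 else P.newlev s st ξ jl.1)
    then M jl.2 * P.a i jl.1 else 0)

theorem a5_w_inl (P : LPar ι κ) (s : ℕ) (st : LSt ι κ) (ξ : ι → Bool) (i i' : ι) :
    a5_w P s st ξ i (Sum.inl i') = (P.inst s st).wv i (Sum.inl i') := rfl

theorem a5_w_inr (P : LPar ι κ) (s : ℕ) (st : LSt ι κ) (ξ : ι → Bool) (i : ι)
    (jl : κ × Fin (P.H + 1)) :
    a5_w P s st ξ i (Sum.inr jl) = if i ∈ P.newL s st ξ ∧
    (jl.2 : ℕ) ≤ (if P.c i = s / P.T then st.lev0 jl.1 else P.newlev s st ξ jl.1)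
    then M jl.2 * P.a i jl.1 else 0 := rfl

theorem a5_wv_inr (P : LPar ι κ) (s : ℕ) (st : LSt ι κ) (i : ι) (jl : κ × Fin (P.H + 1)) :
    (P.inst s st).wv i (Sum.inr jl) = if i ∈ st.L ∧ (jl.2 : ℕ) ≤ P.act s st i jl.1
    then M jl.2 * P.a i jl.1 else 0 := rfl

/-- the vectors of the pivots do not change -/
theorem a5_w_piv (P : LPar ι κ) (s : ℕ) (st : LSt ι κ) (ξ : ι → Bool) (p : ι)
    (hp : p ∈ P.toPar.piv s (P.newL s st ξ)) : a5_w P s st ξ p = (P.inst s st).wv p := by
  unfold Par.piv at hp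
  rw [mem_filter] at hp
  have hL := newL_subset P s st ξ hp.1
  ext x
  rcases x with i | jl
  · rfl
  · rw [a5_w_inr, a5_wv_inr]
    unfold LPar.act
    simp only [hp.1, hL, hp.2, if_true, true_and]

/-- the new vectors -/
theorem a5_w_new (P : LPar ι κ) (s : ℕ) (st : LSt ι κ) (ξ : ι → Bool) (i : ι)
    (h : (s + 1) / P.T = s / P.T ∨ P.c i ≠ s / P.T) :
    (P.inst (s + 1) (P.step s st ξ)).wv i = a5_w P s st ξ i := by
  ext x
  rcases x with i' | jl
  · rfl
  · rw [a5_w_inr, a5_wv_inr]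
    have h1 : P.act (s + 1) (P.step s st ξ) i jl.1 =
        if P.c i = s / P.T then st.lev0 jl.1 else P.newlev s st ξ jl.1 := by
      unfold LPar.act
      show (if P.c i = (s + 1) / P.T then (if (s + 1) / P.T = s / P.T then st.lev0 jl.1 else
        P.newlev s st ξ jl.1) else P.newlev s st ξ jl.1) = _
      rcases h with h | h
      · simp only [h, if_true]
      · rw [if_neg h]
        by_cases h2 : (s + 1) / P.T = s / P.T
        · rw [h2, if_neg h]
        · rw [if_neg h2, ite_self]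
    rw [h1]
    rfl

/-- sums over the coordinates -/
theorem a5_sum {κ' : Type*} [Fintype κ'] (A B : κ' → ℕ) (l : κ' → ℕ) (hAB : ∀ x, A x ≤ B x)
    (f : κ' → ℝ) :
    ∑ x ∈ univ.filter (fun x => A x < l x ∧ l x ≤ B x), f x + ∑ x, (if B x < l x then f x else 0) =
      ∑ x, if A x < l x then f x else 0 := by
  rw [sum_filter, ← sum_add_distrib]
  apply sum_congr rfl
  intro x _
  have := hAB x
  by_cases h1 : A x < l x
  · by_cases h2 : B x < l x
    · rw [if_neg (by omega), if_pos h2, if_pos h1, zero_add]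
    · rw [if_pos (by omega), if_neg h2, if_pos h1, add_zero]
  · rw [if_neg (by omega), if_neg (by omega), if_neg h1, add_zero]

/-- Write `x' = newx`, `L' = newL`, `w = (inst s st).wv`, `P1 = piv s L'`, `N1 = sla s L'`.
(1) `Psi_mono`: from `P, N` to `P1, N1` (same vectors).
(2) `Psi_activate` with `Cs = {inr (j,l) : lev j < l ≤ newlev j}` and the vectors
`w' i = vec (Pi.single i 1) (fun jl => if i ∈ L' ∧ l ≤ (if c i = s/T then lev0 j else newlev j) then M l a_ij else 0)`.
(3) If `(s+1)/T = s/T` then `(inst (s+1) st').wv = w'` on `P1 ∪ N1` and the pivots and slaves are the same.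
Otherwise `s/T < (s+1)/T`, the new pivots and slaves are in `N1`, there `(inst (s+1) st').wv = w'`, and
`Psi_restart` applies (`Psi_congr_vec` to change the vectors).
(4) the sums over coordinates: `{lev j < l} = Cs ∪ {newlev j < l}`.
`Bes` of all the sets involved: `bes_of_color` with `inst_ok` (for `w'` on `P1` it is `w`). -/
theorem pot_det (P : LPar ι κ) (k : ℕ) (hP : P.Ok k) (s : ℕ) (st : LSt ι κ) (hI : P.Inv st)
    (ξ : ι → Bool) (v : EuclideanSpace ℝ (ι ⊕ κ × Fin (P.H + 1))) :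
    P.pot (s + 1) (P.step s st ξ) v
      ≤ Psi (P.inst s st).wv (P.toPar.piv s st.L) ((P.inst s st).spn (P.toPar.sla s st.L)) v
          (P.newx s st ξ)
        + 40 * ∑ jl : κ × Fin (P.H + 1),
          if st.lev jl.1 < (jl.2 : ℕ) then (v (Sum.inr jl)) ^ 2 else 0 := by
  classical
  have hδ := hP.hB.hδ
  have hδη := hP.hB.hδη
  have hI' := inv_step P s st ξ hI
  have hLsub := newL_subset P s st ξ
  have hok := inst_ok P k hP s st hI
  have hok' := inst_ok P k hP (s + 1) (P.step s st ξ) hI'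
  -- positions
  have hx0 : ∀ p ∈ P.toPar.piv s st.L, |P.newx s st ξ p| ≤ 1 := by
    intro p hp
    rw [a5_newx P s st ξ p hp]
    have h1 : |st.x p| < 1 - P.η := by
      apply hI.hx
      unfold Par.piv at hp
      exact (mem_filter.mp hp).1
    have h2 : |P.δ * sgn (ξ p)| = P.δ := by
      have h3 : |sgn (ξ p)| = 1 := by
        unfold sgn
        cases ξ p <;> simp
      rw [abs_mul, h3, mul_one, abs_of_pos hδ]
    have h3 := abs_add_le (st.x p) (P.δ * sgn (ξ p))
    linarith
  have hpiv1 : P.toPar.piv s (P.newL s st ξ) ⊆ P.toPar.piv s st.L := by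
    intro i hi
    unfold Par.piv at hi ⊢
    rw [mem_filter] at hi ⊢
    exact ⟨hLsub hi.1, hi.2⟩
  have hsla1 : P.toPar.sla s (P.newL s st ξ) ⊆ P.toPar.sla s st.L := by
    intro i hi
    unfold Par.sla at hi ⊢
    rw [mem_filter] at hi ⊢
    exact ⟨hLsub hi.1, hi.2⟩
  have hx1 : ∀ p ∈ P.toPar.piv s (P.newL s st ξ), |P.newx s st ξ p| ≤ 1 :=
    fun p hp => hx0 p (hpiv1 hp)
  have hB : Bes (P.inst s st).wv (P.toPar.piv s st.L) := by
    apply bes_of_color (P.inst s st) (k ^ 2) hok _ (s / P.T)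
    intro p hp
    unfold Par.piv at hp
    exact (mem_filter.mp hp).2
  have hB1 : Bes (P.inst s st).wv (P.toPar.piv s (P.newL s st ξ)) :=
    a5_bes_mono _ _ _ _ hpiv1 (fun _ _ => rfl) hB
  have hB2 : Bes (a5_w P s st ξ) (P.toPar.piv s (P.newL s st ξ)) :=
    a5_bes_mono _ _ _ _ (Finset.Subset.refl _) (fun p hp => a5_w_piv P s st ξ p hp) hB1
  -- step 1
  have step1 : Psi (P.inst s st).wv (P.toPar.piv s (P.newL s st ξ))
      ((P.inst s st).spn (P.toPar.sla s (P.newL s st ξ))) v (P.newx s st ξ) ≤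
      Psi (P.inst s st).wv (P.toPar.piv s st.L) ((P.inst s st).spn (P.toPar.sla s st.L)) v
          (P.newx s st ξ) := by
    apply Psi_mono _ _ _ hpiv1 _ hx0 hB
    unfold Par.spn
    apply Submodule.span_mono
    apply Set.image_mono
    exact_mod_cast hsla1
  -- step 2
  have hCsmem : ∀ x, x ∈ ((univ : Finset (κ × Fin (P.H + 1))).filter
      (fun jl => st.lev jl.1 < (jl.2 : ℕ) ∧ (jl.2 : ℕ) ≤ P.newlev s st ξ jl.1)).map
      (Function.Embedding.inr : κ × Fin (P.H + 1) ↪ ι ⊕ κ × Fin (P.H + 1)) ↔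
      ∃ jl : κ × Fin (P.H + 1), (st.lev jl.1 < (jl.2 : ℕ) ∧ (jl.2 : ℕ) ≤ P.newlev s st ξ jl.1) ∧
        Sum.inr jl = x := by
    intro x
    rw [mem_map]
    simp
  have step2 := Psi_activate (P.inst s st).wv (a5_w P s st ξ) (P.toPar.piv s (P.newL s st ξ))
    (P.toPar.sla s (P.newL s st ξ)) (((univ : Finset (κ × Fin (P.H + 1))).filter
      (fun jl => st.lev jl.1 < (jl.2 : ℕ) ∧ (jl.2 : ℕ) ≤ P.newlev s st ξ jl.1)).map
      (Function.Embedding.inr : κ × Fin (P.H + 1) ↪ ι ⊕ κ × Fin (P.H + 1)))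
    (fun p hp => a5_w_piv P s st ξ p hp) (by
      intro p hp c hc
      rw [hCsmem] at hc
      obtain ⟨jl, h1, rfl⟩ := hc
      rw [a5_wv_inr, if_neg]
      rintro ⟨_, h2⟩
      have h3 := act_le P s st hI.hlev0 p jl.1
      omega) (by
      intro i hi c hc
      rw [hCsmem] at hc
      obtain ⟨jl, h1, rfl⟩ := hc
      rw [a5_wv_inr, if_neg]
      rintro ⟨_, h2⟩
      have h3 := act_le P s st hI.hlev0 i jl.1
      omega) (by
      intro i hi c hc
      rcases c with i' | jl
      · rfl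
      · rw [a5_w_inr, a5_wv_inr]
        unfold Par.sla at hi
        rw [mem_filter] at hi
        have hne : P.c i ≠ s / P.T := by
          intro h
          have h1 : s / P.T < P.c i := hi.2
          omega
        have h1 : P.act s st i jl.1 = st.lev jl.1 := by
          unfold LPar.act
          rw [if_neg hne]
        rw [h1, if_neg hne]
        have h2 := hLsub hi.1
        have h3 : ¬ (st.lev jl.1 < (jl.2 : ℕ) ∧ (jl.2 : ℕ) ≤ P.newlev s st ξ jl.1) := by
          intro h4
          apply hc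
          rw [hCsmem]
          exact ⟨jl, h4, rfl⟩
        have h4 := (newlev_le P s st ξ jl.1).1
        by_cases h5 : (jl.2 : ℕ) ≤ st.lev jl.1
        · rw [if_pos ⟨hi.1, h5.trans h4⟩, if_pos ⟨h2, h5⟩]
        · rw [if_neg (fun h6 => h3 ⟨by omega, h6.2⟩), if_neg (fun h6 => h5 h6.2)])
    (P.newx s st ξ) hx1 hB1 v
  -- step 3
  have step3 : Psi (P.inst (s + 1) (P.step s st ξ)).wv (P.toPar.piv (s + 1) (P.newL s st ξ))
      ((P.inst (s + 1) (P.step s st ξ)).spn (P.toPar.sla (s + 1) (P.newL s st ξ))) v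
      (P.newx s st ξ) ≤ Psi (a5_w P s st ξ) (P.toPar.piv s (P.newL s st ξ))
      (Submodule.span ℝ (a5_w P s st ξ '' (P.toPar.sla s (P.newL s st ξ) : Set ι))) v
      (P.newx s st ξ) := by
    have hdiv : s / P.T ≤ (s + 1) / P.T := Nat.div_le_div_right (Nat.le_succ s)
    rcases hdiv.eq_or_lt with heq | hlt
    · have hw : (P.inst (s + 1) (P.step s st ξ)).wv = a5_w P s st ξ := by
        funext i
        exact a5_w_new P s st ξ i (Or.inl heq.symm)
      have h1 : P.toPar.piv (s + 1) (P.newL s st ξ) = P.toPar.piv s (P.newL s st ξ) := by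
        unfold Par.piv
        rw [← heq]
      have h2 : P.toPar.sla (s + 1) (P.newL s st ξ) = P.toPar.sla s (P.newL s st ξ) := by
        unfold Par.sla
        rw [← heq]
      unfold Par.spn
      rw [hw, h1, h2]
    · have hp2 : ∀ i ∈ P.toPar.piv (s + 1) (P.newL s st ξ),
          i ∈ P.toPar.sla s (P.newL s st ξ) := by
        intro i hi
        unfold Par.piv at hi
        unfold Par.sla
        rw [mem_filter] at hi ⊢
        exact ⟨hi.1, by rw [hi.2]; exact hlt⟩
      have hn2 : ∀ i ∈ P.toPar.sla (s + 1) (P.newL s st ξ),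
          i ∈ P.toPar.sla s (P.newL s st ξ) := by
        intro i hi
        unfold Par.sla at hi ⊢
        rw [mem_filter] at hi ⊢
        exact ⟨hi.1, lt_trans hlt hi.2⟩
      have hne : ∀ i ∈ P.toPar.sla s (P.newL s st ξ), P.c i ≠ s / P.T := by
        intro i hi h
        unfold Par.sla at hi
        rw [mem_filter] at hi
        have h1 : s / P.T < P.c i := hi.2
        omega
      have hwp : ∀ i ∈ P.toPar.piv (s + 1) (P.newL s st ξ),
          (P.inst (s + 1) (P.step s st ξ)).wv i = a5_w P s st ξ i :=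
        fun i hi => a5_w_new P s st ξ i (Or.inr (hne i (hp2 i hi)))
      have hspn : (P.inst (s + 1) (P.step s st ξ)).spn (P.toPar.sla (s + 1) (P.newL s st ξ)) =
          Submodule.span ℝ (a5_w P s st ξ '' (P.toPar.sla (s + 1) (P.newL s st ξ) : Set ι)) := by
        unfold Par.spn
        congr 1
        apply Set.image_congr
        intro i hi
        exact a5_w_new P s st ξ i (Or.inr (hne i (hn2 i (mem_coe.1 hi))))
      rw [hspn, Psi_congr_vec (a5_w P s st ξ) _ _ hwp _ v _ _ (fun _ _ => rfl)]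
      have hB3 : Bes (P.inst (s + 1) (P.step s st ξ)).wv
          (P.toPar.piv (s + 1) (P.newL s st ξ)) := by
        apply bes_of_color (P.inst (s + 1) (P.step s st ξ)) (k ^ 2) hok' _ ((s + 1) / P.T)
        intro p hp
        unfold Par.piv at hp
        exact (mem_filter.mp hp).2
      apply Psi_restart _ _ _ _ hx1 _ hB2
        (a5_bes_mono _ _ _ _ (Finset.Subset.refl _) (fun p hp => (hwp p hp).symm) hB3)
      · apply Submodule.span_mono
        apply Set.image_mono
        intro i hi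
        exact mem_coe.2 (hn2 i (mem_coe.1 hi))
      · intro p hp
        apply Submodule.subset_span
        exact ⟨p, mem_coe.2 (hp2 p hp), rfl⟩
      · intro p hp
        have h1 : |P.newx s st ξ p| < 1 - P.η := by
          apply hI'.hx
          unfold Par.piv at hp
          exact (mem_filter.mp hp).1
        linarith
  -- step 4
  have step4 := a5_sum (fun jl : κ × Fin (P.H + 1) => st.lev jl.1)
    (fun jl => P.newlev s st ξ jl.1) (fun jl => (jl.2 : ℕ))
    (fun jl => (newlev_le P s st ξ jl.1).1) (fun jl => (v (Sum.inr jl)) ^ 2)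
  rw [sum_map] at step2
  have hpot : P.pot (s + 1) (P.step s st ξ) v =
      Psi (P.inst (s + 1) (P.step s st ξ)).wv (P.toPar.piv (s + 1) (P.newL s st ξ))
      ((P.inst (s + 1) (P.step s st ξ)).spn (P.toPar.sla (s + 1) (P.newL s st ξ))) v
      (P.newx s st ξ) + 40 * ∑ jl : κ × Fin (P.H + 1),
      if P.newlev s st ξ jl.1 < (jl.2 : ℕ) then (v (Sum.inr jl)) ^ 2 else 0 := rfl
  have step2' : Psi (a5_w P s st ξ) (P.toPar.piv s (P.newL s st ξ))
      (Submodule.span ℝ (a5_w P s st ξ '' (P.toPar.sla s (P.newL s st ξ) : Set ι))) v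
      (P.newx s st ξ) ≤ Psi (P.inst s st).wv (P.toPar.piv s (P.newL s st ξ))
      ((P.inst s st).spn (P.toPar.sla s (P.newL s st ξ))) v (P.newx s st ξ) +
      40 * ∑ jl ∈ univ.filter (fun jl : κ × Fin (P.H + 1) => st.lev jl.1 < (jl.2 : ℕ) ∧
        (jl.2 : ℕ) ≤ P.newlev s st ξ jl.1), (v (Sum.inr jl)) ^ 2 := step2
  rw [hpot]
  linarith

end Pool.Agent.LibLev64
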