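import Pool.Agent.LibLev64.A6
import Pool.Agent.LibLoc73.D1

set_option autoImplicit false

/-! Task A7: exponential moments of the whole walk. Cite A4, A6, `LibLoc73.tower`,
`LibLoc73.Psi_nonpos`, `LibLoc73.Psi_ge`, `LibLoc73.inner_vec_emb`, `LibLoc73.norm_vec_sq`. Model:
`LibLoc73/D2b.lean`. -/

open Finset Pool.Agent.LibLoc73

namespace Pool.Agent.LibLev64

variable {ι κ : Type*} [Fintype ι] [Fintype κ] [DecidableEq ι]

theorem A7_run_eq (P : LPar ι κ) (ω : ℕ → ι → Bool) (s : ℕ) :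
    P.run ω s = runG P.step ⟨P.x0, P.L0, fun _ => 0, fun _ => 0, fun _ => 0⟩ ω s := by
  induction s with
  | zero => rfl
  | succ s ih => rw [LPar.run, runG, ih]

theorem A7_ext (τ : ℕ) (ω : Fin τ → ι → Bool) :
    ext τ ω = extG (fun _ => false) τ ω := rfl

/-- the remaining error budget -/
noncomputable def A7_bud (P : LPar ι κ) (τ : ℕ) (v : EuclideanSpace ℝ (ι ⊕ κ × Fin (P.H + 1)))
    (S : ℕ → ι → ℝ) (s : ℕ) : ℝ :=
  ∑ t ∈ Ico s τ, 20 * P.δ ^ 2 * ((1 - 1 / P.Lc) ^ P.r * ‖v‖ ^ 2 + ∑ i, S t i ^ 2)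

theorem A7_bud_succ (P : LPar ι κ) (τ : ℕ) (v : EuclideanSpace ℝ (ι ⊕ κ × Fin (P.H + 1)))
    (S : ℕ → ι → ℝ) (s : ℕ) (hs : s < τ) :
    A7_bud P τ v S s = 20 * P.δ ^ 2 * ((1 - 1 / P.Lc) ^ P.r * ‖v‖ ^ 2 + ∑ i, S s i ^ 2)
      + A7_bud P τ v S (s + 1) := by
  unfold A7_bud
  rw [Finset.sum_eq_sum_Ico_succ_bot hs]

theorem A7_bud_zero (P : LPar ι κ) (τ : ℕ) (v : EuclideanSpace ℝ (ι ⊕ κ × Fin (P.H + 1)))
    (S : ℕ → ι → ℝ) :
    A7_bud P τ v S 0 = 20 * P.δ ^ 2 * τ * (1 - 1 / P.Lc) ^ P.r * ‖v‖ ^ 2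
      + 20 * P.δ ^ 2 * ∑ s ∈ range τ, ∑ i, S s i ^ 2 := by
  unfold A7_bud
  rw [Nat.Ico_zero_eq_range, ← Finset.mul_sum, Finset.sum_add_distrib, Finset.sum_const,
    Finset.card_range, nsmul_eq_mul]
  ring

/-- the coordinates of the embedded increment -/
theorem A7_row (P : LPar ι κ) (ω : ℕ → ι → Bool) (s : ℕ) (jl : κ × Fin (P.H + 1)) :
    (P.inst s (P.run ω s)).row (P.U ω s) jl = M jl.2 * P.inc ω s jl.1 jl.2 := by
  unfold Par.row LPar.inc LPar.inst
  rw [Finset.mul_sum]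
  refine Finset.sum_congr rfl fun i _ => ?_
  simp only
  split_ifs
  · ring
  · ring

theorem A7_inner (P : LPar ι κ) (ω : ℕ → ι → Bool) (τ : ℕ) (θ : κ × Fin (P.H + 1) → ℝ) :
    ∑ s ∈ range τ, inner ℝ (vec (0 : ι → ℝ) θ) ((P.inst s (P.run ω s)).emb (P.U ω s)) =
      ∑ jl, θ jl * (M jl.2 * P.V ω τ jl.1 jl.2) := by
  have h1 : ∀ s, inner ℝ (vec (0 : ι → ℝ) θ) ((P.inst s (P.run ω s)).emb (P.U ω s)) =
      ∑ jl, θ jl * (M jl.2 * P.inc ω s jl.1 jl.2) := by
    intro s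
    rw [inner_vec_emb]
    have h2 : ∑ i, (0 : ι → ℝ) i * P.U ω s i = 0 := by simp
    rw [h2, zero_add]
    refine Finset.sum_congr rfl fun jl _ => ?_
    rw [A7_row]
  simp only [h1]
  rw [Finset.sum_comm]
  refine Finset.sum_congr rfl fun jl _ => ?_
  unfold LPar.V
  rw [← Finset.mul_sum, ← Finset.mul_sum]

/-- with `v = vec 0 θ`: `⟨v, emb_s (U s)⟩ = ∑_{jl} θ_jl M_l inc_s j l`; `pot 0 ≤ 40 |θ|²` and
`pot τ ≥ - 40 |θ|²` -/
theorem exp_moment (P : LPar ι κ) (k : ℕ) (hP : P.Ok k) (τ : ℕ)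
    (hr : 20 * P.δ ^ 2 * τ * (1 - 1 / P.Lc) ^ P.r ≤ 1)
    (θ : κ × Fin (P.H + 1) → ℝ) (S : ℕ → ι → ℝ) :
    ∑ ω : Fin τ → ι → Bool, Real.exp
        (∑ jl, θ jl * (M jl.2 * P.V (ext τ ω) τ jl.1 jl.2)
          + ∑ s ∈ range τ, ∑ i ∈ P.toPar.sla s (P.run (ext τ ω) s).L,
              S s i * P.U (ext τ ω) s i)
      ≤ (2 ^ Fintype.card ι) ^ τ * Real.exp
          (81 * ∑ jl, θ jl ^ 2 + 20 * P.δ ^ 2 * ∑ s ∈ range τ, ∑ i, S s i ^ 2) := by
  set v : EuclideanSpace ℝ (ι ⊕ κ × Fin (P.H + 1)) := vec (0 : ι → ℝ) θ with hv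
  have hvn : ‖v‖ ^ 2 = ∑ jl, θ jl ^ 2 := by
    rw [hv, norm_vec_sq]
    simp
  have hη0 : 0 < P.η := lt_of_lt_of_le hP.hB.hδ hP.hB.hδη
  have hcard : (Fintype.card (ι → Bool) : ℝ) = 2 ^ Fintype.card ι := by
    rw [Fintype.card_fun, Fintype.card_bool]
    push_cast
    rfl
  have hbes : ∀ s (st : LSt ι κ), P.Inv st → Bes (P.inst s st).wv (P.toPar.piv s st.L) :=
    fun s st hst => bes_of_color (P.inst s st) (k ^ 2) (inst_ok P k hP s st hst) _ (s / P.T)
      fun p hp => by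
        simp only [Par.piv, Finset.mem_filter] at hp
        exact hp.2
  have hInvx : ∀ (st : LSt ι κ), P.Inv st → ∀ s, ∀ p ∈ P.toPar.piv s st.L,
      |st.x p| ≤ 1 := by
    intro st hst s p hp
    simp only [Par.piv, Finset.mem_filter] at hp
    have := hst.hx p hp.1
    linarith
  set st0 : LSt ι κ := ⟨P.x0, P.L0, fun _ => 0, fun _ => 0, fun _ => 0⟩ with hst0
  have hInv0 : P.Inv st0 := inv_run P k hP (fun _ _ => false) 0
  -- bounds of the potential
  have hlive : ∀ (st : LSt ι κ), 0 ≤ ∑ jl : κ × Fin (P.H + 1),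
      (if st.lev jl.1 < (jl.2 : ℕ) then (v (Sum.inr jl)) ^ 2 else 0) := by
    intro st
    refine Finset.sum_nonneg fun jl _ => ?_
    split_ifs
    · exact sq_nonneg _
    · exact le_rfl
  have hlive2 : ∀ (st : LSt ι κ), ∑ jl : κ × Fin (P.H + 1),
      (if st.lev jl.1 < (jl.2 : ℕ) then (v (Sum.inr jl)) ^ 2 else 0) ≤ ∑ jl, θ jl ^ 2 := by
    intro st
    refine Finset.sum_le_sum fun jl _ => ?_
    have : v (Sum.inr jl) = θ jl := by
      rw [hv]
      simp [vec]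
    rw [this]
    split_ifs
    · exact le_rfl
    · exact sq_nonneg _
  have key := tower (S := LSt ι κ) (Ξ := ι → Bool) (fun _ => false) P.step st0
    (fun _ st => P.Inv st) hInv0 (fun s st ξ h => inv_step P s st ξ h)
    (fun s st ξ => inner ℝ v ((P.inst s st).emb (P.upd s st ξ))
      + ∑ i ∈ P.toPar.sla s st.L, S s i * P.upd s st ξ i)
    (fun s st => P.pot s st v + A7_bud P τ v S s) τ
    (by
      intro s hs st hst
      have h1 := pot_step P k hP s st hst v (S s)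
      have h2 : ∀ ξ : ι → Bool, Real.exp (inner ℝ v ((P.inst s st).emb (P.upd s st ξ))
          + ∑ i ∈ P.toPar.sla s st.L, S s i * P.upd s st ξ i
          + (P.pot (s + 1) (P.step s st ξ) v + A7_bud P τ v S (s + 1))) =
          Real.exp (inner ℝ v ((P.inst s st).emb (P.upd s st ξ))
          + ∑ i ∈ P.toPar.sla s st.L, S s i * P.upd s st ξ i
          + P.pot (s + 1) (P.step s st ξ) v) *
            Real.exp (A7_bud P τ v S (s + 1)) := by
        intro ξ
        rw [← Real.exp_add]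
        congr 1
        ring
      simp only [h2]
      rw [← Finset.sum_mul, hcard, A7_bud_succ P τ v S s hs]
      calc _ ≤ (2 ^ Fintype.card ι * Real.exp (P.pot s st v
          + 20 * P.δ ^ 2 * ((1 - 1 / P.Lc) ^ P.r * ‖v‖ ^ 2 + ∑ i, S s i ^ 2))) *
            Real.exp (A7_bud P τ v S (s + 1)) :=
            mul_le_mul_of_nonneg_right h1 (Real.exp_pos _).le
        _ = _ := by
            rw [mul_assoc, ← Real.exp_add]
            congr 2
            ring)
  rw [hcard] at key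
  -- the invariant along the run
  have hInvRun : ∀ (ω : ℕ → ι → Bool) (s : ℕ), P.Inv (runG P.step st0 ω s) := by
    intro ω s
    induction s with
    | zero => exact hInv0
    | succ s ih => exact inv_step P s _ _ ih
  -- lower bound of the final potential
  have hlow : ∀ ω : Fin τ → ι → Bool, Real.exp
        (∑ jl, θ jl * (M jl.2 * P.V (ext τ ω) τ jl.1 jl.2)
          + ∑ s ∈ range τ, ∑ i ∈ P.toPar.sla s (P.run (ext τ ω) s).L,
              S s i * P.U (ext τ ω) s i) ≤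
      Real.exp (40 * ‖v‖ ^ 2) * Real.exp (∑ s ∈ range τ,
        (fun s (st : LSt ι κ) (ξ : ι → Bool) => inner ℝ v ((P.inst s st).emb (P.upd s st ξ))
      + ∑ i ∈ P.toPar.sla s st.L, S s i * P.upd s st ξ i) s
          (runG P.step st0 (extG (fun _ => false) τ ω) s)
          (extG (fun _ => false) τ ω s)
        + (fun s (st : LSt ι κ) => P.pot s st v + A7_bud P τ v S s) τ
          (runG P.step st0 (extG (fun _ => false) τ ω) τ)) := by
    intro ω
    rw [← Real.exp_add, Real.exp_le_exp]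
    have h1 := Psi_ge (P.inst τ (runG P.step st0 (extG (fun _ => false) τ ω) τ)).wv
      (P.toPar.piv τ (runG P.step st0 (extG (fun _ => false) τ ω) τ).L)
      (runG P.step st0 (extG (fun _ => false) τ ω) τ).x
      (hInvx _ (hInvRun _ τ) τ) (hbes _ _ (hInvRun _ τ))
      ((P.inst τ (runG P.step st0 (extG (fun _ => false) τ ω) τ)).spn
        (P.toPar.sla τ (runG P.step st0 (extG (fun _ => false) τ ω) τ).L)) v
    have h1' : -40 * ‖v‖ ^ 2 ≤ P.pot τ (runG P.step st0 (extG (fun _ => false) τ ω) τ) v := by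
      unfold LPar.pot
      have := hlive (runG P.step st0 (extG (fun _ => false) τ ω) τ)
      linarith
    have h2 : A7_bud P τ v S τ = 0 := by
      unfold A7_bud
      rw [Finset.Ico_self, Finset.sum_empty]
    have h3 : ∑ jl, θ jl * (M jl.2 * P.V (ext τ ω) τ jl.1 jl.2)
          + ∑ s ∈ range τ, ∑ i ∈ P.toPar.sla s (P.run (ext τ ω) s).L,
              S s i * P.U (ext τ ω) s i =
        ∑ s ∈ range τ,
        (fun s (st : LSt ι κ) (ξ : ι → Bool) => inner ℝ v ((P.inst s st).emb (P.upd s st ξ))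
      + ∑ i ∈ P.toPar.sla s st.L, S s i * P.upd s st ξ i) s
          (runG P.step st0 (extG (fun _ => false) τ ω) s)
          (extG (fun _ => false) τ ω s) := by
      rw [← A7_inner, ← Finset.sum_add_distrib]
      refine Finset.sum_congr rfl fun s _ => ?_
      simp only [LPar.U]
      rw [A7_ext, A7_run_eq]
    rw [h3]
    simp only at h1' ⊢
    rw [h2]
    linarith
  have hΦ0 : P.pot 0 st0 v ≤ 40 * ∑ jl, θ jl ^ 2 := by
    have h1 := Psi_nonpos (P.inst 0 st0).wv (P.toPar.piv 0 st0.L) st0.x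
      (hInvx st0 hInv0 0) (hbes _ _ hInv0) ((P.inst 0 st0).spn (P.toPar.sla 0 st0.L)) v
    have h2 := hlive2 st0
    unfold LPar.pot
    linarith
  calc _ ≤ ∑ ω : Fin τ → ι → Bool, Real.exp (40 * ‖v‖ ^ 2) * Real.exp (∑ s ∈ range τ,
        (fun s (st : LSt ι κ) (ξ : ι → Bool) => inner ℝ v ((P.inst s st).emb (P.upd s st ξ))
      + ∑ i ∈ P.toPar.sla s st.L, S s i * P.upd s st ξ i) s
          (runG P.step st0 (extG (fun _ => false) τ ω) s)
          (extG (fun _ => false) τ ω s)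
        + (fun s (st : LSt ι κ) => P.pot s st v + A7_bud P τ v S s) τ
          (runG P.step st0 (extG (fun _ => false) τ ω) τ)) :=
        Finset.sum_le_sum fun ω _ => hlow ω
    _ ≤ Real.exp (40 * ‖v‖ ^ 2) * ((2 ^ Fintype.card ι) ^ τ * Real.exp
        (P.pot 0 st0 v + A7_bud P τ v S 0)) := by
        rw [← Finset.mul_sum]
        exact mul_le_mul_of_nonneg_left key (Real.exp_pos _).le
    _ = (2 ^ Fintype.card ι) ^ τ * Real.exp (40 * ‖v‖ ^ 2 +
        (P.pot 0 st0 v + A7_bud P τ v S 0)) := by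
        rw [Real.exp_add (40 * ‖v‖ ^ 2)]
        ring
    _ ≤ _ := by
        refine mul_le_mul_of_nonneg_left (Real.exp_le_exp.2 ?_) (by positivity)
        rw [A7_bud_zero, hvn]
        have h4 : 20 * P.δ ^ 2 * τ * (1 - 1 / P.Lc) ^ P.r * ∑ jl, θ jl ^ 2 ≤
            1 * ∑ jl, θ jl ^ 2 :=
          mul_le_mul_of_nonneg_right hr (Finset.sum_nonneg fun _ _ => sq_nonneg _)
        linarith

end Pool.Agent.LibLev64
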