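import Pool.Agent.LibLev64.A7
import Pool.Agent.LibLev64.B1
import Pool.Agent.LibLev64.C2

set_option autoImplicit false

/-! Task B2: joint tail of level changes and big steps. Cite A1, A7, B1, C2 (`V_top`). -/

open Finset Pool.Agent.LibLoc73

namespace Pool.Agent.LibLev64

variable {ι κ : Type*} [Fintype ι] [Fintype κ] [DecidableEq ι]

private theorem B2_M (l : ℕ) : M (l + 1) = 2 * M l := by
  unfold M
  rw [pow_succ]
  ring

private theorem B2_Mpos (l : ℕ) : 0 < M l := by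
  unfold M
  positivity

/-- shifted coefficients -/
private noncomputable def B2_sh (a : ℕ → ℝ) (l : ℕ) : ℝ := a l - if l = 0 then 0 else a (l - 1) / 2

private theorem B2_abel (a V : ℕ → ℝ) (n : ℕ) :
    ∑ l ∈ range (n + 1), a l * (M l * (V l - V (l + 1))) =
      (∑ l ∈ range (n + 1), B2_sh a l * (M l * V l)) - a n * M n * V (n + 1) := by
  induction n with
  | zero =>
    rw [zero_add, Finset.sum_range_one, Finset.sum_range_one]
    unfold B2_sh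
    rw [if_pos rfl]
    ring
  | succ n ih =>
    rw [Finset.sum_range_succ, ih, Finset.sum_range_succ (fun l => B2_sh a l * (M l * V l)) (n + 1)]
    have h1 : B2_sh a (n + 1) = a (n + 1) - a n / 2 := by
      unfold B2_sh
      rw [if_neg (Nat.succ_ne_zero n), Nat.add_sub_cancel]
    rw [h1, B2_M n]
    ring

private theorem B2_sq (a : ℕ → ℝ) (n : ℕ) :
    ∑ l ∈ range (n + 1), B2_sh a l ^ 2 ≤
      2 * ∑ l ∈ range (n + 1), a l ^ 2 + 1 / 2 * ∑ l ∈ range n, a l ^ 2 := by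
  induction n with
  | zero =>
    rw [zero_add, Finset.sum_range_one, Finset.sum_range_one, Finset.sum_range_zero]
    unfold B2_sh
    rw [if_pos rfl]
    nlinarith [sq_nonneg (a 0)]
  | succ n ih =>
    rw [Finset.sum_range_succ, Finset.sum_range_succ (fun l => a l ^ 2) (n + 1),
      Finset.sum_range_succ (fun l => a l ^ 2) n]
    have h1 : B2_sh a (n + 1) = a (n + 1) - a n / 2 := by
      unfold B2_sh
      rw [if_neg (Nat.succ_ne_zero n), Nat.add_sub_cancel]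
    rw [h1]
    rw [Finset.sum_range_succ (fun l => a l ^ 2) n] at ih
    nlinarith [sq_nonneg (a (n + 1) + a n / 2)]

private theorem B2_sq' (a : ℕ → ℝ) (n : ℕ) :
    ∑ l ∈ range (n + 1), B2_sh a l ^ 2 ≤ 5 / 2 * ∑ l ∈ range (n + 1), a l ^ 2 := by
  have h1 := B2_sq a n
  have h2 : ∑ l ∈ range n, a l ^ 2 ≤ ∑ l ∈ range (n + 1), a l ^ 2 := by
    rw [Finset.sum_range_succ]
    nlinarith [sq_nonneg (a n)]
  linarith

/-- extension by zero -/
private noncomputable def B2_th {H : ℕ} (θ : κ × Fin (H + 1) → ℝ) (j : κ) (l : ℕ) : ℝ :=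
  if h : l < H + 1 then θ (j, ⟨l, h⟩) else 0

omit [Fintype κ] in
private theorem B2_th_eq {H : ℕ} (θ : κ × Fin (H + 1) → ℝ) (jl : κ × Fin (H + 1)) :
    B2_th θ jl.1 jl.2 = θ jl := by
  unfold B2_th
  rw [dif_pos jl.2.isLt]

/-- exponential moments of `R_jl = M_l (V_jl - V_{j,l+1})`, `V_{j,H+1} = 0`:
`∑ θ_jl R_jl = ∑ θ'_jl M_l V_jl` with `θ'_jl = θ_jl - θ_{j,l-1}/2` (for `l ≥ 1`), `∑ θ'² ≤ (5/2) ∑ θ²` -/
theorem exp_moment_diff (P : LPar ι κ) (k : ℕ) (hP : P.Ok k) (τ : ℕ)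
    (hr : 20 * P.δ ^ 2 * τ * (1 - 1 / P.Lc) ^ P.r ≤ 1)
    (θ : κ × Fin (P.H + 1) → ℝ) (S : ℕ → ι → ℝ) :
    ∑ ω : Fin τ → ι → Bool, Real.exp
        (∑ jl, θ jl * (M jl.2 * (P.V (ext τ ω) τ jl.1 jl.2 - P.V (ext τ ω) τ jl.1 (jl.2 + 1)))
          + ∑ s ∈ range τ, ∑ i ∈ P.toPar.sla s (P.run (ext τ ω) s).L,
              S s i * P.U (ext τ ω) s i)
      ≤ (2 ^ Fintype.card ι) ^ τ * Real.exp
          (405 / 2 * ∑ jl, θ jl ^ 2 + 20 * P.δ ^ 2 * ∑ s ∈ range τ, ∑ i, S s i ^ 2) := by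
  set θ' : κ × Fin (P.H + 1) → ℝ := fun jl => B2_sh (B2_th θ jl.1) jl.2 with hθ'
  have h1 := exp_moment P k hP τ hr θ' S
  have h2 : ∀ ω : Fin τ → ι → Bool,
      ∑ jl : κ × Fin (P.H + 1), θ jl * (M jl.2 *
        (P.V (ext τ ω) τ jl.1 jl.2 - P.V (ext τ ω) τ jl.1 (jl.2 + 1))) =
      ∑ jl, θ' jl * (M jl.2 * P.V (ext τ ω) τ jl.1 jl.2) := by
    intro ω
    rw [Fintype.sum_prod_type, Fintype.sum_prod_type]
    refine Finset.sum_congr rfl fun j _ => ?_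
    have e1 : ∑ y : Fin (P.H + 1), θ (j, y) * (M ((j, y) : κ × Fin (P.H + 1)).2 *
        (P.V (ext τ ω) τ ((j, y) : κ × Fin (P.H + 1)).1 ((j, y) : κ × Fin (P.H + 1)).2 -
          P.V (ext τ ω) τ ((j, y) : κ × Fin (P.H + 1)).1
            (((j, y) : κ × Fin (P.H + 1)).2 + 1))) =
        ∑ l ∈ range (P.H + 1), B2_th θ j l *
          (M l * (P.V (ext τ ω) τ j l - P.V (ext τ ω) τ j (l + 1))) := by
      rw [← Fin.sum_univ_eq_sum_range (fun l => B2_th θ j l *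
          (M l * (P.V (ext τ ω) τ j l - P.V (ext τ ω) τ j (l + 1)))) (P.H + 1)]
      refine Finset.sum_congr rfl fun y _ => ?_
      rw [← B2_th_eq θ (j, y)]
    have e2 : ∑ y : Fin (P.H + 1), θ' (j, y) * (M ((j, y) : κ × Fin (P.H + 1)).2 *
        P.V (ext τ ω) τ ((j, y) : κ × Fin (P.H + 1)).1 ((j, y) : κ × Fin (P.H + 1)).2) =
        ∑ l ∈ range (P.H + 1), B2_sh (B2_th θ j) l * (M l * P.V (ext τ ω) τ j l) := by
      rw [← Fin.sum_univ_eq_sum_range (fun l => B2_sh (B2_th θ j) l *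
          (M l * P.V (ext τ ω) τ j l)) (P.H + 1)]
    rw [e1, e2, B2_abel, V_top P k hP, mul_zero, sub_zero]
  have h3 : ∑ jl, θ' jl ^ 2 ≤ 5 / 2 * ∑ jl, θ jl ^ 2 := by
    rw [Fintype.sum_prod_type, Fintype.sum_prod_type, Finset.mul_sum]
    refine Finset.sum_le_sum fun j _ => ?_
    have e1 : ∑ y : Fin (P.H + 1), θ' (j, y) ^ 2 =
        ∑ l ∈ range (P.H + 1), B2_sh (B2_th θ j) l ^ 2 := by
      rw [← Fin.sum_univ_eq_sum_range (fun l => B2_sh (B2_th θ j) l ^ 2) (P.H + 1)]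
    have e2 : ∑ y : Fin (P.H + 1), θ (j, y) ^ 2 = ∑ l ∈ range (P.H + 1), B2_th θ j l ^ 2 := by
      rw [← Fin.sum_univ_eq_sum_range (fun l => B2_th θ j l ^ 2) (P.H + 1)]
      refine Finset.sum_congr rfl fun y _ => ?_
      rw [← B2_th_eq θ (j, y)]
    rw [e1, e2]
    exact B2_sq' _ _
  simp_rw [h2]
  refine h1.trans ?_
  apply mul_le_mul_of_nonneg_left _ (by positivity)
  apply Real.exp_le_exp.2
  linarith

open Classical in
/-- `joint_abs` with `R_jl = M_l (V_jl - V_{j,l+1})`, `b_jl = M_l E_l`, `A = 405/2` -/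
theorem joint_tail (P : LPar ι κ) (k : ℕ) (hP : P.Ok k) (τ : ℕ)
    (hr : 20 * P.δ ^ 2 * τ * (1 - 1 / P.Lc) ^ P.r ≤ 1)
    (J : Finset (κ × Fin (P.H + 1))) (Z : Finset ι) :
    (((univ : Finset (Fin τ → ι → Bool)).filter (fun ω =>
        (∀ jl ∈ J, P.Up (ext τ ω) τ jl.1 jl.2) ∧ ∀ z ∈ Z, P.IsBig (ext τ ω) τ z)).card : ℝ)
      ≤ (2 ^ Fintype.card ι) ^ τ * ((∏ jl ∈ J, P.qq jl.2)
          * (2 * τ * Real.exp (-(P.η ^ 2 / (80 * P.δ ^ 2)))) ^ Z.card) := by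
  have hδ := hP.hB.hδ
  have hη : 0 < P.η := lt_of_lt_of_le hδ hP.hB.hδη
  have h1 := joint_abs (Ω := Fin τ → ι → Bool) (ι := ι) (σ := κ × Fin (P.H + 1))
    ((2 ^ Fintype.card ι) ^ τ) (405 / 2) P.δ P.η (by positivity) (by norm_num) hδ hη τ
    (fun jl ω => M jl.2 * (P.V (ext τ ω) τ jl.1 jl.2 - P.V (ext τ ω) τ jl.1 (jl.2 + 1)))
    (fun jl => M jl.2 * P.E jl.2) (fun jl => mul_pos (B2_Mpos _) (hP.hE _))
    (fun s ω => P.toPar.sla s (P.run (ext τ ω) s).L) (fun s i ω => P.U (ext τ ω) s i)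
    (fun θ S => exp_moment_diff P k hP τ hr θ S) J Z
  refine le_trans ?_ (h1.trans (le_of_eq ?_))
  · apply Nat.cast_le.2
    apply Finset.card_le_card
    intro ω hω
    simp only [Finset.mem_filter, Finset.mem_univ, true_and] at hω ⊢
    obtain ⟨h2, h3⟩ := hω
    refine ⟨fun jl hjl => ?_, fun z hz => ?_⟩
    · have h4 : P.E jl.2 ≤ |P.V (ext τ ω) τ jl.1 jl.2 - P.V (ext τ ω) τ jl.1 (jl.2 + 1)| :=
        h2 jl hjl
      show M jl.2 * P.E jl.2 ≤ |M jl.2 *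
        (P.V (ext τ ω) τ jl.1 jl.2 - P.V (ext τ ω) τ jl.1 (jl.2 + 1))|
      rw [abs_mul, abs_of_pos (B2_Mpos _)]
      exact mul_le_mul_of_nonneg_left h4 (B2_Mpos _).le
    · obtain ⟨t, ht, h4⟩ := h3 z hz
      unfold LPar.big at h4
      rw [Finset.mem_filter] at h4
      exact ⟨t, ht, h4.1, h4.2⟩
  · congr 2
    refine Finset.prod_congr rfl fun jl _ => ?_
    unfold LPar.qq
    congr 3
    ring

end Pool.Agent.LibLev64
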