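import Pool.Agent.LibLev64.Defs

set_option autoImplicit false

/-! Task B6: joint probability of a set of causes. Model: `LibLoc73/E4.lean` (two types instead of
three). -/

open Finset Pool.Agent.LibLoc73

namespace Pool.Agent.LibLev64

variable {ι κ : Type*} [Fintype ι] [Fintype κ] [DecidableEq ι]

open Classical in
/-- Split `S` into rows `J` and variables `Z'`; union over the functions `Z' → {confined, big, budget}`;
`|X ∩ Y| ≤ √(|X| |Y|)` for the confined ones against the others; the sum over the functions is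
`(√pa + √pb + √pe)^{|Z'|}`. -/
theorem cause_prob (P : LPar ι κ) (τ : ℕ) (pa pb pc pe : ℝ) (hpa : 0 ≤ pa) (hpb : 0 ≤ pb)
    (hpc : 0 ≤ pc) (hpe : 0 ≤ pe)
    (hA : ∀ A : Finset ι, (((univ : Finset (Fin τ → ι → Bool)).filter (fun ω =>
        ∀ z ∈ A, P.toPar.Conf (ext τ ω) z)).card : ℝ) ≤ (2 ^ Fintype.card ι) ^ τ * pa ^ A.card)
    (hJ : ∀ (J : Finset κ) (Z I : Finset ι),
      (∀ z ∈ I, ∀ z' ∈ I, z ≠ z' → z' ∉ P.toPar.nb z) →
      (((univ : Finset (Fin τ → ι → Bool)).filter (fun ω =>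
        (∀ j ∈ J, P.Up (ext τ ω) τ j P.H) ∧ (∀ z ∈ Z, P.IsBig (ext τ ω) τ z)
          ∧ ∀ z ∈ I, P.Bud (ext τ ω) τ z)).card : ℝ)
      ≤ (2 ^ Fintype.card ι) ^ τ * (pc ^ J.card * pb ^ Z.card * pe ^ I.card))
    (S : Finset (κ ⊕ ι)) (hS : P.NC S) :
    (((univ : Finset (Fin τ → ι → Bool)).filter (fun ω =>
        ∀ h ∈ S, P.Cause (ext τ ω) τ h)).card : ℝ)
      ≤ (2 ^ Fintype.card ι) ^ τ * (√pa + √pb + √pc + √pe) ^ S.card := by
  set J : Finset κ := S.toLeft with hJdef
  set X : Finset ι := S.toRight with hXdef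
  set M : ℝ := (2 ^ Fintype.card ι) ^ τ with hM
  have hM0 : 0 ≤ M := by positivity
  -- the pieces
  set E : Finset ι → Finset ι → Finset (Fin τ → ι → Bool) := fun A B =>
    (univ : Finset (Fin τ → ι → Bool)).filter (fun ω => (∀ z ∈ A, P.toPar.Conf (ext τ ω) z) ∧
      (∀ j ∈ J, P.Up (ext τ ω) τ j P.H) ∧ (∀ z ∈ B, P.IsBig (ext τ ω) τ z)
          ∧ ∀ z ∈ (X \ A) \ B, P.Bud (ext τ ω) τ z) with hE
  have hsub : (univ : Finset (Fin τ → ι → Bool)).filter (fun ω =>
        ∀ h ∈ S, P.Cause (ext τ ω) τ h) ⊆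
        X.powerset.biUnion (fun A => (X \ A).powerset.biUnion (fun B => E A B)) := by
    intro ω hω
    have h1 := (Finset.mem_filter.1 hω).2
    rw [Finset.mem_biUnion]
    refine ⟨X.filter (fun z => P.toPar.Conf (ext τ ω) z),
      Finset.mem_powerset.2 (Finset.filter_subset _ _), ?_⟩
    rw [Finset.mem_biUnion]
    refine ⟨(X \ X.filter (fun z => P.toPar.Conf (ext τ ω) z)).filter
      (fun z => P.IsBig (ext τ ω) τ z), Finset.mem_powerset.2 (Finset.filter_subset _ _), ?_⟩
    rw [hE]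
    refine Finset.mem_filter.2 ⟨Finset.mem_univ _, ?_, ?_, ?_, ?_⟩
    · intro z hz
      exact (Finset.mem_filter.1 hz).2
    · intro j hj
      exact h1 (Sum.inl j) (Finset.mem_toLeft.1 hj)
    · intro z hz
      exact (Finset.mem_filter.1 hz).2
    · intro z hz
      rw [Finset.mem_sdiff] at hz
      have hz1 := hz.1
      rw [Finset.mem_sdiff, Finset.mem_filter] at hz1
      have h2 : P.IsBig (ext τ ω) τ z ∨ P.toPar.Conf (ext τ ω) z ∨ P.Bud (ext τ ω) τ z :=
        h1 (Sum.inr z) (Finset.mem_toRight.1 hz1.1)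
      rcases h2 with h2 | h2 | h2
      · exact absurd (Finset.mem_filter.2 ⟨hz.1, h2⟩) hz.2
      · exact absurd ⟨hz1.1, h2⟩ hz1.2
      · exact h2
  have hpiece : ∀ A ∈ X.powerset, ∀ B ∈ (X \ A).powerset, ((E A B).card : ℝ) ≤
      M * √pc ^ J.card * √pa ^ A.card * (√pb ^ B.card * √pe ^ ((X \ A).card - B.card)) := by
    intro A hAX B hB
    have hAX' := Finset.mem_powerset.1 hAX
    have hB' := Finset.mem_powerset.1 hB
    have h1 : ((E A B).card : ℝ) ≤ M * pa ^ A.card := by
      refine le_trans ?_ (hA A)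
      have : (E A B).card ≤ ((univ : Finset (Fin τ → ι → Bool)).filter (fun ω =>
        ∀ z ∈ A, P.toPar.Conf (ext τ ω) z)).card := by
        apply Finset.card_le_card
        intro ω hω
        exact Finset.mem_filter.2 ⟨Finset.mem_univ _, (Finset.mem_filter.1 hω).2.1⟩
      exact_mod_cast this
    have h2 : ((E A B).card : ℝ) ≤
        M * (pc ^ J.card * pb ^ B.card * pe ^ ((X \ A) \ B).card) := by
      refine le_trans ?_ (hJ J B ((X \ A) \ B) ?_)
      · have : (E A B).card ≤ ((univ : Finset (Fin τ → ι → Bool)).filter (fun ω =>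
          (∀ j ∈ J, P.Up (ext τ ω) τ j P.H) ∧ (∀ z ∈ B, P.IsBig (ext τ ω) τ z)
            ∧ ∀ z ∈ (X \ A) \ B, P.Bud (ext τ ω) τ z)).card := by
          apply Finset.card_le_card
          intro ω hω
          exact Finset.mem_filter.2 ⟨Finset.mem_univ _, (Finset.mem_filter.1 hω).2.2⟩
        exact_mod_cast this
      · intro z hz z' hz' hne
        have hz1 := (Finset.mem_sdiff.1 (Finset.mem_sdiff.1 hz).1).1
        have hz2 := (Finset.mem_sdiff.1 (Finset.mem_sdiff.1 hz').1).1
        exact hS z z' (Finset.mem_toRight.1 hz1) (Finset.mem_toRight.1 hz2) hne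
    rw [Finset.card_sdiff_of_subset hB'] at h2
    have h3 : (M * √pc ^ J.card * √pa ^ A.card *
        (√pb ^ B.card * √pe ^ ((X \ A).card - B.card))) ^ 2 =
        (M * pa ^ A.card) * (M * (pc ^ J.card * pb ^ B.card * pe ^ ((X \ A).card - B.card))) := by
      have e1 : (√pa ^ A.card) ^ 2 = pa ^ A.card := by
        rw [← pow_mul, mul_comm, pow_mul, Real.sq_sqrt hpa]
      have e2 : (√pb ^ B.card) ^ 2 = pb ^ B.card := by
        rw [← pow_mul, mul_comm, pow_mul, Real.sq_sqrt hpb]
      have e3 : (√pc ^ J.card) ^ 2 = pc ^ J.card := by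
        rw [← pow_mul, mul_comm, pow_mul, Real.sq_sqrt hpc]
      have e4 : (√pe ^ ((X \ A).card - B.card)) ^ 2 = pe ^ ((X \ A).card - B.card) := by
        rw [← pow_mul, mul_comm, pow_mul, Real.sq_sqrt hpe]
      calc (M * √pc ^ J.card * √pa ^ A.card *
          (√pb ^ B.card * √pe ^ ((X \ A).card - B.card))) ^ 2
          = M ^ 2 * (√pc ^ J.card) ^ 2 * (√pa ^ A.card) ^ 2 * ((√pb ^ B.card) ^ 2 *
              (√pe ^ ((X \ A).card - B.card)) ^ 2) := by
            ring
        _ = _ := by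
            rw [e1, e2, e3, e4]
            ring
    have h4 : 0 ≤ M * √pc ^ J.card * √pa ^ A.card *
        (√pb ^ B.card * √pe ^ ((X \ A).card - B.card)) := by positivity
    apply le_of_sq_le_sq _ h4
    rw [h3, sq]
    exact mul_le_mul h1 h2 (Nat.cast_nonneg _) ((Nat.cast_nonneg _).trans h1)
  have h5 : (((univ : Finset (Fin τ → ι → Bool)).filter (fun ω =>
        ∀ h ∈ S, P.Cause (ext τ ω) τ h)).card : ℝ) ≤
        ∑ A ∈ X.powerset, ∑ B ∈ (X \ A).powerset, ((E A B).card : ℝ) := by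
    have h6 : ((univ : Finset (Fin τ → ι → Bool)).filter (fun ω =>
        ∀ h ∈ S, P.Cause (ext τ ω) τ h)).card ≤
        ∑ A ∈ X.powerset, ∑ B ∈ (X \ A).powerset, (E A B).card := by
      refine (Finset.card_le_card hsub).trans (Finset.card_biUnion_le.trans ?_)
      exact Finset.sum_le_sum fun A _ => Finset.card_biUnion_le
    exact_mod_cast h6
  have h7 : ∑ A ∈ X.powerset, ∑ B ∈ (X \ A).powerset, ((E A B).card : ℝ) ≤
      M * √pc ^ J.card * (√pa + (√pb + √pe)) ^ X.card := by
    calc _ ≤ ∑ A ∈ X.powerset, ∑ B ∈ (X \ A).powerset,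
          M * √pc ^ J.card * √pa ^ A.card * (√pb ^ B.card * √pe ^ ((X \ A).card - B.card)) :=
          Finset.sum_le_sum fun A hA' => Finset.sum_le_sum fun B hB' => hpiece A hA' B hB'
      _ = ∑ A ∈ X.powerset, M * √pc ^ J.card * (√pa ^ A.card *
            (√pb + √pe) ^ (X.card - A.card)) := by
          apply Finset.sum_congr rfl
          intro A hA'
          rw [← Finset.mul_sum, Finset.sum_pow_mul_eq_add_pow,
            Finset.card_sdiff_of_subset (Finset.mem_powerset.1 hA')]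
          ring
      _ = _ := by
          rw [← Finset.mul_sum, Finset.sum_pow_mul_eq_add_pow]
  refine h5.trans (h7.trans ?_)
  have hcard : S.card = J.card + X.card := (Finset.card_toLeft_add_card_toRight).symm
  rw [hcard, pow_add, mul_assoc]
  apply mul_le_mul_of_nonneg_left _ hM0
  have s1 := Real.sqrt_nonneg pa
  have s2 := Real.sqrt_nonneg pb
  have s3 := Real.sqrt_nonneg pc
  have s4 := Real.sqrt_nonneg pe
  apply mul_le_mul
  · exact pow_le_pow_left₀ s3 (by linarith) _
  · exact pow_le_pow_left₀ (by linarith) (by linarith) _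
  · positivity
  · positivity

end Pool.Agent.LibLev64
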