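import Pool.Agent.LibLev64.A4
import Pool.Agent.LibLoc73.I1

set_option autoImplicit false

/-! Task C1: deterministic properties of the walk, part 1. Cite A4, `LibLoc73.upd_of_notMem`. -/

open Finset Pool.Agent.LibLoc73

namespace Pool.Agent.LibLev64

variable {ι κ : Type*} [Fintype ι] [Fintype κ] [DecidableEq ι]

theorem run_L_subset (P : LPar ι κ) (ω : ℕ → ι → Bool) {s t : ℕ} (h : s ≤ t) :
    (P.run ω t).L ⊆ (P.run ω s).L := by
  induction t, h using Nat.le_induction with
  | base => exact Finset.Subset.refl _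
  | succ n _ ih => exact (newL_subset P n (P.run ω n) (ω n)).trans ih

theorem lev_mono (P : LPar ι κ) (ω : ℕ → ι → Bool) {s t : ℕ} (h : s ≤ t) (j : κ) :
    (P.run ω s).lev j ≤ (P.run ω t).lev j := by
  induction t, h using Nat.le_induction with
  | base => exact le_refl _
  | succ n _ ih => exact ih.trans (newlev_le P n (P.run ω n) (ω n) j).1

private theorem C1_upd (P : LPar ι κ) (s : ℕ) (st : LSt ι κ) (ξ : ι → Bool) (i : ι)
    (h2 : i ∉ P.toPar.sla s st.L) :
    P.upd s st ξ i = if i ∈ P.toPar.piv s st.L then P.δ * sgn (ξ i) else 0 :=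
  upd_of_notMem (P.inst s st) s st.L ξ i h2

/-- a variable that is neither pivot nor slave has virtual increment `0` -/
theorem upd_zero (P : LPar ι κ) (s : ℕ) (st : LSt ι κ) (ξ : ι → Bool) (i : ι)
    (h1 : i ∉ P.toPar.piv s st.L) (h2 : i ∉ P.toPar.sla s st.L) : P.upd s st ξ i = 0 := by
  rw [C1_upd P s st ξ i h2, if_neg h1]

omit [Fintype ι] [Fintype κ] [DecidableEq ι] in
private theorem C1_piv_notMem_sla (P : LPar ι κ) (s : ℕ) (L : Finset ι) {p : ι}
    (hp : p ∈ P.toPar.piv s L) : p ∉ P.toPar.sla s L := by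
  intro h
  have h1 := (Finset.mem_filter.1 hp).2
  have h2 := (Finset.mem_filter.1 h).2
  omega

/-- the virtual increment of a pivot -/
theorem upd_piv (P : LPar ι κ) (s : ℕ) (st : LSt ι κ) (ξ : ι → Bool) (p : ι)
    (hp : p ∈ P.toPar.piv s st.L) : P.upd s st ξ p = P.δ * sgn (ξ p) := by
  rw [C1_upd P s st ξ p (C1_piv_notMem_sla P s st.L hp), if_pos hp]

/-- a pivot is moved by its virtual increment -/
theorem newx_piv' (P : LPar ι κ) (s : ℕ) (st : LSt ι κ) (ξ : ι → Bool) (p : ι)
    (hp : p ∈ P.toPar.piv s st.L) : P.newx s st ξ p = st.x p + P.δ * sgn (ξ p) := by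
  classical
  have h3 : p ∉ P.big s st ξ := fun h => C1_piv_notMem_sla P s st.L hp (Finset.mem_filter.1 h).1
  simp only [LPar.newx, h3, if_false]
  rw [upd_piv P s st ξ p hp]

/-- a variable that is not live does not move -/
theorem newx_of_notMem (P : LPar ι κ) (s : ℕ) (st : LSt ι κ) (ξ : ι → Bool) (i : ι)
    (hi : i ∉ st.L) : P.newx s st ξ i = st.x i := by
  classical
  have h1 : i ∉ P.toPar.sla s st.L := fun h => hi (Finset.mem_filter.1 h).1
  have h2 : i ∉ P.toPar.piv s st.L := fun h => hi (Finset.mem_filter.1 h).1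
  have h3 : i ∉ P.big s st ξ := fun h => h1 (Finset.mem_filter.1 h).1
  simp only [LPar.newx, h3, if_false]
  rw [upd_zero P s st ξ i h2 h1, add_zero]

theorem run_x_of_notMem (P : LPar ι κ) (ω : ℕ → ι → Bool) {s t : ℕ} (h : s ≤ t) (i : ι)
    (hi : i ∉ (P.run ω s).L) : (P.run ω t).x i = (P.run ω s).x i := by
  induction t, h using Nat.le_induction with
  | base => rfl
  | succ n hn ih =>
    rw [← ih]
    exact newx_of_notMem P n (P.run ω n) (ω n) i (fun h => hi (run_L_subset P ω hn h))

/-- pivots move by `δ ≤ η`, other variables by less than `η` -/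
theorem newx_sub_le (P : LPar ι κ) (k : ℕ) (hP : P.Ok k) (s : ℕ) (st : LSt ι κ)
    (ξ : ι → Bool) (i : ι) : |P.newx s st ξ i - st.x i| ≤ P.η := by
  classical
  have hδ := hP.hB.hδ
  have hδη := hP.hB.hδη
  have hη : 0 ≤ P.η := hδ.le.trans hδη
  by_cases hp : i ∈ P.toPar.piv s st.L
  · rw [newx_piv' P s st ξ i hp, add_sub_cancel_left, abs_mul, abs_of_pos hδ]
    have : |sgn (ξ i)| = 1 := by
      unfold sgn
      split_ifs <;> norm_num
    rw [this, mul_one]
    exact hδη
  · by_cases hs : i ∈ P.toPar.sla s st.L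
    · by_cases hb : i ∈ P.big s st ξ
      · simp only [LPar.newx, hb, if_true, add_zero, sub_self, abs_zero]
        exact hη
      · simp only [LPar.newx, hb, if_false, add_sub_cancel_left]
        by_contra hcon
        apply hb
        simp only [LPar.big, Finset.mem_filter]
        exact ⟨hs, (not_le.1 hcon).le⟩
    · have h3 : i ∉ P.big s st ξ := fun h => hs (Finset.mem_filter.1 h).1
      simp only [LPar.newx, h3, if_false]
      rw [upd_zero P s st ξ i hp hs, add_zero, sub_self, abs_zero]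
      exact hη

theorem run_x_le (P : LPar ι κ) (k : ℕ) (hP : P.Ok k) (ω : ℕ → ι → Bool) (s : ℕ) (i : ι) :
    |(P.run ω s).x i| ≤ 1 := by
  induction s with
  | zero => exact hP.hx0 i
  | succ s ih =>
    by_cases hi : i ∈ (P.run ω s).L
    · have h1 := (inv_run P k hP ω s).hx i hi
      have h2 := newx_sub_le P k hP s (P.run ω s) (ω s) i
      have h3 : (P.run ω (s + 1)).x i = P.newx s (P.run ω s) (ω s) i := rfl
      rw [h3]
      rw [abs_le] at h2 ⊢
      rw [abs_lt] at h1
      constructor <;> linarith [h1.1, h1.2, h2.1, h2.2]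
    · rw [run_x_of_notMem P ω (Nat.le_succ s) i hi]
      exact ih

end Pool.Agent.LibLev64
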