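import Mathlib

set_option autoImplicit false

/-! Task C3: a lemma on sequences. -/

open Finset

namespace Pool.Agent.LibLev64

/-- `lev0` is the value of `lev` at the beginning of the current phase. The times `t` with
`lev0 t < m ≤ lev t` form an interval inside one phase: if `a` is the first time with `m ≤ lev a`, then they
are the `t ≥ a` in the phase of `a` (if that phase does not begin at `a`). -/
theorem seq_cross (lev lev0 ph : ℕ → ℕ) (Q : ℕ → ℝ) (e : ℝ) (he : 0 ≤ e)
    (hmono : Monotone lev) (hph : Monotone ph) (h0 : lev0 0 = lev 0)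
    (hlev0 : ∀ t, lev0 (t + 1) = if ph (t + 1) = ph t then lev0 t else lev (t + 1))
    (hQ : ∀ a b, a ≤ b → (∀ t, a ≤ t → t < b → ph t = ph a) → |∑ t ∈ Ico a b, Q t| ≤ e)
    (m s : ℕ) :
    |∑ t ∈ range s, ((if m ≤ lev t then Q t else 0) - (if m ≤ lev0 t then Q t else 0))| ≤ e := by
  -- `lev0 ≤ lev`
  have f1 : ∀ t, lev0 t ≤ lev t := by
    intro t
    induction t with
    | zero => exact h0.le
    | succ t ih =>
      rw [hlev0]
      split_ifs with h
      · exact ih.trans (hmono (Nat.le_succ t))
      · exact le_rfl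
  -- `lev0` is constant on phases
  have f2 : ∀ t d, ph t = ph (t + d) → lev0 t = lev0 (t + d) := by
    intro t d
    induction d with
    | zero => intro _; rfl
    | succ d ih =>
      intro h
      have h1 : ph t ≤ ph (t + d) := hph (Nat.le_add_right t d)
      have h2 : ph (t + d) ≤ ph (t + (d + 1)) := hph (by omega)
      have h3 : ph t = ph (t + d) := le_antisymm h1 (by rw [h]; exact h2)
      have h4 := hlev0 (t + d)
      rw [if_pos (by rw [← h3]; exact h.symm)] at h4
      rw [ih h3]
      exact h4.symm
  have f2' : ∀ t t', ph t = ph t' → lev0 t = lev0 t' := by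
    intro t t' h
    rcases le_total t t' with hle | hle
    · obtain ⟨d, rfl⟩ := Nat.exists_eq_add_of_le hle
      exact f2 t d h
    · obtain ⟨d, rfl⟩ := Nat.exists_eq_add_of_le hle
      exact (f2 t' d h.symm).symm
  by_cases hex : ∃ t0, lev0 t0 < m ∧ m ≤ lev t0
  · obtain ⟨t0, ht0, ht0'⟩ := hex
    have hex2 : ∃ t, m ≤ lev t := ⟨t0, ht0'⟩
    obtain ⟨a, ha, hamin⟩ : ∃ a, m ≤ lev a ∧ ∀ t, m ≤ lev t → a ≤ t := by
      classical
      exact ⟨Nat.find hex2, Nat.find_spec hex2, fun t ht => Nat.find_min' hex2 ht⟩
    have f3 : ∀ d, ph (a + d) = ph a ∨ m ≤ lev0 (a + d) := by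
      intro d
      induction d with
      | zero => exact Or.inl rfl
      | succ d ih =>
        have h4 := hlev0 (a + d)
        by_cases h : ph (a + d + 1) = ph (a + d)
        · rw [if_pos h] at h4
          rcases ih with ih | ih
          · left; change ph (a + d + 1) = ph a; rw [h, ih]
          · right; change m ≤ lev0 (a + d + 1); rw [h4]; exact ih
        · rw [if_neg h] at h4
          right
          change m ≤ lev0 (a + d + 1)
          rw [h4]
          exact ha.trans (hmono (by omega))
    have f4 : ∀ t, lev0 t < m → m ≤ lev t → a ≤ t ∧ ph t = ph a := by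
      intro t h1 h2
      have h3 := hamin t h2
      refine ⟨h3, ?_⟩
      obtain ⟨d, rfl⟩ := Nat.exists_eq_add_of_le h3
      rcases f3 d with h | h
      · exact h
      · omega
    have f5 : ∀ t, a ≤ t → ph t = ph a → lev0 t < m ∧ m ≤ lev t := by
      intro t h1 h2
      refine ⟨?_, ha.trans (hmono h1)⟩
      rw [f2' t t0 (by rw [h2, (f4 t0 ht0 ht0').2])]
      exact ht0
    have hg : ∀ t, ((if m ≤ lev t then Q t else 0) - (if m ≤ lev0 t then Q t else 0)) =
        if (a ≤ t ∧ ph t = ph a) then Q t else 0 := by
      intro t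
      by_cases h : a ≤ t ∧ ph t = ph a
      · obtain ⟨h1, h2⟩ := f5 t h.1 h.2
        rw [if_pos h, if_pos h2, if_neg (by omega), sub_zero]
      · rw [if_neg h]
        by_cases h1 : m ≤ lev t
        · have h2 : m ≤ lev0 t := by
            by_contra hcon
            exact h (f4 t (by omega) h1)
          rw [if_pos h1, if_pos h2, sub_self]
        · have h2 : ¬ m ≤ lev0 t := fun h3 => h1 (h3.trans (f1 t))
          rw [if_neg h1, if_neg h2, sub_self]
    rw [Finset.sum_congr rfl (fun t _ => hg t), ← Finset.sum_filter]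
    by_cases has : a ≤ s
    · have hex3 : ∃ b, a ≤ b ∧ (s ≤ b ∨ ph b ≠ ph a) := ⟨s, has, Or.inl le_rfl⟩
      obtain ⟨b, hb, hbmin⟩ : ∃ b, (a ≤ b ∧ (s ≤ b ∨ ph b ≠ ph a)) ∧
          ∀ t, (a ≤ t ∧ (s ≤ t ∨ ph t ≠ ph a)) → b ≤ t := by
        classical
        exact ⟨Nat.find hex3, Nat.find_spec hex3, fun t ht => Nat.find_min' hex3 ht⟩
      have hin : ∀ t, a ≤ t → t < b → t < s ∧ ph t = ph a := by
        intro t h1 h2
        by_contra hcon
        have : s ≤ t ∨ ph t ≠ ph a := by
          by_contra h3
          push Not at h3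
          exact hcon ⟨h3.1, h3.2⟩
        have := hbmin t ⟨h1, this⟩
        omega
      have hset : (range s).filter (fun t => a ≤ t ∧ ph t = ph a) = Ico a b := by
        ext t
        rw [Finset.mem_filter, Finset.mem_range, Finset.mem_Ico]
        constructor
        · rintro ⟨h1, h2, h3⟩
          refine ⟨h2, ?_⟩
          by_contra hcon
          push Not at hcon
          rcases hb.2 with h | h
          · omega
          · have h4 : ph a ≤ ph b := hph hb.1
            have h5 : ph b ≤ ph t := hph hcon
            omega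
        · rintro ⟨h1, h2⟩
          obtain ⟨h3, h4⟩ := hin t h1 h2
          exact ⟨h3, h1, h4⟩
      rw [hset]
      exact hQ a b hb.1 (fun t h1 h2 => (hin t h1 h2).2)
    · have hset : (range s).filter (fun t => a ≤ t ∧ ph t = ph a) = ∅ := by
        rw [Finset.filter_eq_empty_iff]
        intro t ht h
        rw [Finset.mem_range] at ht
        omega
      rw [hset, Finset.sum_empty, abs_zero]
      exact he
  · push Not at hex
    have hg : ∀ t, ((if m ≤ lev t then Q t else 0) - (if m ≤ lev0 t then Q t else 0)) = 0 := by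
      intro t
      by_cases h1 : m ≤ lev t
      · have h2 : m ≤ lev0 t := by
          by_contra hcon
          have := hex t (by omega)
          omega
        rw [if_pos h1, if_pos h2, sub_self]
      · have h2 : ¬ m ≤ lev0 t := fun h3 => h1 (h3.trans (f1 t))
        rw [if_neg h1, if_neg h2, sub_self]
    rw [Finset.sum_congr rfl (fun t _ => hg t), Finset.sum_const_zero, abs_zero]
    exact he

end Pool.Agent.LibLev64
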