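import Pool.Agent.LibLev64.C1

set_option autoImplicit false

/-! Task C4: displacement of a row while it is at a given level. Cite C1, A4. -/

open Finset Pool.Agent.LibLoc73

namespace Pool.Agent.LibLev64

variable {ι κ : Type*} [Fintype ι] [Fintype κ] [DecidableEq ι]

private theorem c4_lev (P : LPar ι κ) (ω : ℕ → ι → Bool) (s : ℕ) (j : κ) :
    (P.run ω (s + 1)).lev j = P.newlev s (P.run ω s) (ω s) j := rfl

open Classical in
private theorem c4_dsp (P : LPar ι κ) (ω : ℕ → ι → Bool) (s : ℕ) (j : κ) :
    (P.run ω (s + 1)).dsp j =
      if P.D ((P.run ω s).lev j) ≤ |P.rdsp s (P.run ω s) (ω s) j| then 0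
        else P.rdsp s (P.run ω s) (ω s) j := by
  simp only [LPar.run, LPar.step]

private theorem c4_rdsp (P : LPar ι κ) (ω : ℕ → ι → Bool) (s : ℕ) (j : κ) :
    P.rdsp s (P.run ω s) (ω s) j = (P.run ω s).dsp j + P.toPar.row (P.U ω s) j := rfl

open Classical in
/-- `dsp j` is the sum of the increments of the row since it has its present level -/
theorem dsp_eq (P : LPar ι κ) (ω : ℕ → ι → Bool) (s : ℕ) (j : κ) :
    (P.run ω s).dsp j = ∑ t ∈ range s,
      if (P.run ω t).lev j = (P.run ω s).lev j then P.toPar.row (P.U ω t) j else 0 := by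
  induction s with
  | zero => simp [LPar.run]
  | succ s ih =>
    rw [c4_dsp]
    by_cases h : P.D ((P.run ω s).lev j) ≤ |P.rdsp s (P.run ω s) (ω s) j|
    · rw [if_pos h]
      have hl : (P.run ω (s + 1)).lev j = (P.run ω s).lev j + 1 := by
        rw [c4_lev]
        unfold LPar.newlev
        rw [if_pos h]
      symm
      apply Finset.sum_eq_zero
      intro t ht
      rw [Finset.mem_range] at ht
      have := lev_mono P ω (show t ≤ s by omega) j
      rw [if_neg (by omega)]
    · rw [if_neg h]
      have hl : (P.run ω (s + 1)).lev j = (P.run ω s).lev j := by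
        rw [c4_lev]
        unfold LPar.newlev
        rw [if_neg h]
      rw [Finset.sum_range_succ, hl, if_pos rfl, ← ih, c4_rdsp]

open Classical in
/-- when the row leaves level `l` the sum of the increments at level `l` is at least `D l` -/
theorem level_sum (P : LPar ι κ) (ω : ℕ → ι → Bool) (s : ℕ) (j : κ) (l : ℕ)
    (hl : l < (P.run ω s).lev j) :
    P.D l ≤ |∑ t ∈ range s,
      if (P.run ω t).lev j = l then P.toPar.row (P.U ω t) j else 0| := by
  induction s with
  | zero =>
    simp [LPar.run] at hl
  | succ s ih =>
    rw [Finset.sum_range_succ]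
    by_cases h1 : l < (P.run ω s).lev j
    · rw [if_neg (by omega), add_zero]
      exact ih h1
    · rw [c4_lev] at hl
      have h2 := (newlev_le P s (P.run ω s) (ω s) j).2
      have h3 : l = (P.run ω s).lev j := by omega
      by_cases h : P.D ((P.run ω s).lev j) ≤ |P.rdsp s (P.run ω s) (ω s) j|
      · rw [if_pos h3.symm, h3, ← dsp_eq, ← c4_rdsp]
        exact h
      · exfalso
        unfold LPar.newlev at hl
        rw [if_neg h] at hl
        omega

/-- a row with a live variable has displacement below the threshold (at all times: for `D > 0`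
the displacement after an update is always below the threshold of the present level) -/
theorem dsp_lt (P : LPar ι κ) (k : ℕ) (hP : P.Ok k) (ω : ℕ → ι → Bool) (s : ℕ) (j : κ) :
    |(P.run ω s).dsp j| < P.D ((P.run ω s).lev j) := by
  classical
  have hD : ∀ l, 0 < P.D l := by
    intro l
    unfold LPar.D
    have := hP.hE l
    have := hP.hep0
    linarith
  induction s with
  | zero => simpa [LPar.run] using hD 0
  | succ s ih =>
    rw [c4_dsp]
    by_cases h : P.D ((P.run ω s).lev j) ≤ |P.rdsp s (P.run ω s) (ω s) j|
    · rw [if_pos h, abs_zero]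
      exact hD _
    · rw [if_neg h]
      have hl : (P.run ω (s + 1)).lev j = (P.run ω s).lev j := by
        rw [c4_lev]
        unfold LPar.newlev
        rw [if_neg h]
      rw [hl]
      exact not_le.mp h

end Pool.Agent.LibLev64
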