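import Pool.Agent.LibLev64.C2

set_option autoImplicit false

/-! Task C5: contributions of the pivots during a part of a phase. Cite C1, C2. -/

open Finset Pool.Agent.LibLoc73

namespace Pool.Agent.LibLev64

variable {ι κ : Type*} [Fintype ι] [Fintype κ] [DecidableEq ι]

/-- In one phase at most one pivot `p` has `a_pj ≠ 0` (colouring). While `p` is live its position moves by
its virtual increment, afterwards it is not a pivot any more. So the sum is `a_pj (x_p(b') - x_p(a))`. -/
theorem pvt_sum_le (P : LPar ι κ) (k : ℕ) (hP : P.Ok k) (ω : ℕ → ι → Bool) (j : κ) (a b : ℕ)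
    (hab : a ≤ b) (hph : ∀ t, a ≤ t → t < b → t / P.T = a / P.T) :
    |∑ t ∈ Ico a b, pvt P ω t j| ≤ 2 * P.ep := by
  have hep0 := hP.hep0
  by_cases hex : ∃ p, P.a p j ≠ 0 ∧ P.c p = a / P.T
  · obtain ⟨p, hpa, hpc⟩ := hex
    have huniq : ∀ i, P.a i j ≠ 0 → P.c i = a / P.T → i = p := by
      intro i h1 h2
      by_contra hne
      exact hP.hB.hc i p j hne h1 hpa (h2.trans hpc.symm)
    have hterm : ∀ t ∈ Ico a b,
        pvt P ω t j = P.a p j * ((P.run ω (t + 1)).x p - (P.run ω t).x p) := by
      intro t ht
      rw [mem_Ico] at ht
      have hq := hph t ht.1 ht.2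
      have hrun : (P.run ω (t + 1)).x = P.newx t (P.run ω t) (ω t) := rfl
      unfold pvt
      by_cases hpL : p ∈ (P.run ω t).L
      · have hpp : p ∈ P.toPar.piv t (P.run ω t).L := by
          unfold Par.piv
          rw [mem_filter]
          exact ⟨hpL, by rw [hq]; exact hpc⟩
        rw [Finset.sum_eq_single_of_mem p hpp]
        · rw [hrun, newx_piv' P t (P.run ω t) (ω t) p hpp]
          have : P.U ω t p = P.δ * sgn (ω t p) := upd_piv P t (P.run ω t) (ω t) p hpp
          rw [this]
          ring
        · intro i hi hne
          unfold Par.piv at hi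
          rw [mem_filter] at hi
          have : P.a i j = 0 := by
            by_contra h
            exact hne (huniq i h (by rw [← hq]; exact hi.2))
          rw [this, zero_mul]
      · rw [Finset.sum_eq_zero]
        · rw [hrun, newx_of_notMem P t (P.run ω t) (ω t) p hpL]
          ring
        · intro i hi
          unfold Par.piv at hi
          rw [mem_filter] at hi
          have : P.a i j = 0 := by
            by_contra h
            have := huniq i h (by rw [← hq]; exact hi.2)
            rw [this] at hi
            exact hpL hi.1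
          rw [this, zero_mul]
    rw [Finset.sum_congr rfl hterm, ← Finset.mul_sum,
      Finset.sum_Ico_sub (fun t => (P.run ω t).x p) hab, abs_mul]
    have h1 := hP.hep p j
    have h2 := run_x_le P k hP ω b p
    have h3 := run_x_le P k hP ω a p
    have h4 : |(P.run ω b).x p - (P.run ω a).x p| ≤ 2 := by
      have := abs_sub (P.run ω b |>.x p) (P.run ω a |>.x p)
      linarith
    calc |P.a p j| * |(P.run ω b).x p - (P.run ω a).x p| ≤ P.ep * 2 :=
          mul_le_mul h1 h4 (abs_nonneg _) hep0
      _ = 2 * P.ep := by ring
  · have hzero : ∀ t ∈ Ico a b, pvt P ω t j = 0 := by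
      intro t ht
      rw [mem_Ico] at ht
      unfold pvt
      apply Finset.sum_eq_zero
      intro i hi
      unfold Par.piv at hi
      rw [mem_filter] at hi
      have : P.a i j = 0 := by
        by_contra h
        exact hex ⟨i, h, by rw [← hph t ht.1 ht.2]; exact hi.2⟩
      rw [this, zero_mul]
    rw [Finset.sum_eq_zero hzero, abs_zero]
    positivity

end Pool.Agent.LibLev64
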