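import Pool.Agent.LibLev64.C4

set_option autoImplicit false

/-! Task C7: bound of the real displacement of a row. Cite A4, C1, C4 (`dsp_lt`). -/

open Finset Pool.Agent.LibLoc73

namespace Pool.Agent.LibLev64

variable {ι κ : Type*} [Fintype ι] [Fintype κ] [DecidableEq ι]

/-- bound of the displacement of a row -/
noncomputable def Bd (P : LPar ι κ) (k : ℕ) : ℝ :=
  ∑ l ∈ range (P.H + 1), (P.D l + 2 * k * P.η) + 2 * k * P.η

private theorem C7_a_le (P : LPar ι κ) (k : ℕ) (hP : P.Ok k) (i : ι) (j : κ) :
    |P.a i j| ≤ 1 := by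
  have h1 : (P.a i j) ^ 2 ≤ ∑ j, (P.a i j) ^ 2 :=
    Finset.single_le_sum (f := fun j => (P.a i j) ^ 2) (fun j _ => sq_nonneg _) (Finset.mem_univ j)
  have h2 := hP.hB.hcol i
  have h3 : (P.a i j) ^ 2 ≤ 1 := h1.trans h2
  rw [← sq_abs] at h3
  nlinarith [abs_nonneg (P.a i j)]

private theorem C7_keta (P : LPar ι κ) (k : ℕ) (hP : P.Ok k) : 0 ≤ k * P.η := by
  have h1 : 0 < P.η := lt_of_lt_of_le hP.hB.hδ hP.hB.hδη
  positivity

private theorem C7_D (P : LPar ι κ) (k : ℕ) (hP : P.Ok k) (l : ℕ) : 0 ≤ P.D l := by
  have h1 := hP.hE l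
  have h2 := hP.hep0
  unfold LPar.D
  linarith

/-- one step changes a row by at most `δ + k η ≤ 2 k η` (the real change as well as the change of the
non-big part) -/
theorem step_row_le (P : LPar ι κ) (k : ℕ) (hP : P.Ok k) (s : ℕ) (st : LSt ι κ)
    (ξ : ι → Bool) (j : κ) :
    |P.toPar.row (P.newx s st ξ) j - P.toPar.row st.x j| ≤ 2 * k * P.η := by
  classical
  have hke := C7_keta P k hP
  have h4 : P.toPar.row (P.newx s st ξ) j - P.toPar.row st.x j
      = ∑ i ∈ univ.filter (fun i => P.a i j ≠ 0),
        P.a i j * (P.newx s st ξ i - st.x i) := by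
    have h5 : ∑ i ∈ univ.filter (fun i => P.a i j ≠ 0),
        P.a i j * (P.newx s st ξ i - st.x i)
        = ∑ i, P.a i j * (P.newx s st ξ i - st.x i) := by
      apply Finset.sum_filter_of_ne
      intro x _ hx h0
      apply hx
      rw [h0, zero_mul]
    rw [h5]
    simp only [Par.row, mul_sub, Finset.sum_sub_distrib]
  rw [h4]
  refine (Finset.abs_sum_le_sum_abs _ _).trans ?_
  have h7 : ∀ i ∈ univ.filter (fun i => P.a i j ≠ 0),
      |P.a i j * (P.newx s st ξ i - st.x i)| ≤ P.η := by
    intro i _
    rw [abs_mul]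
    have ha := C7_a_le P k hP i j
    have hb := newx_sub_le P k hP s st ξ i
    calc |P.a i j| * |P.newx s st ξ i - st.x i|
        ≤ 1 * P.η := mul_le_mul ha hb (abs_nonneg _) zero_le_one
      _ = P.η := one_mul _
  refine (Finset.sum_le_card_nsmul _ _ _ h7).trans ?_
  rw [nsmul_eq_mul]
  have h8 : ((univ.filter (fun i => P.a i j ≠ 0)).card : ℝ) ≤ k := by
    exact_mod_cast hP.hB.hrow j
  have hη0 : 0 ≤ P.η := le_trans hP.hB.hδ.le hP.hB.hδη
  have h9 := mul_le_mul_of_nonneg_right h8 hη0
  linarith

private theorem C7_inv (P : LPar ι κ) (k : ℕ) (hP : P.Ok k) (ω : ℕ → ι → Bool) (j : κ) (s : ℕ) :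
    ((∃ i ∈ (P.run ω s).L, P.a i j ≠ 0) →
      |P.toPar.row (P.run ω s).x j - P.toPar.row P.x0 j - (P.run ω s).dsp j|
        ≤ ∑ l ∈ range ((P.run ω s).lev j), (P.D l + 2 * k * P.η)) ∧
    |P.toPar.row (P.run ω s).x j - P.toPar.row P.x0 j| ≤ Bd P k := by
  classical
  have hke := C7_keta P k hP
  have hD := C7_D P k hP
  have hpos : ∀ l, 0 ≤ P.D l + 2 * k * P.η := fun l => by have := hD l; linarith
  -- from the first part for a live row, a bound without slack
  have hlive : ∀ s, (∃ i ∈ (P.run ω s).L, P.a i j ≠ 0) →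
      |P.toPar.row (P.run ω s).x j - P.toPar.row P.x0 j - (P.run ω s).dsp j|
        ≤ ∑ l ∈ range ((P.run ω s).lev j), (P.D l + 2 * k * P.η) →
      |P.toPar.row (P.run ω s).x j - P.toPar.row P.x0 j|
        ≤ ∑ l ∈ range (P.H + 1), (P.D l + 2 * k * P.η) := by
    intro s ⟨i, hi, hij⟩ h
    have h1 := (inv_run P k hP ω s).hlev i hi j hij
    have h2 := dsp_lt P k hP ω s j
    have h3 : ∑ l ∈ range ((P.run ω s).lev j + 1), (P.D l + 2 * k * P.η)
        ≤ ∑ l ∈ range (P.H + 1), (P.D l + 2 * k * P.η) := by
      apply Finset.sum_le_sum_of_subset_of_nonneg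
      · intro l hl
        rw [mem_range] at hl ⊢
        omega
      · intro l _ _
        exact hpos l
    rw [Finset.sum_range_succ] at h3
    have h4 : P.toPar.row (P.run ω s).x j - P.toPar.row P.x0 j
        = (P.toPar.row (P.run ω s).x j - P.toPar.row P.x0 j - (P.run ω s).dsp j)
          + (P.run ω s).dsp j := by ring
    rw [h4]
    refine (abs_add_le _ _).trans ?_
    linarith
  induction s with
  | zero =>
    constructor
    · intro _
      simp [LPar.run]
    · simp only [LPar.run, sub_self, abs_zero, Bd]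
      have : 0 ≤ ∑ l ∈ range (P.H + 1), (P.D l + 2 * k * P.η) :=
        Finset.sum_nonneg (fun l _ => hpos l)
      linarith
  | succ s ih =>
    obtain ⟨ih1, ih2⟩ := ih
    have hx1 : (P.run ω (s + 1)).x = P.newx s (P.run ω s) (ω s) := rfl
    have hl1 : (P.run ω (s + 1)).lev = P.newlev s (P.run ω s) (ω s) := rfl
    have hL1 : (P.run ω (s + 1)).L = P.newL s (P.run ω s) (ω s) := rfl
    have hd1 : (P.run ω (s + 1)).dsp j
        = if P.D ((P.run ω s).lev j) ≤ |P.rdsp s (P.run ω s) (ω s) j| then 0
          else P.rdsp s (P.run ω s) (ω s) j := by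
      simp only [LPar.run, LPar.step]
    have hstep := step_row_le P k hP s (P.run ω s) (ω s) j
    constructor
    · rintro ⟨i, hi, hij⟩
      have hi' := hi
      rw [hL1] at hi'
      simp only [LPar.newL, Finset.mem_filter] at hi'
      obtain ⟨hiL, -, hrows, -⟩ := hi'
      have hnb := (hrows j hij).2
      have ih1' := ih1 ⟨i, hiL, hij⟩
      have hreal : P.toPar.row (P.newx s (P.run ω s) (ω s)) j
          = P.toPar.row (P.run ω s).x j + P.toPar.row (P.upd s (P.run ω s) (ω s)) j := by
        simp only [Par.row, ← Finset.sum_add_distrib]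
        apply Finset.sum_congr rfl
        intro i' _
        by_cases hi'j : P.a i' j = 0
        · have : P.toPar.a i' j = 0 := hi'j
          simp [this]
        · have h5 : i' ∉ P.big s (P.run ω s) (ω s) := fun hb => hi'j (hnb i' hb)
          simp only [LPar.newx, h5, if_false]
          ring
      have hrd : P.rdsp s (P.run ω s) (ω s) j
          = (P.run ω s).dsp j + P.toPar.row (P.upd s (P.run ω s) (ω s)) j := rfl
      rw [hx1, hl1, hd1]
      by_cases hc : P.D ((P.run ω s).lev j) ≤ |P.rdsp s (P.run ω s) (ω s) j|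
      · have hnl : P.newlev s (P.run ω s) (ω s) j = (P.run ω s).lev j + 1 := by
          unfold LPar.newlev
          rw [if_pos hc]
        rw [if_pos hc, hnl, Finset.sum_range_succ]
        have h6 := dsp_lt P k hP ω s j
        have h7 : P.toPar.row (P.newx s (P.run ω s) (ω s)) j - P.toPar.row P.x0 j - 0
            = (P.toPar.row (P.run ω s).x j - P.toPar.row P.x0 j - (P.run ω s).dsp j)
              + ((P.run ω s).dsp j + (P.toPar.row (P.newx s (P.run ω s) (ω s)) j
                - P.toPar.row (P.run ω s).x j)) := by ring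
        rw [h7]
        refine (abs_add_le _ _).trans ?_
        have h8 := abs_add_le ((P.run ω s).dsp j) (P.toPar.row (P.newx s (P.run ω s) (ω s)) j
                - P.toPar.row (P.run ω s).x j)
        linarith
      · have hnl : P.newlev s (P.run ω s) (ω s) j = (P.run ω s).lev j := by
          unfold LPar.newlev
          rw [if_neg hc]
        rw [if_neg hc, hnl, hreal, hrd]
        have h7 : P.toPar.row (P.run ω s).x j + P.toPar.row (P.upd s (P.run ω s) (ω s)) j
            - P.toPar.row P.x0 j
            - ((P.run ω s).dsp j + P.toPar.row (P.upd s (P.run ω s) (ω s)) j)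
            = P.toPar.row (P.run ω s).x j - P.toPar.row P.x0 j - (P.run ω s).dsp j := by ring
        rw [h7]
        exact ih1'
    · by_cases hex : ∃ i ∈ (P.run ω s).L, P.a i j ≠ 0
      · have h5 := hlive s hex (ih1 hex)
        have h6 : P.toPar.row (P.run ω (s + 1)).x j - P.toPar.row P.x0 j
            = (P.toPar.row (P.run ω s).x j - P.toPar.row P.x0 j)
              + (P.toPar.row (P.newx s (P.run ω s) (ω s)) j - P.toPar.row (P.run ω s).x j) := by
          rw [hx1]; ring
        rw [h6]
        refine (abs_add_le _ _).trans ?_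
        unfold Bd
        linarith
      · have h1 : P.toPar.row (P.run ω (s + 1)).x j = P.toPar.row (P.run ω s).x j := by
          unfold Par.row
          apply Finset.sum_congr rfl
          intro i _
          by_cases hij : P.toPar.a i j = 0
          · rw [hij, zero_mul, zero_mul]
          · rw [run_x_of_notMem P ω (Nat.le_succ s) i (fun h => hex ⟨i, h, hij⟩)]
        rw [h1]
        exact ih2

/-- Invariant of the induction: either row `j` meets no live variable and the bound holds, or it meets one,
and `|row (x - x0) j - dsp j| ≤ ∑_{l < lev j} (D l + 2 k η)`. If row `j` meets a variable that is live after the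
step then no variable of row `j` makes a big step, so the real change is the virtual one. -/
theorem run_row_le (P : LPar ι κ) (k : ℕ) (hP : P.Ok k) (ω : ℕ → ι → Bool) (s : ℕ) (j : κ) :
    |P.toPar.row (P.run ω s).x j - P.toPar.row P.x0 j| ≤ Bd P k :=
  (C7_inv P k hP ω j s).2

end Pool.Agent.LibLev64
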