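import Pool.Agent.LibLev64.C1

set_option autoImplicit false

/-! Task C8: a variable that is live to the end has a confined walk. Cite C1.
Model: `LibLoc73/I1c.lean` (`conf_of_live`). -/

open Finset Pool.Agent.LibLoc73

namespace Pool.Agent.LibLev64

variable {ι κ : Type*} [Fintype ι] [Fintype κ] [DecidableEq ι]

theorem conf_of_live (P : LPar ι κ) (k : ℕ) (hP : P.Ok k) (ω : ℕ → ι → Bool) (τ : ℕ) (i : ι)
    (hτ : P.c i * P.T + P.T ≤ τ) (hi : i ∈ (P.run ω τ).L) : P.toPar.Conf ω i := by
  classical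
  have hη0 : 0 < P.η := lt_of_lt_of_le hP.hB.hδ hP.hB.hδη
  have key : ∀ n, n ≤ P.T → (P.run ω (P.c i * P.T + n)).x i
      = (P.run ω (P.c i * P.T)).x i + ∑ t ∈ range n, P.δ * sgn (ω (P.c i * P.T + t) i) := by
    intro n
    induction n with
    | zero => intro _; simp
    | succ n ih =>
      intro hn
      have hn' : n < P.T := hn
      have h0 : (P.run ω (P.c i * P.T)).x i
          + ∑ t ∈ range (n + 1), P.δ * sgn (ω (P.c i * P.T + t) i)
          = (P.run ω (P.c i * P.T + n)).x i + P.δ * sgn (ω (P.c i * P.T + n) i) := by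
        rw [Finset.sum_range_succ, ih hn'.le]
        ring
      rw [h0]
      have hs : (P.c i * P.T + n) / P.T = P.c i := by
        rw [Nat.mul_comm, Nat.mul_add_div hP.hB.hT, Nat.div_eq_of_lt hn', Nat.add_zero]
      have hL : i ∈ (P.run ω (P.c i * P.T + n)).L :=
        run_L_subset P ω (by omega : P.c i * P.T + n ≤ τ) hi
      have h2 : i ∈ P.toPar.piv (P.c i * P.T + n) (P.run ω (P.c i * P.T + n)).L :=
        Finset.mem_filter.2 ⟨hL, hs.symm⟩
      have h4 : (P.run ω (P.c i * P.T + (n + 1))).x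
          = P.newx (P.c i * P.T + n) (P.run ω (P.c i * P.T + n)) (ω (P.c i * P.T + n)) := rfl
      rw [h4]
      exact newx_piv' P _ _ _ i h2
  intro n hn
  have h1 := key n hn
  have hn' : n ≤ P.T := hn
  have h2 := (inv_run P k hP ω (P.c i * P.T + n)).hx i (run_L_subset P ω (by omega) hi)
  have h3 := (inv_run P k hP ω (P.c i * P.T)).hx i (run_L_subset P ω (by omega) hi)
  have h4 : ∑ t ∈ range n, P.δ * sgn (ω (P.c i * P.T + t) i)
      = (P.run ω (P.c i * P.T + n)).x i - (P.run ω (P.c i * P.T)).x i := by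
    rw [h1]; ring
  rw [h4]
  rw [abs_lt] at h2 h3
  rw [abs_le]
  constructor <;> linarith

end Pool.Agent.LibLev64
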