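import Pool.Agent.LibLev64.C6
import Pool.Agent.LibLev64.C8
import Pool.Agent.LibLoc73.F1

set_option autoImplicit false

/-! Task C9: every undecided variable has a cause. Cite A1 (`X_eq`, `X_mono`), A4, C1, C6, C8,
`LibLoc73.mem_nb_self`, `LibLoc73.mem_nb_of_row`. -/

open Finset Pool.Agent.LibLoc73

namespace Pool.Agent.LibLev64

variable {ι κ : Type*} [Fintype ι] [Fintype κ] [DecidableEq ι]

private theorem C9_mem_foot_inl (P : Par ι κ) (i : ι) (j : κ) (h : P.a i j ≠ 0) :
    i ∈ P.foot (Sum.inl j) := by
  classical
  simp only [Par.foot, Finset.mem_filter, Finset.mem_univ, true_and]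
  exact h

private theorem C9_mem_foot_inr (P : Par ι κ) (i z : ι) (h : i ∈ P.nb z) :
    i ∈ P.foot (Sum.inr z : κ ⊕ ι) := by
  simpa only [Par.foot] using h

/-- If `i` is live at `τ`: `conf_of_live`, cause `inr i`. Otherwise take the step `s` with `i ∈ L_s`,
`i ∉ L_{s+1}`; `x_i` does not change later, so `|x_i(s+1)| < 1 - η` and one of the other conditions fails:
a row `j` of `i` has level `> H` after the step (then also at `τ`, `up_of_lt` with `l = H`, cause `inl j`);
or a variable `i'` of a row `j` of `i` is big at step `s` (cause `inr i'`, `i' ∈ L0`); or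
`∑ a_ij² X(lev j) > 1` while all rows of `i` have level `≤ H`: `X m = 1/4 + ∑_{l<m} M_{l+1}²`, the events
`Up j l` hold at `τ` for `l < lev j` (`up_of_lt`, `lev_mono`), `∑ a_ij² ≤ 1`: cause `inr i` by the budget. -/
theorem undecided_cause (P : LPar ι κ) (k : ℕ) (hP : P.Ok k) (ω : ℕ → ι → Bool) (τ : ℕ)
    (hτ : ∀ i, P.c i * P.T + P.T ≤ τ) (i : ι) (hi0 : i ∈ P.L0)
    (hi : |(P.run ω τ).x i| < 1 - P.η) :
    ∃ h : κ ⊕ ι, i ∈ P.toPar.foot h ∧ P.Cause ω τ h ∧ ∀ z, h = Sum.inr z → z ∈ P.L0 := by
  classical
  by_cases hL : i ∈ (P.run ω τ).L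
  · refine ⟨Sum.inr i, C9_mem_foot_inr P.toPar i i (mem_nb_self P.toPar i),
      Or.inr (Or.inl (conf_of_live P k hP ω τ i (hτ i) hL)), ?_⟩
    intro z hz
    rw [Sum.inr.injEq] at hz
    rw [← hz]; exact hi0
  · -- the step where `i` dies
    have hex : ∃ n, n ≤ τ ∧ i ∉ (P.run ω n).L := ⟨τ, le_refl _, hL⟩
    have hmin := Nat.find_spec hex
    set n := Nat.find hex with hn
    have hn0 : n ≠ 0 := by
      intro h0
      rw [h0] at hmin
      exact hmin.2 (by simpa [LPar.run] using hi0)
    obtain ⟨s, hs⟩ := Nat.exists_eq_succ_of_ne_zero hn0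
    have hlive : i ∈ (P.run ω s).L := by
      by_contra hcon
      have hlt : s < Nat.find hex := by rw [← hn, hs]; exact Nat.lt_succ_self s
      exact Nat.find_min hex hlt ⟨by omega, hcon⟩
    have hsτ : s + 1 ≤ τ := by have := hmin.1; omega
    have hdead : i ∉ (P.run ω (s + 1)).L := by
      have := hmin.2
      rwa [hs] at this
    have hx : (P.run ω τ).x i = (P.run ω (s + 1)).x i := run_x_of_notMem P ω hsτ i hdead
    rw [hx] at hi
    have hx1 : (P.run ω (s + 1)).x = P.newx s (P.run ω s) (ω s) := rfl
    have hl1 : (P.run ω (s + 1)).lev = P.newlev s (P.run ω s) (ω s) := rfl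
    rw [hx1] at hi
    have hfail : ¬ ((∀ j, P.a i j ≠ 0 → P.newlev s (P.run ω s) (ω s) j ≤ P.H ∧
          ∀ i' ∈ P.big s (P.run ω s) (ω s), P.a i' j = 0) ∧
        ∑ j, P.a i j ^ 2 * X (P.newlev s (P.run ω s) (ω s) j) ≤ 1) := by
      intro hc
      apply hdead
      have : (P.run ω (s + 1)).L = P.newL s (P.run ω s) (ω s) := rfl
      rw [this]
      simp only [LPar.newL, Finset.mem_filter]
      exact ⟨hlive, hi, hc⟩
    have hup : ∀ j l, l < P.newlev s (P.run ω s) (ω s) j → P.Up ω τ j l := by
      intro j l hl
      apply up_of_lt P k hP ω τ j l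
      refine lt_of_lt_of_le hl ?_
      rw [← hl1]
      exact lev_mono P ω hsτ j
    by_cases hrow : ∃ j, P.a i j ≠ 0 ∧ P.H < P.newlev s (P.run ω s) (ω s) j
    · obtain ⟨j, hij, hj⟩ := hrow
      refine ⟨Sum.inl j, C9_mem_foot_inl P.toPar i j hij, hup j P.H hj, ?_⟩
      intro z hz
      exact absurd hz (by simp)
    · push Not at hrow
      by_cases hbig : ∃ j, P.a i j ≠ 0 ∧ ∃ i' ∈ P.big s (P.run ω s) (ω s), P.a i' j ≠ 0
      · obtain ⟨j, hij, i', hi', hi'j⟩ := hbig
        refine ⟨Sum.inr i', C9_mem_foot_inr P.toPar i i' (mem_nb_of_row P.toPar i' i j hi'j hij),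
          Or.inl ⟨s, hsτ, hi'⟩, ?_⟩
        intro z hz
        rw [Sum.inr.injEq] at hz
        rw [← hz]
        have h1 : i' ∈ (P.run ω s).L := by
          have h2 : i' ∈ P.toPar.sla s (P.run ω s).L := (Finset.mem_filter.1 hi').1
          exact (Finset.mem_filter.1 h2).1
        exact run_L_subset P ω (Nat.zero_le s) h1
      · push Not at hbig
        have hbud : 1 < ∑ j, P.a i j ^ 2 * X (P.newlev s (P.run ω s) (ω s) j) := by
          by_contra hc
          apply hfail
          exact ⟨fun j hij => ⟨hrow j hij, hbig j hij⟩, not_lt.1 hc⟩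
        refine ⟨Sum.inr i, C9_mem_foot_inr P.toPar i i (mem_nb_self P.toPar i),
          Or.inr (Or.inr ?_), ?_⟩
        · show 3 / 4 < P.bsum ω τ i
          have h1 : ∀ j, P.a i j ^ 2 * X (P.newlev s (P.run ω s) (ω s) j)
              ≤ P.a i j ^ 2 / 4 + ∑ l ∈ range P.H,
                if P.Up ω τ j l then P.a i j ^ 2 * M (l + 1) ^ 2 else 0 := by
            intro j
            have h3 : 0 ≤ ∑ l ∈ range P.H,
                if P.Up ω τ j l then P.a i j ^ 2 * M (l + 1) ^ 2 else 0 := by
              apply Finset.sum_nonneg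
              intro l _
              split_ifs
              · positivity
              · exact le_refl _
            by_cases hij : P.a i j = 0
            · rw [hij] at h3 ⊢
              simp
            · rw [X_eq, mul_add, Finset.mul_sum]
              have h2 : ∑ l ∈ range (P.newlev s (P.run ω s) (ω s) j), P.a i j ^ 2 * M (l + 1) ^ 2
                  ≤ ∑ l ∈ range P.H,
                    if P.Up ω τ j l then P.a i j ^ 2 * M (l + 1) ^ 2 else 0 := by
                calc ∑ l ∈ range (P.newlev s (P.run ω s) (ω s) j), P.a i j ^ 2 * M (l + 1) ^ 2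
                    = ∑ l ∈ range (P.newlev s (P.run ω s) (ω s) j),
                      if P.Up ω τ j l then P.a i j ^ 2 * M (l + 1) ^ 2 else 0 := by
                      apply Finset.sum_congr rfl
                      intro l hl
                      rw [if_pos (hup j l (mem_range.1 hl))]
                  _ ≤ _ := by
                      apply Finset.sum_le_sum_of_subset_of_nonneg
                      · intro l hl
                        have := hrow j hij
                        rw [mem_range] at hl ⊢
                        omega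
                      · intro l _ _
                        split_ifs
                        · positivity
                        · exact le_refl _
              linarith
          have h4 := Finset.sum_le_sum (s := (univ : Finset κ)) (fun j _ => h1 j)
          rw [Finset.sum_add_distrib, ← Finset.sum_div] at h4
          have h5 : ∑ j, P.a i j ^ 2 ≤ 1 := hP.hB.hcol i
          unfold LPar.bsum
          linarith
        · intro z hz
          rw [Sum.inr.injEq] at hz
          rw [← hz]; exact hi0

end Pool.Agent.LibLev64
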