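import Pool.Agent.LibLev64.Defs
import Pool.Agent.LibLoc73.F2

set_option autoImplicit false

/-! Task D1: locality of one step. Cite `LibLoc73` F1, F2 (`ball_mono`, `ball_add`, ...).
Model: `LibLoc73/F2.lean` (`upd_local`). -/

open Finset Pool.Agent.LibLoc73

namespace Pool.Agent.LibLev64

variable {ι κ : Type*} [Fintype ι] [Fintype κ] [DecidableEq ι]

/-- two states agree near `i`: live variables in the ball of radius `n` around `i`, levels of their rows -/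
def AgreeL (P : LPar ι κ) (n : ℕ) (i : ι) (st st' : LSt ι κ) : Prop :=
  ∀ i' ∈ P.toPar.ball n i, (i' ∈ st.L ↔ i' ∈ st'.L) ∧
    ∀ j, P.a i' j ≠ 0 → st.lev j = st'.lev j ∧ st.lev0 j = st'.lev0 j

private theorem d1_row {κ' : Type*} [Fintype κ'] (P : Par ι κ) (Q Q' : Par ι κ') (f : κ' → κ)
    (hQ : ∀ i j, Q.a i j ≠ 0 → P.a i (f j) ≠ 0) (hQ' : ∀ i j, Q'.a i j ≠ 0 → P.a i (f j) ≠ 0)
    (i : ι) (j : κ') (u u' : ι → ℝ) (ha : Q.a i j ≠ 0)
    (h : ∀ i' ∈ P.nb i, Q.a i' j = Q'.a i' j ∧ u i' = u' i') : Q.row u j = Q'.row u' j := by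
  rw [Par.row, Par.row]
  apply Finset.sum_congr rfl
  intro i' _
  by_cases hi' : i' ∈ P.nb i
  · rw [(h i' hi').1, (h i' hi').2]
  · have h1 : Q.a i' j = 0 := by
      by_contra hne
      exact hi' (mem_nb_of_row P i i' (f j) (hQ i j ha) (hQ i' j hne))
    have h2 : Q'.a i' j = 0 := by
      by_contra hne
      exact hi' (mem_nb_of_row P i i' (f j) (hQ i j ha) (hQ' i' j hne))
    rw [h1, h2, zero_mul, zero_mul]

private theorem d1_it {κ' : Type*} [Fintype κ'] (P : Par ι κ) (Q Q' : Par ι κ') (f : κ' → κ)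
    (hLc : Q.Lc = Q'.Lc)
    (hQ : ∀ i j, Q.a i j ≠ 0 → P.a i (f j) ≠ 0) (hQ' : ∀ i j, Q'.a i j ≠ 0 → P.a i (f j) ≠ 0)
    (N N' : Finset ι) (n : ℕ) (u u' : ι → ℝ) : ∀ i : ι,
    (∀ i' ∈ P.ball n i, (i' ∈ N ↔ i' ∈ N')) →
    (∀ i' ∈ P.ball n i, ∀ j, Q.a i' j = Q'.a i' j) → (∀ i' ∈ P.ball n i, u i' = u' i') →
    ((Q.it N)^[n] u) i = ((Q'.it N')^[n] u') i := by
  induction n with
  | zero =>
    intro i _ _ hu
    exact hu i (by simp [Par.ball])
  | succ n ih =>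
    intro i hN hA hu
    rw [Function.iterate_succ_apply', Function.iterate_succ_apply']
    have hb : ∀ i' ∈ P.nb i, P.ball n i' ⊆ P.ball (n + 1) i := fun i' hi' =>
      ball_add P n 1 i i' (nb_subset_ball P i hi')
    have h1 : ∀ i' ∈ P.nb i, ((Q.it N)^[n] u) i' = ((Q'.it N')^[n] u') i' := fun i' hi' =>
      ih i' (fun x hx => hN x (hb i' hi' hx)) (fun x hx => hA x (hb i' hi' hx))
        (fun x hx => hu x (hb i' hi' hx))
    have hii : i ∈ P.ball (n + 1) i := ball_mono P (Nat.zero_le _) i (by simp [Par.ball])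
    have hself : ∀ i' ∈ P.nb i, i' ∈ P.ball (n + 1) i := fun i' hi' =>
      hb i' hi' (ball_mono P (Nat.zero_le _) i' (by simp [Par.ball]))
    have h2 : i ∈ N ↔ i ∈ N' := hN i hii
    have h3 := h1 i (mem_nb_self P i)
    rw [Par.it, Par.it]
    by_cases hi : i ∈ N
    · rw [if_pos hi, if_pos (h2.1 hi), h3, hLc]
      congr 3
      apply Finset.sum_congr rfl
      intro j _
      rw [← hA i hii j]
      by_cases ha : Q.a i j = 0
      · rw [ha, zero_mul, zero_mul]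
      · rw [d1_row P Q Q' f hQ hQ' i j _ _ ha
          (fun i' hi' => ⟨hA i' (hself i' hi') j, h1 i' hi'⟩)]
    · rw [if_neg hi, if_neg (fun h => hi (h2.2 h)), h3]

omit [Fintype ι] [Fintype κ] in
private theorem d1_inst_ne (P : LPar ι κ) (s : ℕ) (st : LSt ι κ) (i : ι)
    (jl : κ × Fin (P.H + 1)) (h : (P.inst s st).a i jl ≠ 0) : P.a i jl.1 ≠ 0 := by
  intro h0
  apply h
  simp only [LPar.inst]
  rw [h0, mul_zero, ite_self]

theorem upd_local2 (P : LPar ι κ) (s : ℕ) (st st' : LSt ι κ) (ξ ξ' : ι → Bool) (i : ι)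
    (h : AgreeL P P.r i st st') (hξ : ∀ i' ∈ P.toPar.ball P.r i, ξ i' = ξ' i') :
    P.upd s st ξ i = P.upd s st' ξ' i := by
  have hsla : ∀ (t : LSt ι κ) (i' : ι), i' ∈ (P.inst s t).sla s t.L ↔
      (i' ∈ t.L ∧ s / P.T < P.c i') := by
    intro t i'
    rw [Par.sla, Finset.mem_filter]
    rfl
  have hpiv : ∀ (t : LSt ι κ) (i' : ι), i' ∈ (P.inst s t).piv s t.L ↔
      (i' ∈ t.L ∧ P.c i' = s / P.T) := by
    intro t i'
    rw [Par.piv, Finset.mem_filter]
    rfl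
  have hr : ∀ t : LSt ι κ, (P.inst s t).r = P.r := fun _ => rfl
  rw [LPar.upd, LPar.upd, Par.upd, Par.upd, hr, hr]
  apply d1_it P.toPar (P.inst s st) (P.inst s st') Prod.fst rfl
    (fun i jl => d1_inst_ne P s st i jl) (fun i jl => d1_inst_ne P s st' i jl)
  · intro i' hi'
    rw [hsla, hsla, (h i' hi').1]
  · intro i' hi' jl
    by_cases ha : P.a i' jl.1 = 0
    · simp only [LPar.inst]
      rw [ha, mul_zero, ite_self, ite_self]
    · have hact : P.act s st i' jl.1 = P.act s st' i' jl.1 := by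
        rw [LPar.act, LPar.act, ((h i' hi').2 jl.1 ha).1, ((h i' hi').2 jl.1 ha).2]
      simp only [LPar.inst]
      rw [hact]
      by_cases hc : i' ∈ st.L ∧ (jl.2 : ℕ) ≤ P.act s st' i' jl.1
      · rw [if_pos hc, if_pos ⟨(h i' hi').1.1 hc.1, hc.2⟩]
      · rw [if_neg hc, if_neg (fun hc' => hc ⟨(h i' hi').1.2 hc'.1, hc'.2⟩)]
  · intro i' hi'
    have h1 : i' ∈ (P.inst s st).piv s st.L ↔ i' ∈ (P.inst s st').piv s st'.L := by
      rw [hpiv, hpiv, (h i' hi').1]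
    rw [Par.ini, Par.ini, hξ i' hi']
    by_cases hc : i' ∈ (P.inst s st).piv s st.L
    · rw [if_pos hc, if_pos (h1.1 hc)]
      rfl
    · rw [if_neg hc, if_neg (fun h' => hc (h1.2 h'))]

end Pool.Agent.LibLev64
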