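import Pool.Agent.LibLev64.D1

set_option autoImplicit false

/-! Task D2: locality of the run. Cite D1, `LibLoc73` F1, F2. Model: `LibLoc73/F3.lean`. -/

open Finset Pool.Agent.LibLoc73

namespace Pool.Agent.LibLev64

variable {ι κ : Type*} [Fintype ι] [Fintype κ] [DecidableEq ι]

private theorem d2_big (P : LPar ι κ) (s : ℕ) (st st' : LSt ι κ) (ξ ξ' : ι → Bool) (i : ι)
    (h : AgreeL P P.r i st st') (hξ : ∀ i' ∈ P.toPar.ball P.r i, ξ i' = ξ' i') :
    i ∈ P.big s st ξ ↔ i ∈ P.big s st' ξ' := by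
  have hii : i ∈ P.toPar.ball P.r i :=
    ball_mono P.toPar (Nat.zero_le _) i (by simp [Par.ball])
  rw [LPar.big, LPar.big, Finset.mem_filter, Finset.mem_filter, Par.sla, Par.sla,
    Finset.mem_filter, Finset.mem_filter, upd_local2 P s st st' ξ ξ' i h hξ, (h i hii).1]

private theorem d2_newx (P : LPar ι κ) (s : ℕ) (st st' : LSt ι κ) (ξ ξ' : ι → Bool) (i : ι)
    (hx : st.x i = st'.x i)
    (h : AgreeL P P.r i st st') (hξ : ∀ i' ∈ P.toPar.ball P.r i, ξ i' = ξ' i') :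
    P.newx s st ξ i = P.newx s st' ξ' i := by
  have h1 := d2_big P s st st' ξ ξ' i h hξ
  have h2 := upd_local2 P s st st' ξ ξ' i h hξ
  rw [LPar.newx, LPar.newx, hx, h2]
  by_cases hb : i ∈ P.big s st ξ
  · rw [if_pos hb, if_pos (h1.1 hb)]
  · rw [if_neg hb, if_neg (fun h' => hb (h1.2 h'))]

private theorem d2_step (P : LPar ι κ) (s : ℕ) (st st' : LSt ι κ) (ξ ξ' : ι → Bool) (i : ι)
    (hx : ∀ i' ∈ P.toPar.ball (P.r + 1) i, st.x i' = st'.x i')
    (hA : AgreeL P (P.r + 1) i st st')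
    (hd : ∀ i' ∈ P.toPar.ball (P.r + 1) i, ∀ j, P.a i' j ≠ 0 → st.dsp j = st'.dsp j)
    (hξ : ∀ i' ∈ P.toPar.ball (P.r + 1) i, ξ i' = ξ' i') :
    (P.step s st ξ).x i = (P.step s st' ξ').x i ∧
      (i ∈ (P.step s st ξ).L ↔ i ∈ (P.step s st' ξ').L) ∧
      ∀ j, P.a i j ≠ 0 → (P.step s st ξ).lev j = (P.step s st' ξ').lev j ∧
        (P.step s st ξ).lev0 j = (P.step s st' ξ').lev0 j ∧
        (P.step s st ξ).dsp j = (P.step s st' ξ').dsp j := by
  classical
  have hb : ∀ i' ∈ P.toPar.nb i, P.toPar.ball P.r i' ⊆ P.toPar.ball (P.r + 1) i :=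
    fun i' hi' => ball_add P.toPar P.r 1 i i' (nb_subset_ball P.toPar i hi')
  have hself : ∀ i' ∈ P.toPar.nb i, i' ∈ P.toPar.ball (P.r + 1) i := fun i' hi' =>
    hb i' hi' (ball_mono P.toPar (Nat.zero_le _) i' (by simp [Par.ball]))
  have hAr : ∀ i' ∈ P.toPar.nb i, AgreeL P P.r i' st st' := fun i' hi' x hx' =>
    hA x (hb i' hi' hx')
  have hξr : ∀ i' ∈ P.toPar.nb i, ∀ x ∈ P.toPar.ball P.r i', ξ x = ξ' x :=
    fun i' hi' x hx' => hξ x (hb i' hi' hx')
  have hsi : i ∈ P.toPar.ball (P.r + 1) i := hself i (mem_nb_self P.toPar i)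
  have h0 : ∀ i' ∈ P.toPar.nb i, P.upd s st ξ i' = P.upd s st' ξ' i' := fun i' hi' =>
    upd_local2 P s st st' ξ ξ' i' (hAr i' hi') (hξr i' hi')
  have h1 : ∀ i' ∈ P.toPar.nb i, P.newx s st ξ i' = P.newx s st' ξ' i' := fun i' hi' =>
    d2_newx P s st st' ξ ξ' i' (hx i' (hself i' hi')) (hAr i' hi') (hξr i' hi')
  have h2 : ∀ i' ∈ P.toPar.nb i, (i' ∈ P.big s st ξ ↔ i' ∈ P.big s st' ξ') := fun i' hi' =>
    d2_big P s st st' ξ ξ' i' (hAr i' hi') (hξr i' hi')
  -- rows of `i`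
  have hlev : ∀ j, P.a i j ≠ 0 → st.lev j = st'.lev j := fun j hj => ((hA i hsi).2 j hj).1
  have hlev0 : ∀ j, P.a i j ≠ 0 → st.lev0 j = st'.lev0 j := fun j hj => ((hA i hsi).2 j hj).2
  have hrd : ∀ j, P.a i j ≠ 0 → P.rdsp s st ξ j = P.rdsp s st' ξ' j := by
    intro j hj
    rw [LPar.rdsp, LPar.rdsp, hd i hsi j hj,
      row_local P.toPar j _ _ (fun i' hi' => h0 i' (mem_nb_of_row P.toPar i i' j hj hi'))]
  have hnl : ∀ j, P.a i j ≠ 0 → P.newlev s st ξ j = P.newlev s st' ξ' j := by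
    intro j hj
    rw [LPar.newlev, LPar.newlev, hrd j hj, hlev j hj]
  refine ⟨h1 i (mem_nb_self P.toPar i), ?_, ?_⟩
  · change i ∈ P.newL s st ξ ↔ i ∈ P.newL s st' ξ'
    rw [LPar.newL, LPar.newL, Finset.mem_filter, Finset.mem_filter, (hA i hsi).1,
      h1 i (mem_nb_self P.toPar i)]
    have hsum : ∑ j, P.a i j ^ 2 * X (P.newlev s st ξ j) =
        ∑ j, P.a i j ^ 2 * X (P.newlev s st' ξ' j) := by
      apply Finset.sum_congr rfl
      intro j _
      by_cases hj : P.a i j = 0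
      · rw [hj]; simp
      · rw [hnl j hj]
    rw [hsum]
    apply and_congr_right
    intro _
    apply and_congr_right
    intro _
    apply and_congr_left
    intro _
    apply forall_congr'
    intro j
    apply imp_congr_right
    intro hj
    rw [hnl j hj]
    apply and_congr_right
    intro _
    constructor
    · intro h i' hi'
      by_contra hne
      exact hne (h i' ((h2 i' (mem_nb_of_row P.toPar i i' j hj hne)).2 hi'))
    · intro h i' hi'
      by_contra hne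
      exact hne (h i' ((h2 i' (mem_nb_of_row P.toPar i i' j hj hne)).1 hi'))
  · intro j hj
    refine ⟨hnl j hj, ?_, ?_⟩
    · change (if (s + 1) / P.T = s / P.T then st.lev0 j else P.newlev s st ξ j) =
        (if (s + 1) / P.T = s / P.T then st'.lev0 j else P.newlev s st' ξ' j)
      rw [hlev0 j hj, hnl j hj]
    · change (if P.D (st.lev j) ≤ |P.rdsp s st ξ j| then 0 else P.rdsp s st ξ j) =
        (if P.D (st'.lev j) ≤ |P.rdsp s st' ξ' j| then 0 else P.rdsp s st' ξ' j)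
      rw [hlev j hj, hrd j hj]

/-- the state at `i` and at the rows of `i` after `s` steps depends on the letters in the ball of
radius `s (r+1)` around `i` -/
theorem run_local2 (P : LPar ι κ) (s : ℕ) (ω ω' : ℕ → ι → Bool) (i : ι)
    (h : ∀ t < s, ∀ i' ∈ P.toPar.ball (s * (P.r + 1)) i, ω t i' = ω' t i') :
    (P.run ω s).x i = (P.run ω' s).x i ∧ (i ∈ (P.run ω s).L ↔ i ∈ (P.run ω' s).L) ∧
      ∀ j, P.a i j ≠ 0 → (P.run ω s).lev j = (P.run ω' s).lev j ∧
        (P.run ω s).lev0 j = (P.run ω' s).lev0 j ∧ (P.run ω s).dsp j = (P.run ω' s).dsp j := by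
  induction s generalizing i with
  | zero => exact ⟨rfl, Iff.rfl, fun _ _ => ⟨rfl, rfl, rfl⟩⟩
  | succ s ih =>
    have hb : ∀ i' ∈ P.toPar.ball (P.r + 1) i, P.toPar.ball (s * (P.r + 1)) i' ⊆
        P.toPar.ball ((s + 1) * (P.r + 1)) i := by
      intro i' hi'
      have := ball_add P.toPar (s * (P.r + 1)) (P.r + 1) i i' hi'
      rwa [← Nat.succ_mul] at this
    have h1 := fun (i' : ι) (hi' : i' ∈ P.toPar.ball (P.r + 1) i) =>
      ih i' (fun t ht x hx => h t (by omega) x (hb i' hi' hx))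
    exact d2_step P s _ _ _ _ i (fun i' hi' => (h1 i' hi').1)
      (fun i' hi' => ⟨(h1 i' hi').2.1, fun j hj =>
        ⟨((h1 i' hi').2.2 j hj).1, ((h1 i' hi').2.2 j hj).2.1⟩⟩)
      (fun i' hi' j hj => ((h1 i' hi').2.2 j hj).2.2)
      (fun i' hi' => h s (by omega) i' (ball_mono P.toPar (by nlinarith) i hi'))

/-- the increment at `i` at step `s`, and the fact that it is big -/
theorem U_local2 (P : LPar ι κ) (s : ℕ) (ω ω' : ℕ → ι → Bool) (i : ι)
    (h : ∀ t ≤ s, ∀ i' ∈ P.toPar.ball ((s + 1) * (P.r + 1)) i, ω t i' = ω' t i') :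
    P.U ω s i = P.U ω' s i ∧
      (i ∈ P.big s (P.run ω s) (ω s) ↔ i ∈ P.big s (P.run ω' s) (ω' s)) := by
  have hb : ∀ i' ∈ P.toPar.ball P.r i, P.toPar.ball (s * (P.r + 1)) i' ⊆
      P.toPar.ball ((s + 1) * (P.r + 1)) i := by
    intro i' hi'
    refine (ball_add P.toPar (s * (P.r + 1)) P.r i i' hi').trans (ball_mono P.toPar ?_ i)
    nlinarith
  have h1 := fun (i' : ι) (hi' : i' ∈ P.toPar.ball P.r i) =>
    run_local2 P s ω ω' i' (fun t ht x hx => h t ht.le x (hb i' hi' hx))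
  have hA : AgreeL P P.r i (P.run ω s) (P.run ω' s) := fun i' hi' =>
    ⟨(h1 i' hi').2.1, fun j hj => ⟨((h1 i' hi').2.2 j hj).1, ((h1 i' hi').2.2 j hj).2.1⟩⟩
  have hξ : ∀ i' ∈ P.toPar.ball P.r i, ω s i' = ω' s i' := fun i' hi' =>
    h s le_rfl i' (ball_mono P.toPar (by nlinarith) i hi')
  exact ⟨upd_local2 P s _ _ _ _ i hA hξ, d2_big P s _ _ _ _ i hA hξ⟩

end Pool.Agent.LibLev64
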