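import Pool.Agent.LibLev64.D2

set_option autoImplicit false

/-! Task D3: locality of causes. Cite D2, `LibLoc73` F1, F2. Model: `LibLoc73/F4.lean`. -/

open Finset Pool.Agent.LibLoc73

namespace Pool.Agent.LibLev64

variable {ι κ : Type*} [Fintype ι] [Fintype κ] [DecidableEq ι]

/-- the sums `V` of row `j` depend on the letters in the balls of radius `τ (r+1)` around the variables
of the row -/
theorem V_local2 (P : LPar ι κ) (τ : ℕ) (ω ω' : ℕ → ι → Bool) (j : κ)
    (hω : ∀ t, ∀ i, P.a i j ≠ 0 → ∀ i' ∈ P.toPar.ball (τ * (P.r + 1)) i, ω t i' = ω' t i')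
    (l : ℕ) : P.V ω τ j l = P.V ω' τ j l := by
  rw [LPar.V, LPar.V]
  apply Finset.sum_congr rfl
  intro t ht
  have htτ : t < τ := Finset.mem_range.1 ht
  rw [LPar.inc, LPar.inc]
  apply Finset.sum_congr rfl
  intro i _
  by_cases ha : P.a i j = 0
  · rw [ha]
    simp
  · have h1 := (U_local2 P t ω ω' i (fun t' _ i' hi' => hω t' i ha i'
      (ball_mono P.toPar (Nat.mul_le_mul_right _ (by omega)) i hi'))).1
    have h2 := run_local2 P t ω ω' i (fun t' _ i' hi' => hω t' i ha i'
      (ball_mono P.toPar (Nat.mul_le_mul_right _ (by omega)) i hi'))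
    have h3 : P.act t (P.run ω t) i j = P.act t (P.run ω' t) i j := by
      rw [LPar.act, LPar.act, (h2.2.2 j ha).1, (h2.2.2 j ha).2.1]
    rw [h1, h3]
    congr 1
    rw [h2.2.1]

/-- locality of causes; the rows of `z` consist of neighbours of `z` -/
theorem cause_local2 (P : LPar ι κ) (τ : ℕ) (ω ω' : ℕ → ι → Bool) (h : κ ⊕ ι)
    (hω : ∀ t, ∀ i ∈ P.toPar.foot h, ∀ i' ∈ P.toPar.ball (τ * (P.r + 1)) i, ω t i' = ω' t i') :
    P.Cause ω τ h ↔ P.Cause ω' τ h := by
  classical
  cases h with
  | inl j =>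
    have hV : ∀ l, P.V ω τ j l = P.V ω' τ j l := fun l => V_local2 P τ ω ω' j
      (fun t i ha i' hi' => hω t i (by simp [Par.foot, ha]) i' hi') l
    rw [LPar.Cause, LPar.Cause, LPar.Up, LPar.Up, hV, hV]
  | inr z =>
    have hz : z ∈ P.toPar.foot (Sum.inr z) := mem_nb_self P.toPar z
    have hzz : ∀ t, ω t z = ω' t z := fun t =>
      hω t z hz z (ball_mono P.toPar (Nat.zero_le _) z (by simp [Par.ball]))
    have key : ∀ t < τ, (z ∈ P.big t (P.run ω t) (ω t) ↔ z ∈ P.big t (P.run ω' t) (ω' t)) := by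
      intro t ht
      exact (U_local2 P t ω ω' z (fun t' _ i' hi' => hω t' z hz i'
        (ball_mono P.toPar (Nat.mul_le_mul_right _ (by omega)) z hi'))).2
    rw [LPar.Cause, LPar.Cause]
    apply or_congr
    · rw [LPar.IsBig, LPar.IsBig]
      constructor
      · rintro ⟨t, ht, hb⟩
        exact ⟨t, ht, (key t ht).1 hb⟩
      · rintro ⟨t, ht, hb⟩
        exact ⟨t, ht, (key t ht).2 hb⟩
    · apply or_congr
      · rw [Par.Conf, Par.Conf]
        simp_rw [hzz]
      · have hb : P.bsum ω τ z = P.bsum ω' τ z := by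
          rw [LPar.bsum, LPar.bsum]
          apply Finset.sum_congr rfl
          intro j _
          apply Finset.sum_congr rfl
          intro l _
          by_cases ha : P.a z j = 0
          · rw [ha]
            simp
          · have hV : ∀ l, P.V ω τ j l = P.V ω' τ j l := fun l => V_local2 P τ ω ω' j
              (fun t i hai i' hi' => hω t i (mem_nb_of_row P.toPar z i j ha hai) i' hi') l
            rw [LPar.Up, LPar.Up, hV, hV]
        rw [LPar.Bud, LPar.Bud, hb]

end Pool.Agent.LibLev64
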