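import Pool.Agent.LibLev64.Defs
import Pool.Agent.LibLoc73.H1
import Pool.Agent.LibLoc73.H1b

set_option autoImplicit false

/-! Task F1: combinatorics of the enlarged graph of causes. Cite `LibLoc73` F1, H1, H1b. -/

open Finset Pool.Agent.LibLoc73

namespace Pool.Agent.LibLev64

variable {ι κ : Type*} [Fintype ι] [Fintype κ] [DecidableEq ι] [DecidableEq κ]

open Classical in
/-- neighbours in the enlarged graph of causes -/
noncomputable def nbH2 (P : LPar ι κ) (h : κ ⊕ ι) : Finset (κ ⊕ ι) :=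
  univ.filter (fun h' => P.HAdj2 h h')

omit [DecidableEq κ] in
private theorem f1_mem (P : LPar ι κ) (h : κ ⊕ ι) (i : ι) :
    i ∈ P.foot2 h ↔ ∃ q ∈ P.toPar.foot h, i ∈ P.toPar.nb q := by
  classical
  unfold LPar.foot2
  rw [Finset.mem_biUnion]

theorem foot_subset_foot2 (P : LPar ι κ) (h : κ ⊕ ι) : P.toPar.foot h ⊆ P.foot2 h := by
  intro i hi
  exact (f1_mem P h i).2 ⟨i, hi, mem_nb_self P.toPar i⟩

theorem card_foot2 (P : LPar ι κ) (k : ℕ) (hP : P.toPar.Ok k) (h : κ ⊕ ι) :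
    (P.foot2 h).card ≤ k ^ 6 := by
  classical
  have hk := hP.hk
  have hsub : P.foot2 h ⊆ (P.toPar.foot h).biUnion P.toPar.nb := by
    intro i hi
    rw [Finset.mem_biUnion]
    exact (f1_mem P h i).1 hi
  refine (Finset.card_le_card hsub).trans ?_
  refine (Finset.card_biUnion_le_card_mul _ _ (k ^ 3)
    (fun i _ => card_nb P.toPar k (by omega) hP.hrow hP.hrows i)).trans ?_
  calc (P.toPar.foot h).card * k ^ 3 ≤ k ^ 3 * k ^ 3 :=
        Nat.mul_le_mul_right _ (card_foot P.toPar k hP h)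
    _ = k ^ 6 := by ring

theorem HAdj2_symm (P : LPar ι κ) (h h' : κ ⊕ ι) (hh : P.HAdj2 h h') : P.HAdj2 h' h := by
  obtain ⟨i, hi, i', hi', hn⟩ := hh
  exact ⟨i', hi', i, hi, (mem_nb_symm P.toPar i i').1 hn⟩

/-- `k^6` points `i ∈ foot2 h`, `k³` neighbours `i'`, `k³` points `i''` with `i' ∈ nb i''`, `k⁴` causes whose
foot contains `i''` -/
theorem card_nbH2 (P : LPar ι κ) (k : ℕ) (hP : P.toPar.Ok k) (h : κ ⊕ ι) :
    (nbH2 P h).card ≤ k ^ 16 := by
  classical
  have hk := hP.hk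
  have hnb : ∀ i, (P.toPar.nb i).card ≤ k ^ 3 :=
    fun i => card_nb P.toPar k (by omega) hP.hrow hP.hrows i
  have hsub : nbH2 P h ⊆ (P.foot2 h).biUnion (fun i => (P.toPar.nb i).biUnion (fun i' =>
      (P.toPar.nb i').biUnion (fun i'' =>
        (univ : Finset (κ ⊕ ι)).filter (fun h' => i'' ∈ P.toPar.foot h')))) := by
    intro h' hh'
    unfold nbH2 at hh'
    rw [Finset.mem_filter] at hh'
    obtain ⟨i, hi, i', hi', hn⟩ := hh'.2
    obtain ⟨i'', hi'', hn'⟩ := (f1_mem P h' i').1 hi'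
    rw [Finset.mem_biUnion]
    refine ⟨i, hi, ?_⟩
    rw [Finset.mem_biUnion]
    refine ⟨i', hn, ?_⟩
    rw [Finset.mem_biUnion]
    refine ⟨i'', (mem_nb_symm P.toPar i'' i').1 hn', ?_⟩
    rw [Finset.mem_filter]
    exact ⟨Finset.mem_univ _, hi''⟩
  refine (Finset.card_le_card hsub).trans ?_
  refine (Finset.card_biUnion_le_card_mul _ _ (k ^ 3 * (k ^ 3 * k ^ 4)) ?_).trans ?_
  · intro i _
    refine (Finset.card_biUnion_le_card_mul _ _ (k ^ 3 * k ^ 4) ?_).trans
      (Nat.mul_le_mul_right _ (hnb i))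
    intro i' _
    refine (Finset.card_biUnion_le_card_mul _ _ (k ^ 4) ?_).trans
      (Nat.mul_le_mul_right _ (hnb i'))
    intro i'' _
    refine le_trans (le_of_eq ?_) (card_foot_inv P.toPar k hP i'')
    congr 1
  · calc (P.foot2 h).card * (k ^ 3 * (k ^ 3 * k ^ 4)) ≤ k ^ 6 * (k ^ 3 * (k ^ 3 * k ^ 4)) :=
        Nat.mul_le_mul_right _ (card_foot2 P k hP h)
      _ = k ^ 16 := by ring

/-- if two variables are neighbours, the foot of the first is in the enlarged foot of the second -/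
theorem foot_subset_of_nb (P : LPar ι κ) (z z' : ι) (h : z' ∈ P.toPar.nb z) :
    P.toPar.foot (Sum.inr z : κ ⊕ ι) ⊆ P.foot2 (Sum.inr z') := by
  intro i hi
  have hi' : i ∈ P.toPar.nb z := hi
  exact (f1_mem P (Sum.inr z') i).2 ⟨z, (mem_nb_symm P.toPar z z').1 h, hi'⟩

/-- along a chain of `n + 1` causes that starts at `h`, every foot is in the ball of radius
`5 n + 2` around any point of the foot of `h` -/
theorem foot_chain2 (P : LPar ι κ) (h : κ ⊕ ι) (l : List (κ ⊕ ι))
    (hl : (h :: l).IsChain (fun a b => P.HAdj2 a b)) (h' : κ ⊕ ι) (hh' : h' ∈ h :: l)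
    (i i' : ι) (hi : i ∈ P.toPar.foot h) (hi' : i' ∈ P.toPar.foot h') :
    i' ∈ P.toPar.ball (5 * l.length + 2) i := by
  induction l generalizing h i with
  | nil =>
    have : h' = h := by simpa using hh'
    subst this
    simpa using foot_diam P.toPar h' i i' hi hi'
  | cons b l ih =>
    rw [List.isChain_cons_cons] at hl
    rcases List.mem_cons.1 hh' with rfl | hmem
    · exact ball_mono P.toPar (by omega) i (foot_diam P.toPar h' i i' hi hi')
    · obtain ⟨p, hp, p', hp', hn⟩ := hl.1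
      obtain ⟨q, hq, hqp⟩ := (f1_mem P h p).1 hp
      obtain ⟨q', hq', hqp'⟩ := (f1_mem P b p').1 hp'
      have h1 := ih b hl.2 hmem q' hq'
      have h2 : q ∈ P.toPar.ball 2 i := foot_diam P.toPar h i q hi hq
      have h3 : p ∈ P.toPar.ball (1 + 2) i :=
        ball_add P.toPar 1 2 i q h2 (nb_subset_ball P.toPar q hqp)
      have h4 : p' ∈ P.toPar.ball (1 + (1 + 2)) i :=
        ball_add P.toPar 1 (1 + 2) i p h3 (nb_subset_ball P.toPar p hn)
      have h5 : q' ∈ P.toPar.ball (1 + (1 + (1 + 2))) i :=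
        ball_add P.toPar 1 (1 + (1 + 2)) i p' h4
          (nb_subset_ball P.toPar p' ((mem_nb_symm P.toPar q' p').1 hqp'))
      have h6 := ball_add P.toPar (5 * l.length + 2) (1 + (1 + (1 + 2))) i q' h5 h1
      exact ball_mono P.toPar (by simp; omega) i h6

end Pool.Agent.LibLev64
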