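import Pool.Agent.LibLev64.F1
import Pool.Agent.LibLev64.D3
import Pool.Agent.LibKomlos64.Cluster

set_option autoImplicit false

/-! Task F2: the bad events. Cite F1, D3 and `Pool.Agent.LibKomlos64.chn / card_chn / mem_chn`.
Model: `LibLoc73/H2a.lean`. -/

open Finset Pool.Agent.LibLoc73

namespace Pool.Agent.LibLev64

variable {ι κ : Type*} [Fintype ι] [Fintype κ] [DecidableEq ι] [DecidableEq κ]

/-- bad event at `h`: a chain of `2m+1` causes that starts at `h` with exactly `m+1` different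
members, no two of them in conflict -/
def BadEv2 (P : LPar ι κ) (τ m : ℕ) (h : κ ⊕ ι) (ω : Fin τ → ι → Bool) : Prop :=
  ∃ l : List (κ ⊕ ι), (h :: l).IsChain (fun a b => P.HAdj2 a b) ∧ l.length = 2 * m ∧
    (h :: l).toFinset.card = m + 1 ∧ P.NC (h :: l).toFinset ∧
    ∀ h' ∈ h :: l, P.Cause (ext τ ω) τ h'

open Classical in
/-- union bound over `chn (nbH2 P) (2m) h` -/
theorem badEv2_prob (P : LPar ι κ) (k : ℕ) (hP : P.toPar.Ok k) (τ m : ℕ) (q : ℝ) (hq : 0 ≤ q)
    (hcause : ∀ S : Finset (κ ⊕ ι), P.NC S →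
      (((univ : Finset (Fin τ → ι → Bool)).filter (fun ω =>
        ∀ h ∈ S, P.Cause (ext τ ω) τ h)).card : ℝ)
      ≤ (2 ^ Fintype.card ι) ^ τ * q ^ S.card) (h : κ ⊕ ι) :
    (((univ : Finset (Fin τ → ι → Bool)).filter (fun ω => BadEv2 P τ m h ω)).card : ℝ)
      ≤ (2 ^ Fintype.card ι) ^ τ * (((k : ℝ) ^ 16) ^ (2 * m) * q ^ (m + 1)) := by
  set C : Finset (List (κ ⊕ ι)) := (LibKomlos64.chn (nbH2 P) (2 * m) h).filter
    (fun L => L.toFinset.card = m + 1 ∧ P.NC L.toFinset) with hC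
  have hsub : (univ : Finset (Fin τ → ι → Bool)).filter (fun ω => BadEv2 P τ m h ω) ⊆
      C.biUnion (fun L => (univ : Finset (Fin τ → ι → Bool)).filter (fun ω =>
        ∀ h' ∈ L.toFinset, P.Cause (ext τ ω) τ h')) := by
    intro ω hω
    rw [Finset.mem_filter] at hω
    obtain ⟨l, hl1, hl2, hl3, hl5, hl4⟩ := hω.2
    rw [Finset.mem_biUnion]
    refine ⟨h :: l, ?_, ?_⟩
    · rw [hC, Finset.mem_filter]
      refine ⟨LibKomlos64.mem_chn (nbH2 P) (2 * m) h l ?_ hl2, ?_, ?_⟩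
      · refine hl1.imp ?_
        intro a b hab
        unfold nbH2
        rw [Finset.mem_filter]
        exact ⟨Finset.mem_univ _, hab⟩
      · exact hl3
      · exact hl5
    · rw [Finset.mem_filter]
      refine ⟨Finset.mem_univ _, fun h' hh' => hl4 h' ?_⟩
      exact List.mem_toFinset.1 hh'
  have hcardC : (C.card : ℝ) ≤ ((k : ℝ) ^ 16) ^ (2 * m) := by
    have h1 : C.card ≤ (k ^ 16) ^ (2 * m) :=
      (Finset.card_filter_le _ _).trans
        (LibKomlos64.card_chn (nbH2 P) (k ^ 16) (fun a => card_nbH2 P k hP a) (2 * m) h)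
    exact_mod_cast h1
  have h2n : (0 : ℝ) ≤ (2 ^ Fintype.card ι) ^ τ := by positivity
  calc (((univ : Finset (Fin τ → ι → Bool)).filter (fun ω => BadEv2 P τ m h ω)).card : ℝ)
      ≤ ((C.biUnion (fun L => (univ : Finset (Fin τ → ι → Bool)).filter (fun ω =>
        ∀ h' ∈ L.toFinset, P.Cause (ext τ ω) τ h'))).card : ℝ) := by
        exact_mod_cast Finset.card_le_card hsub
    _ ≤ ∑ L ∈ C, (((univ : Finset (Fin τ → ι → Bool)).filter (fun ω =>
        ∀ h' ∈ L.toFinset, P.Cause (ext τ ω) τ h')).card : ℝ) := by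
        exact_mod_cast Finset.card_biUnion_le
    _ ≤ ∑ L ∈ C, (2 ^ Fintype.card ι) ^ τ * q ^ (m + 1) := by
        refine Finset.sum_le_sum fun L hL => ?_
        rw [hC, Finset.mem_filter] at hL
        have := hcause L.toFinset hL.2.2
        rw [hL.2.1] at this
        exact this
    _ = (C.card : ℝ) * ((2 ^ Fintype.card ι) ^ τ * q ^ (m + 1)) := by
        rw [Finset.sum_const, nsmul_eq_mul]
    _ ≤ ((k : ℝ) ^ 16) ^ (2 * m) * ((2 ^ Fintype.card ι) ^ τ * q ^ (m + 1)) :=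
        mul_le_mul_of_nonneg_right hcardC (by positivity)
    _ = (2 ^ Fintype.card ι) ^ τ * (((k : ℝ) ^ 16) ^ (2 * m) * q ^ (m + 1)) := by ring

end Pool.Agent.LibLev64
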