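import Pool.Agent.LibLev64.F2

set_option autoImplicit false

/-! Task F2b: locality of the bad events. Cite F1 (`foot_chain2`), D3 (`cause_local2`), `LibLoc73` F1.
Model: `LibLoc73/H2b.lean`. -/

open Finset Pool.Agent.LibLoc73

namespace Pool.Agent.LibLev64

variable {ι κ : Type*} [Fintype ι] [Fintype κ] [DecidableEq ι] [DecidableEq κ]

theorem F2b_aux (P : LPar ι κ) (τ m : ℕ) (h : κ ⊕ ι) (ω ω' : Fin τ → ι → Bool)
    (hω : ∀ t, ∀ i ∈ (P.toPar.foot h).biUnion (P.toPar.ball (10 * m + 2 + τ * (P.r + 1))),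
      ω t i = ω' t i) (hb : BadEv2 P τ m h ω) : BadEv2 P τ m h ω' := by
  obtain ⟨l, hl1, hl2, hl3, hl5, hl4⟩ := hb
  refine ⟨l, hl1, hl2, hl3, hl5, fun h' hh' => ?_⟩
  refine (cause_local2 P τ (ext τ ω) (ext τ ω') h' ?_).1 (hl4 h' hh')
  intro t i' hi' i'' hi''
  -- a point of the foot of `h`
  obtain ⟨i, hi⟩ : ∃ i, i ∈ P.toPar.foot h := by
    rcases List.mem_cons.1 hh' with rfl | hmem
    · exact ⟨i', hi'⟩
    · cases l with
      | nil => simp at hmem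
      | cons b l =>
        rw [List.isChain_cons_cons] at hl1
        obtain ⟨i, hi, _⟩ := hl1.1
        unfold LPar.foot2 at hi
        obtain ⟨i0, hi0, _⟩ := Finset.mem_biUnion.1 hi
        exact ⟨i0, hi0⟩
  have h1 : i' ∈ P.toPar.ball (5 * l.length + 2) i := foot_chain2 P h l hl1 h' hh' i i' hi hi'
  have h2 : i'' ∈ P.toPar.ball (τ * (P.r + 1) + (5 * l.length + 2)) i :=
    ball_add P.toPar _ _ i i' h1 hi''
  have h3 : i'' ∈ P.toPar.ball (10 * m + 2 + τ * (P.r + 1)) i :=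
    ball_mono P.toPar (by rw [hl2]; omega) i h2
  unfold Pool.Agent.LibLoc73.ext
  split_ifs with ht
  · exact hω ⟨t, ht⟩ i'' (Finset.mem_biUnion.2 ⟨i, hi, h3⟩)
  · rfl

/-- the event `BadEv2 P τ m h` is determined by the letters in the balls of radius
`10 m + 2 + τ (r+1)` around the foot of `h` -/
theorem badEv2_local (P : LPar ι κ) (τ m : ℕ) (h : κ ⊕ ι) (ω ω' : Fin τ → ι → Bool)
    (hω : ∀ t, ∀ i ∈ (P.toPar.foot h).biUnion (P.toPar.ball (10 * m + 2 + τ * (P.r + 1))),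
      ω t i = ω' t i) : BadEv2 P τ m h ω ↔ BadEv2 P τ m h ω' :=
  ⟨F2b_aux P τ m h ω ω' hω, F2b_aux P τ m h ω' ω fun t i hi => (hω t i hi).symm⟩

end Pool.Agent.LibLev64
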