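import Pool.Agent.LibLev64.F2
import Pool.Agent.LibLev64.C9
import Pool.Agent.LibLoc73.J1

set_option autoImplicit false

/-! Task F4: size of the clusters. Cite F1, F2 (`BadEv2`), C9, `LibLoc73` F1, J1 (`clu`, `URel`),
`LibKomlos64.exists_list`. Model: `LibLoc73/J2.lean`. -/

open Finset Pool.Agent.LibLoc73

namespace Pool.Agent.LibLev64

variable {ι κ : Type*} [Fintype ι] [Fintype κ] [DecidableEq ι] [DecidableEq κ]

/-- every finite set of causes contains a non conflicting subset `S'` such that the foot of every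
member is in the enlarged foot of a member of `S'` (a maximal non conflicting subset) -/
theorem exists_nc (P : LPar ι κ) (S : Finset (κ ⊕ ι)) :
    ∃ S' ⊆ S, P.NC S' ∧ ∀ h ∈ S, ∃ h' ∈ S', P.toPar.foot h ⊆ P.foot2 h' := by
  classical
  obtain ⟨S', hS', hmax⟩ := Finset.exists_max_image (S.powerset.filter (fun A => P.NC A))
    (fun A => A.card) ⟨∅, by
      rw [Finset.mem_filter]
      refine ⟨Finset.empty_mem_powerset _, ?_⟩
      intro z z' hz
      exact absurd hz (Finset.notMem_empty _)⟩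
  rw [Finset.mem_filter, Finset.mem_powerset] at hS'
  refine ⟨S', hS'.1, hS'.2, ?_⟩
  intro h hh
  by_cases hmem : h ∈ S'
  · exact ⟨h, hmem, foot_subset_foot2 P h⟩
  -- otherwise adding `h` creates a conflict
  have hnot : ¬ P.NC (insert h S') := by
    intro hnc
    have h1 : insert h S' ∈ S.powerset.filter (fun A => P.NC A) := by
      rw [Finset.mem_filter, Finset.mem_powerset]
      exact ⟨Finset.insert_subset hh hS'.1, hnc⟩
    have h2 := hmax _ h1
    rw [Finset.card_insert_of_notMem hmem] at h2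
    omega
  unfold LPar.NC at hnot
  push Not at hnot
  obtain ⟨z, z', hz, hz', hne, hnb⟩ := hnot
  rw [Finset.mem_insert] at hz hz'
  rcases hz with hz | hz
  · rcases hz' with hz' | hz'
    · exact absurd (Sum.inr_injective (hz.trans hz'.symm)) hne
    · subst hz
      exact ⟨Sum.inr z', hz', foot_subset_of_nb P z z' hnb⟩
  · rcases hz' with hz' | hz'
    · subst hz'
      exact ⟨Sum.inr z, hz, foot_subset_of_nb P z' z ((mem_nb_symm P.toPar _ _).1 hnb)⟩
    · exact absurd hnb (hS'.2 z z' hz hz' hne)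

/-- If the cluster of `i0` has more than `m k⁶` elements, take a cause for each of its elements
(`undecided_cause`), replace them by members of the non conflicting set of `exists_nc`; enlarged feet have
at most `k⁶` elements, so at least `m+1` causes are used, and `exists_list` gives a bad chain. -/
theorem clu_card2 (P : LPar ι κ) (k : ℕ) (hP : P.Ok k) (τ m : ℕ)
    (hτ : ∀ i, P.c i * P.T + P.T ≤ τ) (hL0 : P.L0 = univ) (ω : Fin τ → ι → Bool)
    (hω : ∀ h : κ ⊕ ι, ¬ BadEv2 P τ m h ω) (i0 : ι)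
    (hi0 : |(P.run (ext τ ω) τ).x i0| < 1 - P.η) :
    (clu P.toPar (P.run (ext τ ω) τ).x i0).card ≤ m * k ^ 6 := by
  classical
  set x := (P.run (ext τ ω) τ).x with hx
  set Q := clu P.toPar x i0 with hQ
  have hmem : ∀ i, i ∈ Q ↔ Relation.ReflTransGen (URel P.toPar x) i0 i := fun i => by
    simp [hQ, clu]
  have hund : ∀ i ∈ Q, |x i| < 1 - P.η := by
    intro i hi
    rw [hmem] at hi
    rcases Relation.ReflTransGen.cases_tail hi with h | ⟨c, _, h⟩
    · rw [h]; exact hi0
    · exact h.2.1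
  have hcause : ∀ i : ι, ∃ h : κ ⊕ ι, |x i| < 1 - P.η →
      i ∈ P.toPar.foot h ∧ P.Cause (ext τ ω) τ h := by
    intro i
    by_cases hi : |x i| < 1 - P.η
    · obtain ⟨h, h1, h2, _⟩ := undecided_cause P k hP (ext τ ω) τ hτ i
        (by rw [hL0]; exact Finset.mem_univ _) hi
      exact ⟨h, fun _ => ⟨h1, h2⟩⟩
    · exact ⟨Sum.inr i, fun h => absurd h hi⟩
  choose dr0 hdr0 using hcause
  obtain ⟨S', hS'1, hS'2, hS'3⟩ := exists_nc P (Q.image dr0)
  have hg : ∀ h : κ ⊕ ι, ∃ h' : κ ⊕ ι, h ∈ Q.image dr0 → h' ∈ S' ∧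
      P.toPar.foot h ⊆ P.foot2 h' := by
    intro h
    by_cases hh : h ∈ Q.image dr0
    · obtain ⟨h', h1, h2⟩ := hS'3 h hh
      exact ⟨h', fun _ => ⟨h1, h2⟩⟩
    · exact ⟨h, fun hc => absurd hc hh⟩
  choose g hg using hg
  set dr : ι → κ ⊕ ι := fun i => g (dr0 i) with hdrdef
  have hdr1 : ∀ i ∈ Q, dr i ∈ S' := fun i hi => (hg _ (mem_image_of_mem dr0 hi)).1
  have hdr2 : ∀ i ∈ Q, i ∈ P.foot2 (dr i) := fun i hi =>
    (hg _ (mem_image_of_mem dr0 hi)).2 (hdr0 i (hund i hi)).1
  have hsub : Q.image dr ⊆ S' := by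
    intro h hh
    obtain ⟨i, hi, rfl⟩ := mem_image.1 hh
    exact hdr1 i hi
  by_contra hcon
  push Not at hcon
  have hcard : Q.card ≤ (Q.image dr).card * k ^ 6 := by
    have h1 : Q.card ≤ (k ^ 6) * (Q.image dr).card := by
      apply card_le_mul_card_image
      intro h _
      refine (card_le_card ?_).trans (card_foot2 P k hP.hB h)
      intro i hi
      obtain ⟨hi1, hi2⟩ := mem_filter.mp hi
      rw [← hi2]
      exact hdr2 i hi1
    linarith
  have hm : m + 1 ≤ (Q.image dr).card := by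
    by_contra hlt
    push Not at hlt
    have h2 : (Q.image dr).card * k ^ 6 ≤ m * k ^ 6 := Nat.mul_le_mul_right _ (by omega)
    omega
  obtain ⟨l, hl1, hl2, hl3, hl4, _⟩ := Pool.Agent.LibKomlos64.exists_list Q dr
    (fun a b => P.HAdj2 a b) (fun a b h => HAdj2_symm P a b h)
    (fun a b => a ∈ Q ∧ b ∈ Q ∧ URel P.toPar x a b)
    (fun a b h => ⟨h.1, h.2.1, a, hdr2 a h.1, b, hdr2 b h.2.1,
      h.2.2.2.2⟩) i0 ((hmem i0).mpr Relation.ReflTransGen.refl) (by
      intro i hi
      rw [hmem] at hi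
      induction hi with
      | refl => exact Relation.ReflTransGen.refl
      | tail hab hbc ih =>
        exact ih.tail ⟨(hmem _).mpr hab, (hmem _).mpr (hab.tail hbc), hbc⟩) m hm
  cases l with
  | nil => simp at hl2
  | cons h l =>
    refine hω h ⟨l, hl1, by simpa using hl2, hl3, ?_, fun h' hh' => ?_⟩
    · intro z z' hz hz'
      exact hS'2 z z' (hsub (hl4 hz)) (hsub (hl4 hz'))
    · have h5 : h' ∈ S' := hsub (hl4 (List.mem_toFinset.mpr hh'))
      obtain ⟨i, hi, rfl⟩ := mem_image.mp (hS'1 h5)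
      exact (hdr0 i (hund i hi)).2

end Pool.Agent.LibLev64
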