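import Pool.Agent.LibLev64.C9

set_option autoImplicit false

/-! Task G1: small live sets are decided completely for some signs. Cite C9. -/

open Finset Pool.Agent.LibLoc73

namespace Pool.Agent.LibLev64

variable {ι κ : Type*} [Fintype ι] [Fintype κ] [DecidableEq ι] [DecidableEq κ]

open Classical in
/-- union bound over the causes `inr z`, `z ∈ L0`, and `inl j`, `j` a row of some `z ∈ L0` (at most
`|L0| k²` rows, `hrows`); if none of them happens then `undecided_cause` shows that all variables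
of `L0` are decided. -/
theorem exists_decided (P : LPar ι κ) (k : ℕ) (hP : P.Ok k) (τ : ℕ)
    (hτ : ∀ i, P.c i * P.T + P.T ≤ τ) (q : ℝ) (hq : 0 ≤ q)
    (hcause : ∀ h : κ ⊕ ι, (((univ : Finset (Fin τ → ι → Bool)).filter (fun ω =>
        P.Cause (ext τ ω) τ h)).card : ℝ) ≤ (2 ^ Fintype.card ι) ^ τ * q)
    (hN : (P.L0.card : ℝ) * (1 + (k : ℝ) ^ 2) * q < 1) :
    ∃ ω : Fin τ → ι → Bool, ∀ i ∈ P.L0, 1 - P.η ≤ |(P.run (ext τ ω) τ).x i| := by
  set R : Finset (κ ⊕ ι) := P.L0.image Sum.inr ∪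
    P.L0.biUnion (fun i => ((univ : Finset κ).filter (fun j => P.a i j ≠ 0)).image Sum.inl) with hR
  have hRcard : (R.card : ℝ) ≤ P.L0.card * (1 + (k : ℝ) ^ 2) := by
    have h1 : R.card ≤ P.L0.card + P.L0.card * k ^ 2 := by
      refine (Finset.card_union_le _ _).trans (Nat.add_le_add Finset.card_image_le ?_)
      apply Finset.card_biUnion_le_card_mul
      intro i _
      refine Finset.card_image_le.trans ?_
      refine le_trans (le_of_eq ?_) (hP.hB.hrows i)
      congr 1
    have h2 : (R.card : ℝ) ≤ P.L0.card + P.L0.card * (k : ℝ) ^ 2 := by exact_mod_cast h1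
    linarith
  have htot : ((univ : Finset (Fin τ → ι → Bool)).card : ℝ) = (2 ^ Fintype.card ι) ^ τ := by
    rw [Finset.card_univ]
    simp [Fintype.card_fun]
  have h2n : (0 : ℝ) < (2 ^ Fintype.card ι) ^ τ := by positivity
  have hbad : (((univ : Finset (Fin τ → ι → Bool)).filter (fun ω =>
      ∃ h ∈ R, P.Cause (ext τ ω) τ h)).card : ℝ) < (2 ^ Fintype.card ι) ^ τ := by
    have hsub : (univ : Finset (Fin τ → ι → Bool)).filter (fun ω =>
        ∃ h ∈ R, P.Cause (ext τ ω) τ h) ⊆
        R.biUnion (fun h => (univ : Finset (Fin τ → ι → Bool)).filter (fun ω =>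
          P.Cause (ext τ ω) τ h)) := by
      intro ω hω
      rw [Finset.mem_filter] at hω
      obtain ⟨h, hh, hc⟩ := hω.2
      rw [Finset.mem_biUnion]
      exact ⟨h, hh, Finset.mem_filter.2 ⟨Finset.mem_univ _, hc⟩⟩
    calc (((univ : Finset (Fin τ → ι → Bool)).filter (fun ω =>
        ∃ h ∈ R, P.Cause (ext τ ω) τ h)).card : ℝ)
        ≤ ∑ h ∈ R, (((univ : Finset (Fin τ → ι → Bool)).filter (fun ω =>
          P.Cause (ext τ ω) τ h)).card : ℝ) := by
          exact_mod_cast (Finset.card_le_card hsub).trans Finset.card_biUnion_le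
      _ ≤ ∑ h ∈ R, (2 ^ Fintype.card ι) ^ τ * q := Finset.sum_le_sum fun h _ => hcause h
      _ = (2 ^ Fintype.card ι) ^ τ * (R.card * q) := by
          rw [Finset.sum_const, nsmul_eq_mul]; ring
      _ < (2 ^ Fintype.card ι) ^ τ * 1 := by
          apply mul_lt_mul_of_pos_left _ h2n
          exact lt_of_le_of_lt (mul_le_mul_of_nonneg_right hRcard hq) hN
      _ = (2 ^ Fintype.card ι) ^ τ := mul_one _
  obtain ⟨ω, hω⟩ : ∃ ω : Fin τ → ι → Bool, ¬ ∃ h ∈ R, P.Cause (ext τ ω) τ h := by
    by_contra hcon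
    push Not at hcon
    have h1 : (univ : Finset (Fin τ → ι → Bool)).filter (fun ω =>
        ∃ h ∈ R, P.Cause (ext τ ω) τ h) = univ := by
      apply Finset.filter_true_of_mem
      intro ω _
      exact hcon ω
    rw [h1, htot] at hbad
    exact lt_irrefl _ hbad
  refine ⟨ω, fun i hi => ?_⟩
  by_contra hlt
  push Not at hlt
  obtain ⟨h, hfoot, hc, hz⟩ := undecided_cause P k hP (ext τ ω) τ hτ i hi hlt
  apply hω
  refine ⟨h, ?_, hc⟩
  rcases h with j | z
  · rw [hR, Finset.mem_union]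
    right
    rw [Finset.mem_biUnion]
    refine ⟨i, hi, Finset.mem_image_of_mem _ ?_⟩
    rw [Finset.mem_filter]
    refine ⟨Finset.mem_univ _, ?_⟩
    unfold Par.foot at hfoot
    simpa using hfoot
  · rw [hR, Finset.mem_union]
    left
    exact Finset.mem_image_of_mem _ (hz z rfl)

end Pool.Agent.LibLev64
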