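import Pool.Agent.LibLoc73.J1

set_option autoImplicit false

/-! Task G2: gluing the roundings of the clusters. Model: `LibLoc73/J1.lean` (`round_clusters`). -/

open Finset Pool.Agent.LibLoc73

namespace Pool.Agent.LibLev64

variable {ι κ : Type*} [Fintype ι] [Fintype κ] [DecidableEq ι] [DecidableEq κ]

omit [DecidableEq κ] in
private theorem G2_mem (P : Par ι κ) (x : ι → ℝ) (i0 i : ι) :
    i ∈ clu P x i0 ↔ Relation.ReflTransGen (URel P x) i0 i := by
  classical
  simp [clu]

omit [DecidableEq κ] in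
private theorem G2_symm (P : Par ι κ) (x : ι → ℝ) (a b : ι)
    (h : Relation.ReflTransGen (URel P x) a b) : Relation.ReflTransGen (URel P x) b a := by
  induction h with
  | refl => exact Relation.ReflTransGen.refl
  | tail _ h ih => exact Relation.ReflTransGen.head ⟨h.2.1, h.1, (mem_nb_symm P _ _).mp h.2.2⟩ ih

omit [DecidableEq κ] in
private theorem G2_und (P : Par ι κ) (x : ι → ℝ) (i0 i : ι) (h0 : |x i0| < 1 - P.η)
    (hi : i ∈ clu P x i0) : |x i| < 1 - P.η := by
  rw [G2_mem] at hi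
  rcases Relation.ReflTransGen.cases_tail hi with h | ⟨c, _, h⟩
  · rw [h]; exact h0
  · exact h.2.1

omit [DecidableEq κ] in
private theorem G2_eq (P : Par ι κ) (x : ι → ℝ) (i0 i : ι) (hi : i ∈ clu P x i0) :
    clu P x i = clu P x i0 := by
  rw [G2_mem] at hi
  ext b
  rw [G2_mem, G2_mem]
  have hs : Relation.ReflTransGen (URel P x) i i0 :=
    G2_symm P x _ _ hi
  exact ⟨fun h => hi.trans h, fun h => hs.trans h⟩

omit [DecidableEq κ] in
private theorem G2_row (P : Par ι κ) (x : ι → ℝ) (i0 i : ι) (j : κ) (h0 : |x i0| < 1 - P.η)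
    (hi : |x i| < 1 - P.η) (ha0 : P.a i0 j ≠ 0) (ha : P.a i j ≠ 0) : i ∈ clu P x i0 := by
  rw [G2_mem]
  exact Relation.ReflTransGen.single ⟨h0, hi, mem_nb_of_row P i0 i j ha0 ha⟩

omit [DecidableEq κ] in
private theorem G2_entry (P : Par ι κ) (k : ℕ) (hP : P.Ok k) (i : ι) (j : κ) : |P.a i j| ≤ 1 := by
  have h1 : (P.a i j) ^ 2 ≤ 1 :=
    (single_le_sum (f := fun j => (P.a i j) ^ 2) (fun j _ => sq_nonneg _) (mem_univ j)).trans
      (hP.hcol i)
  exact (sq_le_one_iff_abs_le_one _).mp h1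

/-- Choose for every undecided `i0` a position `y` for `S = clu P x1 i0` (a canonical choice: the finset
`clu P x1 i` is the same for all members `i`). Glue: `x2 i = y_{clu i} i` for undecided `i`, `x2 i = x1 i`
otherwise; every row meets at most one cluster, so `|row x2 j - row x1 j| ≤ B`. Then `|x2 i| ≥ 1 - η`
everywhere; round to signs, cost `k η ≤ 1` per row. -/
theorem glue (P : Par ι κ) (k : ℕ) (hP : P.Ok k) (x1 : ι → ℝ) (hx1 : ∀ i, |x1 i| ≤ 1)
    (B : ℝ) (hB : 0 ≤ B) (N1 : ℕ)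
    (hclu : ∀ i0, |x1 i0| < 1 - P.η → (clu P x1 i0).card ≤ N1)
    (hS : ∀ S : Finset ι, S.card ≤ N1 → (∀ i ∈ S, |x1 i| < 1 - P.η) →
      ∃ y : ι → ℝ, (∀ i, |y i| ≤ 1) ∧ (∀ i ∉ S, y i = x1 i) ∧ (∀ i ∈ S, 1 - P.η ≤ |y i|) ∧
        ∀ j, |P.row y j - P.row x1 j| ≤ B) :
    ∃ ε : ι → ℝ, (∀ i, |ε i| = 1) ∧ ∀ j, |P.row ε j - P.row x1 j| ≤ B + 1 := by
  classical
  have hex : ∀ S : Finset ι, ∃ y : ι → ℝ, (S.card ≤ N1 ∧ (∀ i ∈ S, |x1 i| < 1 - P.η)) →
      ((∀ i, |y i| ≤ 1) ∧ (∀ i ∉ S, y i = x1 i) ∧ (∀ i ∈ S, 1 - P.η ≤ |y i|) ∧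
        ∀ j, |P.row y j - P.row x1 j| ≤ B) := by
    intro S
    by_cases hc : S.card ≤ N1 ∧ (∀ i ∈ S, |x1 i| < 1 - P.η)
    · obtain ⟨y, hy⟩ := hS S hc.1 hc.2
      exact ⟨y, fun _ => hy⟩
    · exact ⟨x1, fun h => absurd h hc⟩
  choose y hy using hex
  have hself : ∀ i, i ∈ clu P x1 i := fun i => by
    rw [G2_mem]
  have hyc : ∀ i0, |x1 i0| < 1 - P.η → ((∀ i, |y (clu P x1 i0) i| ≤ 1) ∧
      (∀ i ∉ clu P x1 i0, y (clu P x1 i0) i = x1 i) ∧
      (∀ i ∈ clu P x1 i0, 1 - P.η ≤ |y (clu P x1 i0) i|) ∧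
        ∀ j, |P.row (y (clu P x1 i0)) j - P.row x1 j| ≤ B) := fun i0 h0 =>
    hy _ ⟨hclu i0 h0, fun i hi => G2_und P x1 i0 i h0 hi⟩
  let x2 : ι → ℝ := fun i => if |x1 i| < 1 - P.η then y (clu P x1 i) i else x1 i
  have hx2a : ∀ i, |x2 i| ≤ 1 := by
    intro i
    by_cases h : |x1 i| < 1 - P.η
    · have : x2 i = y (clu P x1 i) i := if_pos h
      rw [this]
      exact (hyc i h).1 i
    · have : x2 i = x1 i := if_neg h
      rw [this]
      exact hx1 i
  have hx2b : ∀ i, 1 - P.η ≤ |x2 i| := by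
    intro i
    by_cases h : |x1 i| < 1 - P.η
    · have : x2 i = y (clu P x1 i) i := if_pos h
      rw [this]
      exact (hyc i h).2.2.1 i (hself i)
    · have : x2 i = x1 i := if_neg h
      rw [this]
      exact not_lt.1 h
  have hrow : ∀ j, |P.row x2 j - P.row x1 j| ≤ B := by
    intro j
    by_cases hex : ∃ i0, |x1 i0| < 1 - P.η ∧ P.a i0 j ≠ 0
    · obtain ⟨i0, h0, ha0⟩ := hex
      obtain ⟨_, h3, _, h4⟩ := hyc i0 h0
      have h5 : P.row x2 j = P.row (y (clu P x1 i0)) j := by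
        unfold Par.row
        refine sum_congr rfl fun i _ => ?_
        by_cases ha : P.a i j = 0
        · rw [ha, zero_mul, zero_mul]
        · congr 1
          by_cases hi : |x1 i| < 1 - P.η
          · have hmem := G2_row P x1 i0 i j h0 hi ha0 ha
            have : x2 i = y (clu P x1 i) i := if_pos hi
            rw [this, G2_eq P x1 i0 i hmem]
          · have hnot : i ∉ clu P x1 i0 := fun h => hi (G2_und P x1 i0 i h0 h)
            have : x2 i = x1 i := if_neg hi
            rw [this, h3 i hnot]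
      rw [h5]
      exact h4 j
    · push Not at hex
      have h5 : P.row x2 j = P.row x1 j := by
        unfold Par.row
        refine sum_congr rfl fun i _ => ?_
        by_cases hi : |x1 i| < 1 - P.η
        · rw [hex i hi, zero_mul, zero_mul]
        · have : x2 i = x1 i := if_neg hi
          rw [this]
      rw [h5, sub_self, abs_zero]
      exact hB
  let ε : ι → ℝ := fun i => if 0 ≤ x2 i then 1 else -1
  have hη : 0 ≤ P.η := hP.hδ.le.trans hP.hδη
  have hε : ∀ i, |ε i - x2 i| ≤ P.η := by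
    intro i
    have h5 := hx2a i
    have h6 := hx2b i
    by_cases h : 0 ≤ x2 i
    · have : ε i = 1 := if_pos h
      rw [this]
      rw [abs_of_nonneg h] at h5 h6
      rw [abs_of_nonneg (by linarith)]
      linarith
    · have : ε i = -1 := if_neg h
      rw [this]
      push Not at h
      rw [abs_of_neg h] at h5 h6
      rw [abs_of_nonpos (by linarith)]
      linarith
  refine ⟨ε, fun i => ?_, fun j => ?_⟩
  · by_cases h : 0 ≤ x2 i
    · have : ε i = 1 := if_pos h
      rw [this, abs_one]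
    · have : ε i = -1 := if_neg h
      rw [this, abs_neg, abs_one]
  · have h1 : |P.row ε j - P.row x2 j| ≤ 1 := by
      have h2 : P.row ε j - P.row x2 j = ∑ i, P.a i j * (ε i - x2 i) := by
        rw [Par.row, Par.row, ← sum_sub_distrib]
        exact sum_congr rfl fun i _ => by ring
      rw [h2]
      calc |∑ i, P.a i j * (ε i - x2 i)| ≤ ∑ i, |P.a i j * (ε i - x2 i)| :=
            abs_sum_le_sum_abs _ _
        _ ≤ ∑ i, (if P.a i j ≠ 0 then P.η else 0) := by
            refine sum_le_sum fun i _ => ?_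
            split_ifs with ha
            · rw [abs_mul]
              calc |P.a i j| * |ε i - x2 i| ≤ 1 * P.η :=
                    mul_le_mul (G2_entry P k hP i j) (hε i) (abs_nonneg _) zero_le_one
                _ = P.η := one_mul _
            · push Not at ha
              rw [ha, zero_mul, abs_zero]
        _ = ((univ.filter (fun i => P.a i j ≠ 0)).card : ℝ) * P.η := by
            rw [← sum_filter, sum_const, nsmul_eq_mul]
        _ ≤ (k : ℝ) * P.η := by
            apply mul_le_mul_of_nonneg_right _ hη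
            exact_mod_cast hP.hrow j
        _ ≤ 1 := by rw [mul_comm]; exact hP.hηk
    have h2 := hrow j
    have h3 : P.row ε j - P.row x1 j = (P.row x2 j - P.row x1 j) + (P.row ε j - P.row x2 j) := by
      ring
    rw [h3]
    exact (abs_add_le _ _).trans (add_le_add h2 h1)

end Pool.Agent.LibLev64
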