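import Pool.Agent.LibLev64.A1

set_option autoImplicit false

/-! Task K2: numerical inequalities, part 2: the thresholds. Cite A1. -/

open Finset Pool.Agent.LibLoc73

namespace Pool.Agent.LibLev64

/-- the thresholds -/
noncomputable def thr (k : ℕ) (ep : ℝ) (l : ℕ) : ℝ :=
  162 * (3 / 4 : ℝ) ^ l + 1620 * ep * √(Real.log k)

theorem thr_pos (k : ℕ) (ep : ℝ) (hep : 0 ≤ ep) (l : ℕ) : 0 < thr k ep l := by
  unfold thr
  positivity

private theorem K2_thr (k : ℕ) (hk : 2 ≤ k) (ep : ℝ) (hep : 0 ≤ ep) (l : ℕ) :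
    2624400 * ep ^ 2 * Real.log k ≤ thr k ep l ^ 2 := by
  have hk' : (2 : ℝ) ≤ k := by exact_mod_cast hk
  have hlog : 0 ≤ Real.log k := Real.log_nonneg (by linarith)
  have h1 : 0 ≤ 1620 * ep * √(Real.log k) := by positivity
  have h2 : 1620 * ep * √(Real.log k) ≤ thr k ep l := by
    unfold thr
    have : 0 ≤ 162 * (3 / 4 : ℝ) ^ l := by positivity
    linarith
  have h3 := pow_le_pow_left₀ h1 h2 2
  have h4 : (1620 * ep * √(Real.log k)) ^ 2 = 2624400 * ep ^ 2 * Real.log k := by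
    rw [mul_pow, mul_pow, Real.sq_sqrt hlog]
    norm_num
  rwa [h4] at h3

/-- `6480 · 404 ≤ 1620²` -/
theorem num_E2 (k : ℕ) (hk : 2 ≤ k) (ep : ℝ) (hep : 0 ≤ ep) (l : ℕ) :
    6480 * (404 * Real.log k) * ep ^ 2 ≤ thr k ep l ^ 2 := by
  have hk' : (2 : ℝ) ≤ k := by exact_mod_cast hk
  have hlog : 0 ≤ Real.log k := Real.log_nonneg (by linarith)
  refine le_trans ?_ (K2_thr k hk ep hep l)
  have : 0 ≤ ep ^ 2 * Real.log k := by positivity
  nlinarith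

/-- `M_H² = 4^H/4 ≥ 1/(4 ep²)`, so the exponent is at least `810 log k` -/
theorem num_c2 (k : ℕ) (hk : 2 ≤ k) (ep : ℝ) (hep : 0 < ep) (H : ℕ)
    (hH : 1 / ep ≤ 2 ^ H) :
    (k : ℝ) ^ 101 * √(2 * Real.exp (-(M H ^ 2 * thr k ep H ^ 2 / 810))) ≤ 1 := by
  have hk' : (2 : ℝ) ≤ k := by exact_mod_cast hk
  have hk0 : (0 : ℝ) < k := by linarith
  have hlog : 0 ≤ Real.log k := Real.log_nonneg (by linarith)
  have h1 : 1 ≤ ep * 2 ^ H := by
    rw [div_le_iff₀ hep] at hH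
    linarith
  have h2 : 1 ≤ 4 * ep ^ 2 * M H ^ 2 := by
    have h3 : 4 * ep ^ 2 * M H ^ 2 = (ep * 2 ^ H) ^ 2 := by
      unfold M
      ring
    rw [h3]
    exact one_le_pow₀ h1
  have h4 := K2_thr k hk ep hep.le H
  have h5 : 810 * Real.log k ≤ M H ^ 2 * thr k ep H ^ 2 / 810 := by
    rw [le_div_iff₀ (by norm_num)]
    have h6 : M H ^ 2 * (2624400 * ep ^ 2 * Real.log k) ≤ M H ^ 2 * thr k ep H ^ 2 :=
      mul_le_mul_of_nonneg_left h4 (by positivity)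
    have h7 : M H ^ 2 * (2624400 * ep ^ 2 * Real.log k)
        = 656100 * Real.log k * (4 * ep ^ 2 * M H ^ 2) := by ring
    have h8 : 656100 * Real.log k * 1 ≤ 656100 * Real.log k * (4 * ep ^ 2 * M H ^ 2) :=
      mul_le_mul_of_nonneg_left h2 (by positivity)
    linarith
  have h6 : √(2 * Real.exp (-(M H ^ 2 * thr k ep H ^ 2 / 810))) ≤ 1 / (k : ℝ) ^ 101 := by
    apply Real.sqrt_le_iff.mpr
    refine ⟨by positivity, ?_⟩
    have h7 : Real.exp (-(M H ^ 2 * thr k ep H ^ 2 / 810)) ≤ ((k : ℝ) ^ 203)⁻¹ := by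
      have h8 : ((k : ℝ) ^ 203)⁻¹ = Real.exp (-(((203 : ℕ) : ℝ) * Real.log k)) := by
        rw [Real.exp_neg, Real.exp_nat_mul, Real.exp_log hk0]
      rw [h8]
      apply Real.exp_le_exp.2
      push_cast
      linarith
    calc 2 * Real.exp (-(M H ^ 2 * thr k ep H ^ 2 / 810)) ≤ k * ((k : ℝ) ^ 203)⁻¹ := by
          apply mul_le_mul hk' h7 (Real.exp_pos _).le hk0.le
      _ = (1 / (k : ℝ) ^ 101) ^ 2 := by
          field_simp
  calc (k : ℝ) ^ 101 * √(2 * Real.exp (-(M H ^ 2 * thr k ep H ^ 2 / 810)))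
      ≤ (k : ℝ) ^ 101 * (1 / (k : ℝ) ^ 101) := mul_le_mul_of_nonneg_left h6 (by positivity)
    _ = 1 := by field_simp

end Pool.Agent.LibLev64
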