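import Pool.Agent.LibLev64.B4
import Pool.Agent.LibLev64.B5
import Pool.Agent.LibLev64.B6
import Pool.Agent.LibLev64.C7
import Pool.Agent.LibLev64.F3
import Pool.Agent.LibLev64.F4
import Pool.Agent.LibLev64.G1
import Pool.Agent.LibLev64.G2
import Pool.Agent.LibLev64.K1
import Pool.Agent.LibLev64.K3
import Pool.Agent.LibLoc73.E2
import Pool.Agent.LibLoc73.K1

set_option autoImplicit false

/-! Assembly (helper64). -/

open Finset Pool.Agent.LibLoc73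

namespace Pool.Agent.LibLev64

variable {ι κ : Type*} [Fintype ι] [Fintype κ] [DecidableEq ι] [DecidableEq κ]

/-- the parameters -/
noncomputable def mkP (a : ι → κ → ℝ) (c : ι → ℕ) (k : ℕ) (ep : ℝ) (H : ℕ) (x0 : ι → ℝ)
    (L0 : Finset ι) : LPar ι κ where
  a := a
  c := c
  T := 180000000 * k ^ 7
  r := 40 * k ^ 3
  Lc := 2 * (k : ℝ) ^ 2
  δ := 1 / (200 * (k : ℝ) ^ 3)
  η := 1 / (k : ℝ) ^ 2
  lam := 1
  H := H
  ep := ep
  E := thr k ep
  x0 := x0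
  L0 := L0

theorem mkP_ok (a : ι → κ → ℝ) (c : ι → ℕ) (k : ℕ) (hk : 2 ≤ k) (ep : ℝ) (hep0 : 0 ≤ ep)
    (hep1 : ep ≤ 1) (H : ℕ) (hH : H + 1 ≤ k ^ 2) (x0 : ι → ℝ) (L0 : Finset ι)
    (hcol : ∀ i, ∑ j, (a i j) ^ 2 ≤ 1)
    (hrow : ∀ j, (univ.filter (fun i => a i j ≠ 0)).card ≤ k)
    (hrows : ∀ i, (univ.filter (fun j => a i j ≠ 0)).card ≤ k ^ 2)
    (hc : ∀ i i' j, i ≠ i' → a i j ≠ 0 → a i' j ≠ 0 → c i ≠ c i')
    (hep : ∀ i j, |a i j| ≤ ep)
    (hx0 : ∀ i, |x0 i| ≤ 1) (hL0 : ∀ i ∈ L0, |x0 i| < 1 - 1 / (k : ℝ) ^ 2) :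
    (mkP a c k ep H x0 L0).Ok k := by
  have hkr : (2 : ℝ) ≤ k := by exact_mod_cast hk
  have hk0 : (0 : ℝ) < k := by linarith
  have hk1 : (1 : ℝ) ≤ k := by linarith
  have hksq : (k : ℝ) ≤ (k : ℝ) ^ 2 := by nlinarith
  have hk2 : (0 : ℝ) < (k : ℝ) ^ 2 := by positivity
  have hk3 : (k : ℝ) ^ 2 ≤ (k : ℝ) ^ 3 := pow_le_pow_right₀ hk1 (by norm_num)
  refine ⟨⟨hk, hcol, hrow, hrows, hc, ?_, ?_, ?_, ?_, ?_, ?_, ?_⟩, le_rfl, ?_, hH, hep0, hep,
    hep1, fun l => thr_pos k ep hep0 l, hx0, hL0⟩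
  · show 0 < 180000000 * k ^ 7
    positivity
  · show 2 * (k : ℝ) ≤ 2 * (k : ℝ) ^ 2
    linarith
  · show (0 : ℝ) < 1 / (200 * (k : ℝ) ^ 3)
    positivity
  · show (1 : ℝ) / (200 * (k : ℝ) ^ 3) ≤ 1 / (k : ℝ) ^ 2
    apply one_div_le_one_div_of_le hk2
    have : (0 : ℝ) ≤ (k : ℝ) ^ 3 := by positivity
    linarith
  · show (1 : ℝ) / (k : ℝ) ^ 2 < 1
    rw [div_lt_one hk2]; nlinarith
  · show (1 : ℝ) / (k : ℝ) ^ 2 * k ≤ 1
    rw [one_div, inv_mul_le_iff₀ hk2]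
    linarith
  · show (0 : ℝ) < 1
    norm_num
  · show (1 : ℝ) / (k : ℝ) ^ 2 * (k : ℝ) ^ 2 ≤ 1
    rw [one_div, inv_mul_cancel₀ hk2.ne']

open Classical in
/-- joint probability of causes for the parameters `mkP` -/
theorem cause_mkP (a : ι → κ → ℝ) (c : ι → ℕ) (k : ℕ) (hk : 2 ≤ k) (ep : ℝ) (hep0 : 0 < ep)
    (H : ℕ) (hH1 : 1 / ep ≤ 2 ^ H) (x0 : ι → ℝ) (L0 : Finset ι)
    (hok : (mkP a c k ep H x0 L0).Ok k) (hcD : ∀ i, c i + 1 ≤ k ^ 3) :
    ∃ q : ℝ, 0 ≤ q ∧ (k : ℝ) ^ 99 * q ≤ 1 ∧ ∀ S : Finset (κ ⊕ ι), (mkP a c k ep H x0 L0).NC S →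
      (((univ : Finset (Fin (180000000 * k ^ 10) → ι → Bool)).filter (fun ω =>
        ∀ h ∈ S, (mkP a c k ep H x0 L0).Cause (ext (180000000 * k ^ 10) ω)
          (180000000 * k ^ 10) h)).card : ℝ)
      ≤ (2 ^ Fintype.card ι) ^ (180000000 * k ^ 10) * q ^ S.card := by
  classical
  have hkr : (2 : ℝ) ≤ k := by exact_mod_cast hk
  have hk0 : (0 : ℝ) < k := by linarith
  set P := mkP a c k ep H x0 L0 with hPdef
  set τ : ℕ := 180000000 * k ^ 10 with hτdef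
  have hτr : ((τ : ℕ) : ℝ) = 180000000 * (k : ℝ) ^ 10 := by rw [hτdef]; push_cast; ring
  have hr : 20 * P.δ ^ 2 * τ * (1 - 1 / P.Lc) ^ P.r ≤ 1 := by
    rw [hτr]
    exact num_r2 k hk
  have hlogk : 0 ≤ Real.log k := Real.log_nonneg (by linarith)
  set lam : ℝ := 404 * Real.log k with hlam
  have hlam0 : 0 ≤ lam := by positivity
  have hwin : ∀ i, P.c i * P.T + P.T ≤ τ := by
    intro i
    show c i * (180000000 * k ^ 7) + 180000000 * k ^ 7 ≤ 180000000 * k ^ 10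
    calc c i * (180000000 * k ^ 7) + 180000000 * k ^ 7
        = (c i + 1) * (180000000 * k ^ 7) := by ring
      _ ≤ k ^ 3 * (180000000 * k ^ 7) := Nat.mul_le_mul_right _ (hcD i)
      _ = 180000000 * k ^ 10 := by ring
  have hδ1 : P.δ ≤ 1 := hok.hB.hδη.trans hok.hB.hη.le
  have hA : ∀ A : Finset ι, (((univ : Finset (Fin τ → ι → Bool)).filter (fun ω =>
        ∀ z ∈ A, P.toPar.Conf (ext τ ω) z)).card : ℝ) ≤ (2 ^ Fintype.card ι) ^ τ
          * (2 * Real.exp (-(P.δ ^ 2 * P.T / 9))) ^ A.card := by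
    intro A
    convert conf_prod P.toPar hok.hB.hδ hδ1 τ A (fun z _ => hwin z)
  have hqq0 : ∀ l, 0 ≤ P.qq l := fun l => by unfold LPar.qq; positivity
  have hJ : ∀ (J : Finset κ) (Z I : Finset ι),
      (∀ z ∈ I, ∀ z' ∈ I, z ≠ z' → z' ∉ P.toPar.nb z) →
      (((univ : Finset (Fin τ → ι → Bool)).filter (fun ω =>
        (∀ j ∈ J, P.Up (ext τ ω) τ j P.H) ∧ (∀ z ∈ Z, P.IsBig (ext τ ω) τ z)
          ∧ ∀ z ∈ I, P.Bud (ext τ ω) τ z)).card : ℝ)
      ≤ (2 ^ Fintype.card ι) ^ τ * (P.qq P.H ^ J.card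
        * (2 * τ * Real.exp (-(P.η ^ 2 / (80 * P.δ ^ 2)))) ^ Z.card
        * (Real.exp (-(lam / 2))) ^ I.card) := by
    intro J Z I hI
    have h1 := bud_joint P k hok τ hr J Z I hI lam hlam0
    refine (le_of_eq ?_).trans (h1.trans ?_)
    · congr 1
      congr 1
      convert rfl
    · apply mul_le_mul_of_nonneg_left _ (by positivity)
      apply mul_le_mul_of_nonneg_left _ (by
        have := hqq0 P.H
        positivity)
      rw [← prod_const]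
      apply prod_le_prod
      · intro i _
        apply mul_nonneg (Real.exp_pos _).le
        apply prod_nonneg
        intro j _
        apply prod_nonneg
        intro l _
        have h2 : 1 ≤ Real.exp (lam * (P.a i j ^ 2 * M (l + 1) ^ 2)) :=
          Real.one_le_exp (by positivity)
        have h3 := mul_nonneg (sub_nonneg.mpr h2) (hqq0 l)
        linarith
      · intro i _
        exact bud_factor P k hok i lam hlam0 (fun l => num_E2 k hk ep hep0.le l)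
          (num_sum2 k ep hep0.le H)
  have hcause := cause_prob P τ (2 * Real.exp (-(P.δ ^ 2 * P.T / 9)))
    (2 * τ * Real.exp (-(P.η ^ 2 / (80 * P.δ ^ 2)))) (P.qq P.H) (Real.exp (-(lam / 2)))
    (by positivity) (by positivity) (hqq0 _) (by positivity)
    (fun A => by convert hA A) (fun J Z I hI => by convert hJ J Z I hI)
  set q : ℝ := √(2 * Real.exp (-(P.δ ^ 2 * P.T / 9)))
    + √(2 * τ * Real.exp (-(P.η ^ 2 / (80 * P.δ ^ 2)))) + √(P.qq P.H)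
    + √(Real.exp (-(lam / 2))) with hq
  have hq0 : 0 ≤ q := by positivity
  refine ⟨q, hq0, ?_, ?_⟩
  · have ha := num_a2 k hk
    have hb := num_b2 k hk
    have hc := num_c2 k hk ep hep0 H hH1
    have he := num_e2 k hk
    have e1 : √(2 * Real.exp (-(P.δ ^ 2 * P.T / 9)))
        = √(2 * Real.exp (-((1 / (200 * (k : ℝ) ^ 3)) ^ 2 * (180000000 * (k : ℝ) ^ 7) / 9))) := by
      have : ((P.T : ℕ) : ℝ) = 180000000 * (k : ℝ) ^ 7 := by
        show ((180000000 * k ^ 7 : ℕ) : ℝ) = _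
        push_cast; ring
      rw [this]
      rfl
    have e2 : √(2 * τ * Real.exp (-(P.η ^ 2 / (80 * P.δ ^ 2))))
        = √(2 * (180000000 * (k : ℝ) ^ 10)
      * Real.exp (-((1 / (k : ℝ) ^ 2) ^ 2 / (80 * (1 / (200 * (k : ℝ) ^ 3)) ^ 2)))) := by
      rw [hτr]
      rfl
    have e3 : √(P.qq P.H)
        = √(2 * Real.exp (-(M H ^ 2 * thr k ep H ^ 2 / 810))) := rfl
    have h101 : (k : ℝ) ^ 101 * q ≤ 4 := by
      rw [hq, e1, e2, e3, mul_add, mul_add, mul_add]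
      linarith
    have h4 : (4 : ℝ) ≤ (k : ℝ) ^ 2 := by nlinarith
    have h5 : (k : ℝ) ^ 101 * q = (k : ℝ) ^ 2 * ((k : ℝ) ^ 99 * q) := by ring
    have h6 : (0 : ℝ) ≤ (k : ℝ) ^ 99 * q := by positivity
    by_contra hcon
    push Not at hcon
    nlinarith
  · intro S hS
    convert hcause S hS

theorem main_matrix (k : ℕ) (hk : 2 ≤ k) (ep : ℝ) (hep1 : ep ≤ 1) (hkep : 1 / (k : ℝ) ≤ ep)
    (a : ι → κ → ℝ) (hcol : ∀ i, ∑ j, (a i j) ^ 2 ≤ 1)
    (hrow : ∀ j, (univ.filter (fun i => a i j ≠ 0)).card ≤ k)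
    (hrows : ∀ i, (univ.filter (fun j => a i j ≠ 0)).card ≤ k ^ 2)
    (hep : ∀ i j, |a i j| ≤ ep) :
    ∃ ε : ι → ℝ, (∀ i, |ε i| = 1) ∧ ∀ j, |∑ i, a i j * ε i|
      ≤ 1401 + 9800 * (ep * Real.log (2 / ep) * √(Real.log k)) := by
  classical
  have hkr : (2 : ℝ) ≤ k := by exact_mod_cast hk
  have hk0 : (0 : ℝ) < k := by linarith
  have hep0 : 0 < ep := lt_of_lt_of_le (by positivity) hkep
  obtain ⟨H, hH1, hH2, hH3⟩ := exists_H k hk ep hep1 hkep
  -- colouring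
  set P0 : Par ι κ := ⟨a, fun _ => 0, 1, 0, 1, 1, 1, 1⟩ with hP0
  have hcardnb : ∀ i, (P0.nb i).card ≤ k ^ 3 := card_nb P0 k (by omega) hrow hrows
  obtain ⟨c, hcD, hcne⟩ := greedy P0.nb (k ^ 3) (mem_nb_self P0) (mem_nb_symm P0) hcardnb
  have hcol' : ∀ i i' j, i ≠ i' → a i j ≠ 0 → a i' j ≠ 0 → c i ≠ c i' := by
    intro i i' j hii h1 h2
    exact hcne i i' (mem_nb_of_row P0 i i' j h1 h2) hii
  have hη : (0 : ℝ) < 1 - 1 / (k : ℝ) ^ 2 := by
    rw [sub_pos, div_lt_one (by positivity)]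
    nlinarith
  set τ : ℕ := 180000000 * k ^ 10 with hτdef
  set m : ℕ := τ * (40 * k ^ 3 + 1) with hmdef
  -- first run
  set P : LPar ι κ := mkP a c k ep H (fun _ => 0) univ with hPdef
  have hok : P.Ok k := mkP_ok a c k hk ep hep0.le hep1 H hH3 _ _ hcol hrow hrows hcol' hep
    (fun i => by simp) (fun i _ => by simpa using hη)
  have hwin : ∀ i, P.c i * P.T + P.T ≤ τ := by
    intro i
    have h1 : c i + 1 ≤ k ^ 3 := hcD i
    show c i * (180000000 * k ^ 7) + 180000000 * k ^ 7 ≤ 180000000 * k ^ 10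
    calc c i * (180000000 * k ^ 7) + 180000000 * k ^ 7
        = (c i + 1) * (180000000 * k ^ 7) := by ring
      _ ≤ k ^ 3 * (180000000 * k ^ 7) := Nat.mul_le_mul_right _ h1
      _ = 180000000 * k ^ 10 := by ring
  obtain ⟨q, hq0, hq1, hq2⟩ := cause_mkP a c k hk ep hep0 H hH1 (fun _ => 0) univ hok hcD
  obtain ⟨ω, hω⟩ : ∃ ω : Fin τ → ι → Bool, ∀ h : κ ⊕ ι, ¬ BadEv2 P τ m h ω := by
    refine exists_omega2 P k hok τ m (by positivity) le_rfl q hq0 hq1 ?_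
    intro S hS
    convert hq2 S hS
  set x1 := (P.run (ext τ ω) τ).x with hx1def
  have hx1 : ∀ i, |x1 i| ≤ 1 := run_x_le P k hok _ _
  have hBd : ∀ (x0 : ι → ℝ) (L0 : Finset ι), Bd (mkP a c k ep H x0 L0) k
      ≤ 700 + 4900 * (ep * Real.log (2 / ep) * √(Real.log k)) :=
    fun x0 L0 => num_fin2 k hk ep hep1 hkep H hH2
  set B : ℝ := 700 + 4900 * (ep * Real.log (2 / ep) * √(Real.log k)) with hB
  have hB0 : 0 ≤ B := by
    have h1 : 0 ≤ Real.log (2 / ep) := by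
      apply Real.log_nonneg
      rw [le_div_iff₀ hep0]
      linarith
    positivity
  -- second run
  have hS : ∀ S : Finset ι, S.card ≤ m * k ^ 6 → (∀ i ∈ S, |x1 i| < 1 - P.toPar.η) →
      ∃ y : ι → ℝ, (∀ i, |y i| ≤ 1) ∧ (∀ i ∉ S, y i = x1 i) ∧
        (∀ i ∈ S, 1 - P.toPar.η ≤ |y i|) ∧
        ∀ j, |P.toPar.row y j - P.toPar.row x1 j| ≤ B := by
    intro S hScard hSund
    set P2 : LPar ι κ := mkP a c k ep H x1 S with hP2def
    have hok2 : P2.Ok k := mkP_ok a c k hk ep hep0.le hep1 H hH3 _ _ hcol hrow hrows hcol' hep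
      hx1 hSund
    obtain ⟨q', hq0', hq1', hq2'⟩ := cause_mkP a c k hk ep hep0 H hH1 x1 S hok2 hcD
    have hcard : (S.card : ℝ) ≤ ((180000000 * k ^ 10 * (40 * k ^ 3 + 1) * k ^ 6 : ℕ) : ℝ) := by
      exact_mod_cast hScard
    obtain ⟨ω', hω'⟩ := exists_decided P2 k hok2 τ hwin q' hq0' (by
      intro h
      have := hq2' {h} (by
        intro z z' hz hz' hne
        rw [mem_singleton] at hz hz'
        exact absurd (Sum.inr.inj (hz.trans hz'.symm)) hne)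
      rw [card_singleton, pow_one] at this
      refine le_trans ?_ this
      apply Nat.cast_le.mpr
      apply card_le_card
      intro ω hω
      refine Finset.mem_filter.mpr ⟨mem_univ _, ?_⟩
      intro h' hh'
      rw [mem_singleton] at hh'
      rw [hh']
      exact (Finset.mem_filter.mp hω).2) (by
      show (S.card : ℝ) * (1 + (k : ℝ) ^ 2) * q' < 1
      refine lt_of_le_of_lt ?_ (num_N2 k hk q' hq0' hq1')
      gcongr)
    refine ⟨(P2.run (ext τ ω') τ).x, run_x_le P2 k hok2 _ _, ?_, hω', ?_⟩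
    · intro i hi
      have h1 := run_x_of_notMem P2 (ext τ ω') (Nat.zero_le τ) i (by exact hi)
      rw [h1]
      rfl
    · intro j
      exact (run_row_le P2 k hok2 (ext τ ω') τ j).trans (hBd x1 S)
  obtain ⟨ε, hε1, hε2⟩ := glue P.toPar k hok.hB x1 hx1 B hB0 (m * k ^ 6)
    (fun i0 hi0 => clu_card2 P k hok τ m hwin rfl ω hω i0 hi0) hS
  refine ⟨ε, hε1, ?_⟩
  intro j
  have h1 := (run_row_le P k hok (ext τ ω) τ j).trans (hBd _ _)
  have h2 := hε2 j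
  have h0 : P.toPar.row P.x0 j = 0 := by
    show ∑ i, a i j * (0 : ℝ) = 0
    simp
  rw [h0, sub_zero] at h1
  have h3 : |P.toPar.row ε j| ≤ |P.toPar.row ε j - P.toPar.row x1 j| + |P.toPar.row x1 j| := by
    have := abs_add_le (P.toPar.row ε j - P.toPar.row x1 j) (P.toPar.row x1 j)
    rwa [sub_add_cancel] at this
  have h5 : P.toPar.row ε j = ∑ i, a i j * ε i := rfl
  rw [h5] at h2 h3
  have h6 : |P.toPar.row x1 j| ≤ B := h1
  linarith

end Pool.Agent.LibLev64
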